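import Mathlib

set_option autoImplicit false

/-!
The conservative random walk on `ℤ^d`: definitions and the basic independence lemma.
-/

namespace R975.CW

open MeasureTheory ProbabilityTheory Filter

/-- the `2d` directions: an axis and a sign -/
abbrev Dir (d : ℕ) := Fin d × Bool

/-- the unit vector of a direction -/
def stepVec {d : ℕ} (u : Dir d) : Fin d → ℤ := Pi.single u.1 (if u.2 then 1 else -1)

/-- the law of a coin which shows `true` with probability `q` -/
noncomputable def coin (q : unitInterval) : Measure Bool :=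
  ENNReal.ofReal (q : ℝ) • Measure.dirac true + ENNReal.ofReal (1 - (q : ℝ)) • Measure.dirac false

instance (q : unitInterval) : IsProbabilityMeasure (coin q) := by
  constructor
  have h1 : (0:ℝ) ≤ q := q.2.1
  have h2 : (q:ℝ) ≤ 1 := q.2.2
  simp only [coin, Measure.coe_add, Measure.coe_smul, Pi.add_apply, Pi.smul_apply, measure_univ,
    smul_eq_mul, mul_one]
  rw [← ENNReal.ofReal_add h1 (by linarith)]
  simp

/-- the uniform law on the directions -/
noncomputable def unif (d : ℕ) [NeZero d] : Measure (Dir d) :=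
  (PMF.uniformOfFintype (Dir d)).toMeasure

instance (d : ℕ) [NeZero d] : IsProbabilityMeasure (unif d) := by
  unfold unif; infer_instance

/-- the driving randomness: at every time `n` an independent coin (`true` with probability `p n`)
and an independent uniform direction -/
noncomputable def crw (d : ℕ) [NeZero d] (p : ℕ → unitInterval) : Measure (ℕ → Bool × Dir d) :=
  Measure.infinitePi (fun n => (coin (p n)).prod (unif d))

instance (d : ℕ) [NeZero d] (p : ℕ → unitInterval) : IsProbabilityMeasure (crw d p) := by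
  unfold crw; infer_instance

/-- the steps: the first step is the uniform direction of time `0`; at a later time the fresh
direction is used if the coin shows `true`, otherwise the previous step is repeated -/
def Y {d : ℕ} (ω : ℕ → Bool × Dir d) : ℕ → Dir d
  | 0 => (ω 0).2
  | n + 1 => if (ω (n + 1)).1 then (ω (n + 1)).2 else Y ω n

/-- the position after `n` steps -/
def S {d : ℕ} (ω : ℕ → Bool × Dir d) (n : ℕ) : Fin d → ℤ :=
  ∑ i ∈ Finset.range n, stepVec (Y ω i)

/-- the walk with parameters `p` is strongly transient: the Euclidean norm of the position tends to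
infinity almost surely -/
def StronglyTransient (d : ℕ) [NeZero d] (p : ℕ → unitInterval) : Prop :=
  ∀ᵐ ω ∂(crw d p), Tendsto (fun n => Real.sqrt (∑ i, (S ω n i : ℝ) ^ 2)) atTop atTop

/-- strong transience is inherited by smaller parameters -/
def Mono (d : ℕ) [NeZero d] : Prop :=
  ∀ p p' : ℕ → unitInterval, (∀ n, p' n ≤ p n) → StronglyTransient d p → StronglyTransient d p'

/-! ### basic facts -/

theorem S_succ {d : ℕ} (ω : ℕ → Bool × Dir d) (n : ℕ) :
    S ω (n + 1) = S ω n + stepVec (Y ω n) := by
  rw [S, Finset.sum_range_succ]; rfl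

theorem S_zero {d : ℕ} (ω : ℕ → Bool × Dir d) : S ω 0 = 0 := rfl

/-- the set `G` depends only on the coordinates before `m` -/
def Pre {X : Type*} (m : ℕ) (G : Set (ℕ → X)) : Prop :=
  ∀ ω ω' : ℕ → X, (∀ i < m, ω i = ω' i) → ω ∈ G → ω' ∈ G

theorem Pre.mono {X : Type*} {m n : ℕ} {G : Set (ℕ → X)} (h : Pre m G) (hmn : m ≤ n) : Pre n G :=
  fun ω ω' hω => h ω ω' (fun i hi => hω i (lt_of_lt_of_le hi hmn))

theorem Pre.inter {X : Type*} {m : ℕ} {G H : Set (ℕ → X)} (h : Pre m G) (h' : Pre m H) :
    Pre m (G ∩ H) := fun ω ω' hω hh => ⟨h ω ω' hω hh.1, h' ω ω' hω hh.2⟩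

theorem Pre.compl {X : Type*} {m : ℕ} {G : Set (ℕ → X)} (h : Pre m G) : Pre m Gᶜ :=
  fun ω ω' hω hh hh' => hh (h ω' ω (fun i hi => (hω i hi).symm) hh')

theorem Pre.eq_preimage {X : Type*} [Nonempty X] {m : ℕ} {G : Set (ℕ → X)} (h : Pre m G) :
    ∃ B : Set ((Finset.range m) → X), G = (fun ω : ℕ → X => fun i : Finset.range m => ω i) ⁻¹' B := by
  refine ⟨(fun ω : ℕ → X => fun i : Finset.range m => ω i) '' G, ?_⟩
  ext ω
  constructor
  · intro hω; exact ⟨ω, hω, rfl⟩
  · rintro ⟨ω', hω', he⟩
    apply h ω' ω _ hω'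
    intro i hi
    exact congrFun he ⟨i, Finset.mem_range.2 hi⟩

section indep

variable {X : Type*} [Fintype X] [Nonempty X] [MeasurableSpace X] [MeasurableSingletonClass X]

theorem Pre.measurable {m : ℕ} {G : Set (ℕ → X)} (h : Pre m G) : MeasurableSet G := by
  obtain ⟨B, rfl⟩ := h.eq_preimage
  apply MeasurableSet.preimage (Set.toFinite B).measurableSet
  exact measurable_pi_lambda _ fun i => measurable_pi_apply _

/-- an event before time `m` is independent of the coordinate at a time `n ≥ m` -/
theorem Pre.indep (ν : ℕ → Measure X) [∀ n, IsProbabilityMeasure (ν n)] {m n : ℕ} (hmn : m ≤ n)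
    {G : Set (ℕ → X)} (h : Pre m G) (C : Set X) :
    Measure.infinitePi ν (G ∩ {ω | ω n ∈ C}) = Measure.infinitePi ν G * ν n C := by
  obtain ⟨B, rfl⟩ := h.eq_preimage
  have hi : iIndepFun (fun (i : ℕ) (ω : ℕ → X) => ω i) (Measure.infinitePi ν) :=
    iIndepFun_infinitePi (P := ν) (X := fun _ x => x) (fun i => measurable_id)
  have h2 := hi.indepFun_finset (Finset.range m) {n} (by
    rw [Finset.disjoint_singleton_right, Finset.mem_range]; omega) (fun i => measurable_pi_apply i)
  have hC : MeasurableSet {g : (({n} : Finset ℕ)) → X | g ⟨n, Finset.mem_singleton_self n⟩ ∈ C} :=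
    (Set.toFinite _).measurableSet
  have h3 := h2.measure_inter_preimage_eq_mul _ _ (Set.toFinite B).measurableSet hC
  have h4 : Measure.infinitePi ν {ω | ω n ∈ C} = ν n C := by
    have hm : MeasurableSet C := (Set.toFinite C).measurableSet
    have := Measure.infinitePi_map_eval ν n
    rw [← this, Measure.map_apply (measurable_pi_apply n) hm]
    rfl
  rw [← h4]
  exact h3

end indep

end R975.CW
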