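import Pool.Agent.R975.CW.Signs

set_option autoImplicit false

/-!
Estimates for the walk with deterministic block lengths: conditioning on the axes.
-/

namespace R975.CW

open MeasureTheory ProbabilityTheory Filter Finset

/-- the set `E` depends only on the coordinates in `U` -/
def Dep (U : Finset ℕ) (E : Set (ℕ → Bool)) : Prop :=
  ∀ s s' : ℕ → Bool, (∀ i ∈ U, s i = s' i) → s ∈ E → s' ∈ E

theorem Dep.eq_preimage {U : Finset ℕ} {E : Set (ℕ → Bool)} (h : Dep U E) :
    ∃ B : Set (U → Bool), E = (fun s : ℕ → Bool => fun i : U => s i) ⁻¹' B := by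
  refine ⟨(fun s : ℕ → Bool => fun i : U => s i) '' E, ?_⟩
  ext s
  constructor
  · intro hs; exact ⟨s, hs, rfl⟩
  · rintro ⟨s', hs', he⟩
    apply h s' s _ hs'
    intro i hi
    exact congrFun he ⟨i, hi⟩

theorem Dep.indep {U V : Finset ℕ} (hUV : Disjoint U V) {E F : Set (ℕ → Bool)} (hE : Dep U E)
    (hF : Dep V F) : sg (E ∩ F) = sg E * sg F := by
  obtain ⟨B, rfl⟩ := hE.eq_preimage
  obtain ⟨C, rfl⟩ := hF.eq_preimage
  have hi : iIndepFun (fun (i : ℕ) (s : ℕ → Bool) => s i) sg :=
    iIndepFun_infinitePi (P := fun _ : ℕ => uB) (X := fun _ x => x) (fun i => measurable_id)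
  have h2 := hi.indepFun_finset U V hUV (fun i => measurable_pi_apply i)
  exact h2.measure_inter_preimage_eq_mul _ _ (Set.toFinite B).measurableSet (Set.toFinite C).measurableSet

theorem Dep.inter {U V : Finset ℕ} {E F : Set (ℕ → Bool)} (hE : Dep U E) (hF : Dep V F) :
    Dep (U ∪ V) (E ∩ F) := fun s s' h hs =>
  ⟨hE s s' (fun i hi => h i (Finset.mem_union_left _ hi)) hs.1,
    hF s s' (fun i hi => h i (Finset.mem_union_right _ hi)) hs.2⟩

theorem dep_ssum (U : Finset ℕ) (w : ℕ → ℤ) (P : ℤ → Prop) : Dep U {s | P (ssum U w s)} := by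
  intro s s' h hs
  have : ssum U w s' = ssum U w s := by
    unfold ssum
    exact Finset.sum_congr rfl fun j hj => by rw [h j hj]
  show P (ssum U w s')
  rw [this]; exact hs

/-- small values: windows of length one -/
theorem small_prob (U : Finset ℕ) (w : ℕ → ℤ) (hw : ∀ j, 1 ≤ w j) (R : ℕ) :
    sg {s | |ssum U w s| ≤ R} ≤ ENNReal.ofReal ((2 * R + 1) * (1 / Real.sqrt (U.card + 1))) := by
  have h1 : {s : ℕ → Bool | |ssum U w s| ≤ R} ⊆
      ⋃ i ∈ Finset.Icc (-(R:ℤ)) R, {s | i ≤ ssum U w s ∧ ssum U w s < i + 1} := by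
    intro s hs
    have h2 : |ssum U w s| ≤ R := hs
    rw [abs_le] at h2
    simp only [Set.mem_iUnion, Set.mem_ofPred_eq]
    exact ⟨ssum U w s, Finset.mem_Icc.2 h2, le_refl _, by linarith⟩
  refine le_trans (measure_mono h1) (le_trans (measure_biUnion_finset_le _ _) ?_)
  refine le_trans (Finset.sum_le_sum fun i _ => erdos_prob U U (le_refl _) w 1 one_pos
    (fun j _ => by have := hw j; linarith) i) ?_
  rw [Finset.sum_const, nsmul_eq_mul, Int.card_Icc]
  have h3 : ((R:ℤ) + 1 - -(R:ℤ)).toNat = 2 * R + 1 := by omega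
  rw [h3, ENNReal.ofReal_mul (by positivity)]
  apply le_of_eq
  congr 1
  rw [← ENNReal.ofReal_natCast]
  congr 1
  push_cast; ring

/-- large window -/
theorem large_prob (U J : Finset ℕ) (hJ : J ⊆ U) (w : ℕ → ℤ) (Lk : ℕ) (hL : 1 ≤ Lk)
    (hw : ∀ j ∈ J, (Lk : ℤ) ≤ 2 * w j) (R : ℕ) :
    sg {s | |ssum U w s| ≤ Lk + R} ≤ ENNReal.ofReal ((2 * R + 3) * (1 / Real.sqrt (J.card + 1))) := by
  have hL' : (1:ℤ) ≤ Lk := by exact_mod_cast hL
  have h1 : {s : ℕ → Bool | |ssum U w s| ≤ Lk + R} ⊆
      ⋃ i ∈ Finset.range (2 * R + 3), {s | (-(Lk:ℤ) - R + i * Lk) ≤ ssum U w s ∧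
        ssum U w s < (-(Lk:ℤ) - R + i * Lk) + Lk} := by
    intro s hs
    have h2 : |ssum U w s| ≤ Lk + R := hs
    rw [abs_le] at h2
    simp only [Set.mem_iUnion, Set.mem_ofPred_eq]
    set v := ssum U w s + Lk + R with hv
    have hv0 : 0 ≤ v := by linarith
    have hv1 : v ≤ 2 * Lk + 2 * R := by linarith
    refine ⟨(v / Lk).toNat, ?_, ?_, ?_⟩
    · rw [Finset.mem_range]
      have h3 : v / Lk < 2 * R + 3 := by
        apply Int.ediv_lt_of_lt_mul (by linarith)
        nlinarith
      omega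
    · have h3 : ((v / Lk).toNat : ℤ) = v / Lk := Int.toNat_of_nonneg (Int.ediv_nonneg hv0 (by linarith))
      rw [h3]
      have h4 := Int.ediv_mul_le v (show (Lk:ℤ) ≠ 0 by linarith)
      linarith
    · have h3 : ((v / Lk).toNat : ℤ) = v / Lk := Int.toNat_of_nonneg (Int.ediv_nonneg hv0 (by linarith))
      rw [h3]
      have h4 := Int.lt_ediv_add_one_mul_self v (show (0:ℤ) < Lk by linarith)
      linarith
  refine le_trans (measure_mono h1) (le_trans (measure_biUnion_finset_le _ _) ?_)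
  refine le_trans (Finset.sum_le_sum fun i _ => erdos_prob U J hJ w Lk (by linarith) hw _) ?_
  rw [Finset.sum_const, nsmul_eq_mul, Finset.card_range]
  rw [ENNReal.ofReal_mul (by positivity)]
  apply le_of_eq
  congr 1
  rw [← ENNReal.ofReal_natCast]
  congr 1
  push_cast; ring

/-! ### the axes -/

section axes

variable (d : ℕ) [NeZero d]

noncomputable def uF : Measure (Fin d) := (PMF.uniformOfFintype (Fin d)).toMeasure

instance : IsProbabilityMeasure (uF d) := by unfold uF; infer_instance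

theorem uF_singleton (b : Fin d) : uF d {b} = 1 / d := by
  unfold uF
  rw [PMF.toMeasure_uniformOfFintype_apply _ (Set.toFinite _).measurableSet]
  simp

noncomputable def ax : Measure (ℕ → Fin d) := Measure.infinitePi (fun _ => uF d)

instance : IsProbabilityMeasure (ax d) := by unfold ax; infer_instance

theorem unif_prod : unif d = (uF d).prod uB := by
  apply Measure.ext_of_singleton
  rintro ⟨a, b⟩
  have h : ({(a, b)} : Set (Fin d × Bool)) = {a} ×ˢ {b} := by simp
  rw [h, Measure.prod_prod, uF_singleton, uB_singleton, ← h]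
  unfold unif
  rw [PMF.toMeasure_uniformOfFintype_apply _ (Set.toFinite _).measurableSet]
  simp only [Fintype.card_unique, Fintype.card_prod, Fintype.card_fin, Fintype.card_bool]
  push_cast
  rw [one_div, one_div, one_div, ENNReal.mul_inv (Or.inr (by norm_num)) (Or.inr (by norm_num))]

/-- the law of the directions of the blocks -/
noncomputable def dirs : Measure (ℕ → Dir d) := Measure.infinitePi (fun _ => unif d)

instance : IsProbabilityMeasure (dirs d) := by unfold dirs; infer_instance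

theorem dirs_zip : dirs d = ((ax d).prod sg).map (zipf (X := fun _ => Fin d) (Y := fun _ => Bool)) := by
  unfold ax sg
  rw [infinitePi_zip]
  unfold dirs
  congr 1
  funext n
  exact unif_prod d

/-- number of indices in `I` with axis `b` -/
def cnt {d : ℕ} (I : Finset ℕ) (b : Fin d) (A : ℕ → Fin d) : ℕ := (I.filter fun j => A j = b).card

omit [NeZero d] in
theorem meas_cnt (I : Finset ℕ) (b : Fin d) : Measurable (cnt I b) := by
  unfold cnt
  have h : (fun A : ℕ → Fin d => (I.filter fun j => A j = b).card) =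
      fun A : ℕ → Fin d => ∑ j ∈ I, if A j = b then 1 else 0 := by
    funext A; rw [Finset.card_filter]
  rw [h]
  apply Finset.measurable_sum
  intro j _
  exact (measurable_of_finite (fun a : Fin d => if a = b then (1:ℕ) else 0)).comp (measurable_pi_apply j)

theorem lint_cnt (I : Finset ℕ) (b : Fin d) :
    ∫⁻ A, (1 / 2 : ENNReal) ^ (cnt I b A) ∂(ax d) = ENNReal.ofReal ((1 - 1 / (2 * d)) ^ I.card) := by
  let g : Fin d → ENNReal := fun a => if a = b then 1 / 2 else 1
  have h1 : ∀ A : ℕ → Fin d, (1 / 2 : ENNReal) ^ (cnt I b A) = ∏ j ∈ I, g (A j) := by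
    intro A
    simp only [g, cnt]
    rw [Finset.prod_ite, Finset.prod_const, Finset.prod_const_one, mul_one]
  simp only [h1]
  have h2 := lintegral_prod_eq_prod_lintegral_of_indepFun (μ := ax d) I
    (fun i (x : ℕ → Fin d) => g (x i))
    (iIndepFun_infinitePi (P := fun _ : ℕ => uF d) (X := fun _ (z : Fin d) => g z)
      (fun i => measurable_of_finite _))
    (fun i => (measurable_of_finite g).comp (measurable_pi_apply i))
  have h3 : ∫⁻ x, ∏ i ∈ I, g (x i) ∂(ax d) = ∏ i ∈ I, ∫⁻ x, g (x i) ∂(ax d) := by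
    simpa [Finset.prod_apply] using h2
  rw [h3]
  have h4 : ∀ i, ∫⁻ x, g (x i) ∂(ax d) = ENNReal.ofReal (1 - 1 / (2 * d)) := by
    intro i
    have h5 := measurePreserving_eval_infinitePi (fun _ : ℕ => uF d) i
    have h6 : ∫⁻ x, g (x i) ∂(ax d) = ∫⁻ a, g a ∂(uF d) := h5.lintegral_comp (measurable_of_finite g)
    rw [h6, lintegral_fintype]
    simp only [uF_singleton]
    have hd : (0:ℝ) < d := by exact_mod_cast Nat.pos_of_ne_zero (NeZero.ne d)
    have h7 : ∑ x : Fin d, g x * (1 / (d:ENNReal)) = (1 / 2 + ((d - 1 : ℕ) : ENNReal)) * (1 / (d:ENNReal)) := by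
      rw [← Finset.sum_mul]
      congr 1
      simp only [g]
      rw [Finset.sum_ite, Finset.sum_const, Finset.sum_const]
      have e1 : (Finset.univ.filter fun x : Fin d => x = b).card = 1 := by
        rw [Finset.card_eq_one]; exact ⟨b, by ext x; simp⟩
      have e2 : (Finset.univ.filter fun x : Fin d => ¬ x = b).card = d - 1 := by
        have := Finset.card_filter_add_card_filter_not (s := (Finset.univ : Finset (Fin d))) (fun x => x = b)
        rw [e1, Finset.card_univ, Fintype.card_fin] at this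
        omega
      rw [e1, e2]
      simp
    rw [h7]
    have hd1 : 1 ≤ d := Nat.pos_of_ne_zero (NeZero.ne d)
    rw [← ENNReal.toReal_eq_toReal_iff' (by finiteness) (by finiteness)]
    · rw [ENNReal.toReal_mul, ENNReal.toReal_add (by finiteness) (by finiteness),
        ENNReal.toReal_ofReal (by
          rw [sub_nonneg, div_le_one (by positivity)]
          have : (1:ℝ) ≤ d := by exact_mod_cast hd1
          linarith)]
      simp only [ENNReal.toReal_div, ENNReal.toReal_one, ENNReal.toReal_natCast, ENNReal.toReal_ofNat]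
      rw [Nat.cast_sub hd1]
      push_cast
      field_simp
      ring
  rw [Finset.prod_congr rfl fun i _ => h4 i, Finset.prod_const, ENNReal.ofReal_pow]
  rw [sub_nonneg, div_le_one (by have : 0 < d := Nat.pos_of_ne_zero (NeZero.ne d); positivity)]
  have : (1:ℝ) ≤ d := by exact_mod_cast Nat.pos_of_ne_zero (NeZero.ne d)
  linarith

/-- exponential lower tail -/
theorem tail_cnt (I : Finset ℕ) (b : Fin d) :
    ax d {A | cnt I b A * (4 * d) ≤ I.card} ≤ ENNReal.ofReal (Real.exp (-(I.card / (4 * d)))) := by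
  have hd1 : 1 ≤ d := Nat.pos_of_ne_zero (NeZero.ne d)
  have hd : (1:ℝ) ≤ d := by exact_mod_cast hd1
  set n := I.card with hn
  let m := n / (4 * d)
  have h1 : {A : ℕ → Fin d | cnt I b A * (4 * d) ≤ n} ⊆
      {A | (1 / 2 : ENNReal) ^ m ≤ (1 / 2 : ENNReal) ^ (cnt I b A)} := by
    intro A hA
    have h2 : cnt I b A ≤ m := (Nat.le_div_iff_mul_le (by omega)).2 hA
    show (1 / 2 : ENNReal) ^ m ≤ (1 / 2 : ENNReal) ^ (cnt I b A)
    apply pow_le_pow_of_le_one (by simp) _ h2
    rw [one_div]; exact ENNReal.inv_le_one.2 (by norm_num)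
  have hmeas : Measurable fun A : ℕ → Fin d => (1 / 2 : ENNReal) ^ (cnt I b A) :=
    (measurable_of_countable (fun n : ℕ => (1 / 2 : ENNReal) ^ n)).comp (meas_cnt d I b)
  have h2 := mul_meas_ge_le_lintegral (μ := ax d) hmeas ((1 / 2 : ENNReal) ^ m)
  rw [lint_cnt] at h2
  have h3 : ax d {A | (1 / 2 : ENNReal) ^ m ≤ (1 / 2 : ENNReal) ^ (cnt I b A)} ≤
      ENNReal.ofReal (2 ^ m * (1 - 1 / (2 * d)) ^ n) := by
    have h4 : (2:ENNReal) ^ m * (1 / 2) ^ m = 1 := by
      rw [← mul_pow, one_div, ENNReal.mul_inv_cancel (by norm_num) (by norm_num), one_pow]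
    calc ax d {A | (1 / 2 : ENNReal) ^ m ≤ (1 / 2 : ENNReal) ^ (cnt I b A)}
        = 2 ^ m * ((1 / 2) ^ m * ax d {A | (1 / 2 : ENNReal) ^ m ≤ (1 / 2 : ENNReal) ^ (cnt I b A)}) := by
          rw [← mul_assoc, h4, one_mul]
      _ ≤ 2 ^ m * ENNReal.ofReal ((1 - 1 / (2 * d)) ^ n) := by gcongr
      _ = ENNReal.ofReal (2 ^ m * (1 - 1 / (2 * d)) ^ n) := by
          rw [ENNReal.ofReal_mul (by positivity), ENNReal.ofReal_pow (show (0:ℝ) ≤ 2 by norm_num)]
          simp
  refine le_trans (measure_mono h1) (le_trans h3 (ENNReal.ofReal_le_ofReal ?_))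
  have h5 : (2:ℝ) ^ m ≤ Real.exp (n / (4 * d)) := by
    have h6 : (m : ℝ) ≤ n / (4 * d) := by
      have := @Nat.cast_div_le ℝ _ _ _ n (4 * d)
      push_cast at this
      exact this
    calc (2:ℝ) ^ m ≤ (Real.exp 1) ^ m := by
          apply pow_le_pow_left₀ (by norm_num)
          have := Real.add_one_le_exp 1
          linarith
      _ = Real.exp m := by rw [← Real.exp_nat_mul]; simp
      _ ≤ Real.exp (n / (4 * d)) := Real.exp_le_exp.2 h6
  have h7 : (1 - 1 / (2 * (d:ℝ))) ^ n ≤ Real.exp (-(n / (2 * d))) := by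
    have h8 : 1 - 1 / (2 * (d:ℝ)) ≤ Real.exp (-(1 / (2 * d))) := by
      have := Real.add_one_le_exp (-(1 / (2 * (d:ℝ))))
      linarith
    have h9 : 0 ≤ 1 - 1 / (2 * (d:ℝ)) := by
      rw [sub_nonneg, div_le_one (by positivity)]; linarith
    calc (1 - 1 / (2 * (d:ℝ))) ^ n ≤ (Real.exp (-(1 / (2 * d)))) ^ n := pow_le_pow_left₀ h9 h8 n
      _ = Real.exp (-(n / (2 * d))) := by
          rw [← Real.exp_nat_mul]; congr 1; field_simp
  calc (2:ℝ) ^ m * (1 - 1 / (2 * d)) ^ n ≤ Real.exp (n / (4 * d)) * Real.exp (-(n / (2 * d))) := by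
        apply mul_le_mul h5 h7 _ (Real.exp_pos _).le
        apply pow_nonneg
        rw [sub_nonneg, div_le_one (by positivity)]; linarith
    _ = Real.exp (-(n / (4 * d))) := by
        rw [← Real.exp_add]; congr 1; field_simp; ring

end axes

end R975.CW
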