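import Pool.Agent.R975.CW.Sum

set_option autoImplicit false

/-!
Reduction of the conservative walk to deterministic block lengths, and `d ≥ 3`.
-/

namespace R975.CW

open MeasureTheory ProbabilityTheory Filter Finset

variable {d : ℕ}

/-- walk driven by coins `c` and directions `u` -/
def zz (c : ℕ → Bool) (u : ℕ → Dir d) : ℕ → Bool × Dir d :=
  zipf (X := fun _ => Bool) (Y := fun _ => Dir d) (c, u)

noncomputable def coins (p : ℕ → unitInterval) : Measure (ℕ → Bool) :=
  Measure.infinitePi (fun n => coin (p n))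

instance (p : ℕ → unitInterval) : IsProbabilityMeasure (coins p) := by unfold coins; infer_instance

theorem crw_zip [NeZero d] (p : ℕ → unitInterval) :
    crw d p = ((coins p).prod (dirs d)).map (zipf (X := fun _ => Bool) (Y := fun _ => Dir d)) := by
  unfold coins dirs
  rw [infinitePi_zip]
  rfl

/-- the norm tends to infinity -/
def Esc (ω : ℕ → Bool × Dir d) : Prop :=
  Tendsto (fun n => Real.sqrt (∑ i, (S ω n i : ℝ) ^ 2)) atTop atTop

theorem meas_Esc [NeZero d] : MeasurableSet {ω : ℕ → Bool × Dir d | Esc ω} := by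
  have h : {ω : ℕ → Bool × Dir d | Esc ω} = ⋂ K : ℕ, ⋃ N : ℕ, ⋂ n : ℕ,
      {ω | N ≤ n → (K : ℝ) ≤ Real.sqrt (∑ i, (S ω n i : ℝ) ^ 2)} := by
    ext ω
    simp only [Set.mem_ofPred_eq, Set.mem_iInter, Set.mem_iUnion]
    constructor
    · intro h K
      obtain ⟨N, hN⟩ := eventually_atTop.1 (tendsto_atTop.1 h (K : ℝ))
      exact ⟨N, fun n hn => hN n hn⟩
    · intro h
      apply tendsto_atTop.2
      intro C
      obtain ⟨K, hK⟩ := exists_nat_ge C
      obtain ⟨N, hN⟩ := h K
      exact eventually_atTop.2 ⟨N, fun n hn => le_trans hK (hN n hn)⟩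
  rw [h]
  refine MeasurableSet.iInter fun K => MeasurableSet.iUnion fun N => MeasurableSet.iInter fun n => ?_
  have h2 : Pre n {ω : ℕ → Bool × Dir d | N ≤ n → (K : ℝ) ≤ Real.sqrt (∑ i, (S ω n i : ℝ) ^ 2)} :=
    pre_S n {x | N ≤ n → (K : ℝ) ≤ Real.sqrt (∑ i, (x i : ℝ) ^ 2)}
  exact h2.measurable

theorem strong_iff [NeZero d] (p : ℕ → unitInterval) :
    StronglyTransient d p ↔ ∀ᵐ c ∂(coins p), ∀ᵐ u ∂(dirs d), Esc (zz c u) := by
  show (∀ᵐ ω ∂(crw d p), Esc ω) ↔ _
  rw [crw_zip, ae_map_iff measurable_zipf.aemeasurable meas_Esc]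
  exact Measure.ae_prod_iff_ae_ae (p := fun z : (ℕ → Bool) × (ℕ → Dir d) =>
    Esc (zipf (X := fun _ => Bool) (Y := fun _ => Dir d) z)) (measurable_zipf meas_Esc)

/-- a straight run -/
theorem S_run' {ω : ℕ → Bool × Dir d} {s ℓ : ℕ} (hs : Y ω s = (ω s).2)
    (h : ∀ t, s < t → t < s + ℓ → (ω t).1 = false) (t : ℕ) (ht : t ≤ ℓ) :
    S ω (s + t) = S ω s + (t : ℤ) • stepVec (ω s).2 := by
  have hY : ∀ t, t < ℓ → Y ω (s + t) = (ω s).2 := by
    intro t ht
    induction t with
    | zero => exact hs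
    | succ t ih =>
      rw [← add_assoc, Y_keep (h (s + t + 1) (by omega) (by omega))]
      exact ih (by omega)
  induction t with
  | zero => simp
  | succ t ih =>
    rw [← add_assoc, S_succ, ih (by omega), hY t (by omega)]
    push_cast
    rw [add_smul, one_smul, add_assoc]

theorem abs_le_norm (x : Fin d → ℤ) (i : Fin d) : |(x i : ℝ)| ≤ Real.sqrt (∑ i, (x i : ℝ) ^ 2) := by
  rw [← Real.sqrt_sq_eq_abs]
  apply Real.sqrt_le_sqrt
  exact Finset.single_le_sum (f := fun i => (x i : ℝ) ^ 2) (fun i _ => sq_nonneg _) (Finset.mem_univ i)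

/-- finitely many refresh times -/
theorem esc_of_finite (c : ℕ → Bool) (u : ℕ → Dir d) (N : ℕ) (hN : ∀ n, N < n → c n = false) :
    Esc (zz c u) := by
  set ω := zz c u with hω
  set v := Y ω N with hv
  have hY : ∀ t, Y ω (N + t) = v := by
    intro t
    induction t with
    | zero => rfl
    | succ t ih =>
      rw [← add_assoc, Y_keep (by rw [hω]; exact hN (N + t + 1) (by omega))]
      exact ih
  have hS : ∀ t : ℕ, S ω (N + t) = S ω N + (t : ℤ) • stepVec v := by
    intro t
    induction t with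
    | zero => simp
    | succ t ih =>
      rw [← add_assoc, S_succ, ih, hY t]
      push_cast
      rw [add_smul, one_smul, add_assoc]
  apply tendsto_atTop.2
  intro C
  obtain ⟨K, hK⟩ := exists_nat_ge C
  refine eventually_atTop.2 ⟨N + (K + N), fun n hn => ?_⟩
  obtain ⟨t, rfl⟩ := Nat.exists_eq_add_of_le (show N ≤ n by omega)
  refine le_trans ?_ (abs_le_norm _ v.1)
  refine le_trans hK ?_
  rw [hS t]
  have h1 := S_abs ω N v.1
  have h2 : (K:ℤ) ≤ |(S ω N + (t : ℤ) • stepVec v) v.1| := by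
    simp only [Pi.add_apply, Pi.smul_apply, smul_eq_mul]
    have h3 : stepVec v v.1 = 1 ∨ stepVec v v.1 = -1 := by
      unfold stepVec; rw [Pi.single_eq_same]; split_ifs <;> simp
    have h4 : (K:ℤ) + N ≤ t := by exact_mod_cast (show K + N ≤ t by omega)
    rw [abs_le] at h1
    rcases h3 with h | h <;> rw [h] <;>
      rcases abs_cases (S ω N v.1 + (t:ℤ) * 1) with h' | h' <;>
      rcases abs_cases (S ω N v.1 + (t:ℤ) * (-1)) with h'' | h'' <;> linarith
  exact_mod_cast h2

section infinite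

variable (c : ℕ → Bool) (hI : ∀ N, ∃ n, N < n ∧ c n = true)

open Classical in
/-- the refresh times -/
noncomputable def tt : ℕ → ℕ
  | 0 => 0
  | k + 1 => Nat.find (hI (tt k))

theorem tt_lt (k : ℕ) : tt c hI k < tt c hI (k + 1) := by
  classical
  have := Nat.find_spec (hI (tt c hI k))
  have e : tt c hI (k + 1) = Nat.find (hI (tt c hI k)) := by rw [tt]
  rw [e]; exact this.1

theorem tt_true (k : ℕ) : c (tt c hI (k + 1)) = true := by
  classical
  have := Nat.find_spec (hI (tt c hI k))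
  have e : tt c hI (k + 1) = Nat.find (hI (tt c hI k)) := by rw [tt]
  rw [e]; exact this.2

theorem tt_false (k n : ℕ) (h1 : tt c hI k < n) (h2 : n < tt c hI (k + 1)) : c n = false := by
  classical
  have e : tt c hI (k + 1) = Nat.find (hI (tt c hI k)) := by rw [tt]
  rw [e] at h2
  have := Nat.find_min _ h2
  push Not at this
  have h3 := this h1
  simpa using h3

theorem tt_strict : StrictMono (tt c hI) := strictMono_nat_of_lt_succ (tt_lt c hI)

/-- the block lengths -/
noncomputable def LL (k : ℕ) : ℕ := tt c hI (k + 1) - tt c hI k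

theorem LL_pos (k : ℕ) : 1 ≤ LL c hI k := by
  unfold LL; have := tt_lt c hI k; omega

theorem tt_add (k : ℕ) : tt c hI (k + 1) = tt c hI k + LL c hI k := by
  unfold LL; have := tt_lt c hI k; omega

theorem Y_tt (u : ℕ → Dir d) (k : ℕ) : Y (zz c u) (tt c hI k) = (zz c u (tt c hI k)).2 := by
  cases k with
  | zero => simp [tt, Y]
  | succ k => exact Y_fresh (tt_true c hI k)

theorem S_in_block (u : ℕ → Dir d) (k t : ℕ) (ht : t ≤ LL c hI k) :
    S (zz c u) (tt c hI k + t) = S (zz c u) (tt c hI k) + (t : ℤ) • stepVec (u (tt c hI k)) := by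
  have := S_run' (ω := zz c u) (s := tt c hI k) (ℓ := LL c hI k) (Y_tt c hI u k) (by
    intro n h1 h2
    rw [← tt_add] at h2
    exact tt_false c hI k n h1 h2) t ht
  exact this

theorem S_tt (u : ℕ → Dir d) (k : ℕ) :
    S (zz c u) (tt c hI k) = XX (LL c hI) (fun j => u (tt c hI j)) k := by
  induction k with
  | zero => simp [tt, XX, S_zero]
  | succ k ih =>
    rw [tt_add, S_in_block c hI u k _ le_rfl, ih]
    unfold XX
    rw [Finset.sum_range_succ]

theorem block_exists (n : ℕ) : ∃ k, tt c hI k ≤ n ∧ n < tt c hI (k + 1) := by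
  classical
  have hex : ∃ k, n < tt c hI k :=
    ⟨n + 1, lt_of_lt_of_le (Nat.lt_succ_self n) ((tt_strict c hI).id_le (n + 1))⟩
  have hk := Nat.find_spec hex
  have hk0 : Nat.find hex ≠ 0 := by
    intro h0
    rw [h0] at hk
    exact absurd hk (by simp [tt])
  obtain ⟨i, hi⟩ := Nat.exists_eq_succ_of_ne_zero hk0
  refine ⟨i, ?_, by rw [hi] at hk; exact hk⟩
  by_contra hcon
  push Not at hcon
  have := Nat.find_min' hex hcon
  omega

theorem dirs_reindex [NeZero d] :
    (dirs d).map (fun u j => u (tt c hI j)) = dirs d :=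
  infinitePi_reindex (unif d) (tt c hI) (tt_strict c hI).injective

include hI in
theorem esc_of_infinite [NeZero d] (hd : 3 ≤ d) : ∀ᵐ u ∂(dirs d), Esc (zz c u) := by
  have h1 : ∀ R : ℕ, ∀ᵐ u ∂(dirs d), ∀ᶠ k in atTop, (fun j => u (tt c hI j)) ∉ Vis (LL c hI) R k := by
    intro R
    have h2 := ae_no_vis hd (LL c hI) (LL_pos c hI) R
    rw [← dirs_reindex c hI] at h2
    exact ae_of_ae_map (measurable_pi_lambda _ fun j => measurable_pi_apply _).aemeasurable h2
  filter_upwards [ae_all_iff.2 h1] with u hu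
  apply tendsto_atTop.2
  intro C
  obtain ⟨R, hR⟩ := exists_nat_ge C
  obtain ⟨K, hK⟩ := eventually_atTop.1 (hu R)
  refine eventually_atTop.2 ⟨tt c hI K, fun n hn => ?_⟩
  obtain ⟨k, h2, h3⟩ := block_exists c hI n
  have hKk : K ≤ k := by
    have : K < k + 1 := (tt_strict c hI).lt_iff_lt.1 (lt_of_le_of_lt hn h3)
    omega
  obtain ⟨t, rfl⟩ := Nat.exists_eq_add_of_le h2
  have ht : t ≤ LL c hI k := by rw [tt_add] at h3; omega
  have h4 := hK k hKk
  have h5 : ∃ i, (R:ℤ) < |XX (LL c hI) (fun j => u (tt c hI j)) k i + (t:ℤ) * stepVec (u (tt c hI k)) i| := by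
    by_contra hcon
    push Not at hcon
    exact h4 ⟨t, ht, hcon⟩
  obtain ⟨i, hi⟩ := h5
  refine le_trans ?_ (abs_le_norm _ i)
  refine le_trans hR ?_
  rw [S_in_block c hI u k t ht, S_tt c hI u k]
  simp only [Pi.add_apply, Pi.smul_apply, smul_eq_mul]
  have h6 : ((R:ℤ) : ℝ) ≤ |((XX (LL c hI) (fun j => u (tt c hI j)) k i +
      (t:ℤ) * stepVec (u (tt c hI k)) i : ℤ) : ℝ)| := by exact_mod_cast hi.le
  simpa using h6

end infinite

/-- in dimension `d ≥ 3` every conservative walk is strongly transient -/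
theorem strong_three [NeZero d] (hd : 3 ≤ d) (p : ℕ → unitInterval) : StronglyTransient d p := by
  rw [strong_iff]
  refine Eventually.of_forall fun c => ?_
  by_cases h : ∀ N, ∃ n, N < n ∧ c n = true
  · exact esc_of_infinite c h hd
  · push Not at h
    obtain ⟨N, hN⟩ := h
    refine Eventually.of_forall fun u => esc_of_finite c u N fun n hn => ?_
    simpa using hN n hn

theorem mono_three [NeZero d] (hd : 3 ≤ d) : Mono d := fun _ p' _ _ => strong_three hd p'

end R975.CW
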