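import Mathlib

set_option autoImplicit false

/-!
Operators for the conservative walk in the plane with a deterministic sequence of block lengths.
-/

namespace R975.CW

open Classical

abbrev Pt := ℤ × ℤ

/-- average over the four unit vectors -/
noncomputable def avg4 (F : Pt → ℝ) : ℝ :=
  (F (1, 0) + F (-1, 0) + F (0, 1) + F (0, -1)) / 4

/-- `x` moved by `ℓ` steps in direction `w` -/
def mv (x : Pt) (ℓ : ℕ) (w : Pt) : Pt := (x.1 + ℓ * w.1, x.2 + ℓ * w.2)

/-- the segment from `x`, of length `ℓ` in direction `w`, meets `T` (the starting point excluded) -/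
def seg (T : Set Pt) (x : Pt) (ℓ : ℕ) (w : Pt) : Prop :=
  ∃ t : ℕ, 1 ≤ t ∧ t ≤ ℓ ∧ mv x t w ∈ T

/-- probability that the path from `x` with block lengths `l` visits `T` -/
noncomputable def hit (T : Set Pt) : List ℕ → Pt → ℝ
  | [], _ => 0
  | ℓ :: l, x => avg4 fun w => if seg T x ℓ w then 1 else hit T l (mv x ℓ w)

/-- expectation of `f` at the end point of the path from `x` with block lengths `l` -/
noncomputable def av : List ℕ → (Pt → ℝ) → Pt → ℝ
  | [], f, x => f x
  | ℓ :: l, f, x => avg4 fun w => av l f (mv x ℓ w)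

/-- sup-norm ball condition -/
def inB (D : ℕ) (x : Pt) : Prop := |x.1| ≤ D ∧ |x.2| ≤ D

theorem avg4_mono {F G : Pt → ℝ}
    (h1 : F (1, 0) ≤ G (1, 0)) (h2 : F (-1, 0) ≤ G (-1, 0)) (h3 : F (0, 1) ≤ G (0, 1))
    (h4 : F (0, -1) ≤ G (0, -1)) : avg4 F ≤ avg4 G := by
  unfold avg4; linarith

theorem avg4_mono' {F G : Pt → ℝ} (h : ∀ w, F w ≤ G w) : avg4 F ≤ avg4 G :=
  avg4_mono (h _) (h _) (h _) (h _)

theorem avg4_const (c : ℝ) : avg4 (fun _ => c) = c := by unfold avg4; ring

theorem avg4_add (F G : Pt → ℝ) : avg4 (fun w => F w + G w) = avg4 F + avg4 G := by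
  unfold avg4; ring

theorem avg4_mul (c : ℝ) (F : Pt → ℝ) : avg4 (fun w => c * F w) = c * avg4 F := by
  unfold avg4; ring

/-- restricted monotonicity: only the unit vectors matter -/
theorem avg4_mono_unit {F G : Pt → ℝ}
    (h : ∀ w : Pt, |w.1| ≤ 1 → |w.2| ≤ 1 → F w ≤ G w) : avg4 F ≤ avg4 G :=
  avg4_mono (h _ (by simp) (by simp)) (h _ (by simp) (by simp)) (h _ (by simp) (by simp))
    (h _ (by simp) (by simp))

theorem hit_nonneg (T : Set Pt) (l : List ℕ) (x : Pt) : 0 ≤ hit T l x := by
  induction l generalizing x with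
  | nil => simp [hit]
  | cons ℓ l ih =>
    rw [hit, ← avg4_const 0]
    apply avg4_mono'
    intro w
    split_ifs
    · norm_num
    · exact ih _

theorem hit_le_one (T : Set Pt) (l : List ℕ) (x : Pt) : hit T l x ≤ 1 := by
  induction l generalizing x with
  | nil => simp [hit]
  | cons ℓ l ih =>
    rw [hit]
    refine le_trans (avg4_mono' (G := fun _ => 1) ?_) (le_of_eq (avg4_const 1))
    intro w
    split_ifs
    · norm_num
    · exact ih _

theorem av_const (l : List ℕ) (c : ℝ) (x : Pt) : av l (fun _ => c) x = c := by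
  induction l generalizing x with
  | nil => rfl
  | cons ℓ l ih => rw [av]; simp only [ih]; exact avg4_const c

theorem av_mono (l : List ℕ) {f g : Pt → ℝ} (h : ∀ x, f x ≤ g x) (x : Pt) :
    av l f x ≤ av l g x := by
  induction l generalizing x with
  | nil => exact h x
  | cons ℓ l ih => exact avg4_mono' fun w => ih _

theorem av_add (l : List ℕ) (f g : Pt → ℝ) (x : Pt) :
    av l (fun y => f y + g y) x = av l f x + av l g x := by
  induction l generalizing x with
  | nil => rfl
  | cons ℓ l ih => simp only [av, ih]; exact avg4_add _ _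

theorem av_mul (l : List ℕ) (c : ℝ) (f : Pt → ℝ) (x : Pt) :
    av l (fun y => c * f y) x = c * av l f x := by
  induction l generalizing x with
  | nil => rfl
  | cons ℓ l ih => simp only [av, ih]; exact avg4_mul _ _

theorem av_append (l₁ l₂ : List ℕ) (f : Pt → ℝ) (x : Pt) :
    av (l₁ ++ l₂) f x = av l₁ (av l₂ f) x := by
  induction l₁ generalizing x with
  | nil => rfl
  | cons ℓ l ih => simp only [List.cons_append, av, ih]

theorem inB_mv {D : ℕ} {x : Pt} (hx : inB D x) (ℓ : ℕ) {w : Pt} (h1 : |w.1| ≤ 1) (h2 : |w.2| ≤ 1) :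
    inB (D + ℓ) (mv x ℓ w) := by
  obtain ⟨hx1, hx2⟩ := hx
  constructor
  · calc |x.1 + ℓ * w.1| ≤ |x.1| + |(ℓ : ℤ) * w.1| := abs_add_le _ _
      _ ≤ D + ℓ * 1 := by
        rw [abs_mul, Nat.abs_cast]
        exact add_le_add hx1 (mul_le_mul_of_nonneg_left h1 (by positivity))
      _ = ((D + ℓ : ℕ) : ℤ) := by push_cast; ring
  · calc |x.2 + ℓ * w.2| ≤ |x.2| + |(ℓ : ℤ) * w.2| := abs_add_le _ _
      _ ≤ D + ℓ * 1 := by
        rw [abs_mul, Nat.abs_cast]
        exact add_le_add hx2 (mul_le_mul_of_nonneg_left h2 (by positivity))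
      _ = ((D + ℓ : ℕ) : ℤ) := by push_cast; ring

theorem av_mono_on (l : List ℕ) {f g : Pt → ℝ} {D : ℕ} {x : Pt} (hx : inB D x)
    (h : ∀ y, inB (D + l.sum) y → f y ≤ g y) : av l f x ≤ av l g x := by
  induction l generalizing x D with
  | nil => exact h x (by simpa using hx)
  | cons ℓ l ih =>
    apply avg4_mono_unit
    intro w h1 h2
    apply ih (inB_mv hx ℓ h1 h2)
    intro y hy
    apply h
    simpa [add_assoc] using hy

theorem hit_append_le (T : Set Pt) (l₁ l₂ : List ℕ) (x : Pt) :
    hit T (l₁ ++ l₂) x ≤ hit T l₁ x + av l₁ (hit T l₂) x := by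
  induction l₁ generalizing x with
  | nil => simp [hit, av]
  | cons ℓ l ih =>
    rw [List.cons_append, hit, hit, av, ← avg4_add]
    apply avg4_mono'
    intro w
    split_ifs
    · have h : 0 ≤ av l (hit T l₂) (mv x ℓ w) := by
        rw [← av_const l 0 (mv x ℓ w)]
        exact av_mono l (fun y => hit_nonneg T l₂ y) _
      linarith
    · exact ih _

theorem av_hit_le (T : Set Pt) (l₁ l₂ : List ℕ) (x : Pt) :
    av l₁ (hit T l₂) x ≤ hit T (l₁ ++ l₂) x := by
  induction l₁ generalizing x with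
  | nil => simp [av]
  | cons ℓ l ih =>
    rw [List.cons_append, hit, av]
    apply avg4_mono'
    intro w
    split_ifs
    · rw [← av_const l 1 (mv x ℓ w)]
      exact av_mono l (fun y => hit_le_one T l₂ y) _
    · exact ih _

theorem hit_le_append (T : Set Pt) (l₁ l₂ : List ℕ) (x : Pt) :
    hit T l₁ x ≤ hit T (l₁ ++ l₂) x := by
  induction l₁ generalizing x with
  | nil => simpa [hit] using hit_nonneg T l₂ x
  | cons ℓ l ih =>
    rw [List.cons_append, hit, hit]
    apply avg4_mono'
    intro w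
    split_ifs
    · exact le_refl _
    · exact ih _

/-- multiplicativity of the probabilities of missing `T` -/
theorem miss_append (T : Set Pt) (l₁ l₂ : List ℕ) {D : ℕ} {x : Pt} (hx : inB D x) {c : ℝ}
    (h : ∀ y, inB (D + l₁.sum) y → c ≤ hit T l₂ y) :
    1 - hit T (l₁ ++ l₂) x ≤ (1 - hit T l₁ x) * (1 - c) := by
  induction l₁ generalizing x D with
  | nil =>
    have := h x (by simpa using hx)
    simp only [List.nil_append, hit]
    linarith
  | cons ℓ l ih =>
    rw [List.cons_append, hit, hit]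
    have key : avg4 (fun w => (1 - c) * (1 - (if seg T x ℓ w then 1 else hit T l (mv x ℓ w)))) +
        avg4 (fun w => -1 * (1 - (if seg T x ℓ w then (1:ℝ) else hit T (l ++ l₂) (mv x ℓ w)))) ≥ 0 := by
      rw [← avg4_add, ge_iff_le, ← avg4_const 0]
      apply avg4_mono_unit
      intro w h1 h2
      split_ifs
      · simp
      · have := ih (inB_mv hx ℓ h1 h2) (fun y hy => h y (by simpa [add_assoc] using hy))
        nlinarith
    rw [avg4_mul, avg4_mul] at key
    have e1 : avg4 (fun w => 1 - (if seg T x ℓ w then 1 else hit T l (mv x ℓ w))) =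
        1 - avg4 (fun w => if seg T x ℓ w then 1 else hit T l (mv x ℓ w)) := by
      unfold avg4; ring
    have e2 : avg4 (fun w => 1 - (if seg T x ℓ w then (1:ℝ) else hit T (l ++ l₂) (mv x ℓ w))) =
        1 - avg4 (fun w => if seg T x ℓ w then (1:ℝ) else hit T (l ++ l₂) (mv x ℓ w)) := by
      unfold avg4; ring
    rw [e1, e2] at key
    linarith

end R975.CW
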