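import Pool.Agent.R975.CW.Axes

set_option autoImplicit false

/-!
Estimates for the walk with deterministic block lengths.
-/

namespace R975.CW

open MeasureTheory ProbabilityTheory Filter Finset

variable {d : ℕ}

theorem XX_coord (L : ℕ → ℕ) (A : ℕ → Fin d) (s : ℕ → Bool) (k : ℕ) (i : Fin d) :
    XX L (zipf (X := fun _ => Fin d) (Y := fun _ => Bool) (A, s)) k i =
      ssum ((range k).filter fun j => A j = i) (fun j => (L j : ℤ)) s := by
  unfold XX ssum
  rw [Finset.sum_apply, Finset.sum_filter]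
  apply Finset.sum_congr rfl
  intro j _
  simp only [Pi.smul_apply, smul_eq_mul, zipf, stepVec]
  by_cases h : A j = i
  · subst h
    simp only [Pi.single_eq_same, if_true, eps]
    ring
  · rw [if_neg h, Pi.single_eq_of_ne (Ne.symm h), mul_zero]

/-- two coordinates are small and the third is not larger than the next block -/
def Ev (L : ℕ → ℕ) (R k : ℕ) (a b₁ b₂ : Fin d) : Set (ℕ → Dir d) :=
  {D | |XX L D k b₁| ≤ R ∧ |XX L D k b₂| ≤ R ∧ |XX L D k a| ≤ L k + R}

theorem XX_congr (L : ℕ → ℕ) {D D' : ℕ → Dir d} {k : ℕ} (h : ∀ i < k, D i = D' i) :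
    XX L D k = XX L D' k := by
  unfold XX
  exact Finset.sum_congr rfl fun j hj => by rw [h j (Finset.mem_range.1 hj)]

theorem pre_XX (L : ℕ → ℕ) (k : ℕ) (P : (Fin d → ℤ) → Prop) : Pre k {D : ℕ → Dir d | P (XX L D k)} := by
  intro D D' h hD
  show P (XX L D' k)
  rw [← XX_congr L h]; exact hD

theorem meas_Ev [NeZero d] (L : ℕ → ℕ) (R k : ℕ) (a b₁ b₂ : Fin d) : MeasurableSet (Ev L R k a b₁ b₂) :=
  (pre_XX L k (fun x => |x b₁| ≤ R ∧ |x b₂| ≤ R ∧ |x a| ≤ L k + R)).measurable

/-- the indices of the blocks which are at least half as long as block `k` -/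
def big (L : ℕ → ℕ) (k : ℕ) : Finset ℕ := (range k).filter fun j => L k ≤ 2 * L j

theorem sg_Ev (L : ℕ → ℕ) (hL : ∀ k, 1 ≤ L k) (R k : ℕ) (a b₁ b₂ : Fin d) (h1 : a ≠ b₁) (h2 : a ≠ b₂)
    (h3 : b₁ ≠ b₂) (A : ℕ → Fin d) :
    sg {s | zipf (X := fun _ => Fin d) (Y := fun _ => Bool) (A, s) ∈ Ev L R k a b₁ b₂} ≤
      ENNReal.ofReal (((2 * R + 1) * (1 / Real.sqrt (cnt (range k) b₁ A + 1))) *
        (((2 * R + 1) * (1 / Real.sqrt (cnt (range k) b₂ A + 1))) *
        ((2 * R + 3) * (1 / Real.sqrt (cnt (big L k) a A + 1))))) := by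
  let U : Fin d → Finset ℕ := fun i => (range k).filter fun j => A j = i
  let w : ℕ → ℤ := fun j => (L j : ℤ)
  have hw : ∀ j, 1 ≤ w j := fun j => by simp only [w]; exact_mod_cast hL j
  have hdisj : ∀ i i', i ≠ i' → Disjoint (U i) (U i') := by
    intro i i' hne
    rw [Finset.disjoint_left]
    intro j hj hj'
    simp only [U, Finset.mem_filter] at hj hj'
    exact hne (hj.2.symm.trans hj'.2)
  have hset : {s | zipf (X := fun _ => Fin d) (Y := fun _ => Bool) (A, s) ∈ Ev L R k a b₁ b₂} =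
      {s | |ssum (U b₁) w s| ≤ R} ∩ ({s | |ssum (U b₂) w s| ≤ R} ∩ {s | |ssum (U a) w s| ≤ L k + R}) := by
    ext s
    simp only [Ev, Set.mem_ofPred_eq, XX_coord, Set.mem_inter_iff, U, w]
  rw [hset]
  have hE1 : Dep (U b₁) {s | |ssum (U b₁) w s| ≤ R} := dep_ssum _ _ (fun z => |z| ≤ R)
  have hE2 : Dep (U b₂) {s | |ssum (U b₂) w s| ≤ R} := dep_ssum _ _ (fun z => |z| ≤ R)
  have hE3 : Dep (U a) {s | |ssum (U a) w s| ≤ L k + R} := dep_ssum _ _ (fun z => |z| ≤ L k + R)
  rw [Dep.indep (by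
    rw [Finset.disjoint_union_right]
    exact ⟨hdisj _ _ h3, hdisj _ _ (Ne.symm h1)⟩) hE1 (hE2.inter hE3),
    Dep.indep (hdisj _ _ (Ne.symm h2)) hE2 hE3]
  have hsplit : ∀ x y z : ℝ, 0 ≤ x → 0 ≤ y → ENNReal.ofReal (x * (y * z)) =
      ENNReal.ofReal x * (ENNReal.ofReal y * ENNReal.ofReal z) := by
    intro x y z hx hy
    rw [ENNReal.ofReal_mul hx, ENNReal.ofReal_mul hy]
  rw [hsplit _ _ _ (by positivity) (by positivity)]
  have e1 := small_prob (U b₁) w hw R
  have e2 := small_prob (U b₂) w hw R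
  have e3 := large_prob (U a) ((big L k).filter fun j => A j = a) (by
    intro j hj
    simp only [big, Finset.mem_filter, U] at hj ⊢
    exact ⟨hj.1.1, hj.2⟩) w (L k) (hL k) (by
    intro j hj
    simp only [big, Finset.mem_filter] at hj
    simp only [w]
    exact_mod_cast hj.1.2) R
  exact mul_le_mul' e1 (mul_le_mul' e2 e3)

variable [NeZero d]

theorem dirs_apply {E : Set (ℕ → Dir d)} (hE : MeasurableSet E) :
    dirs d E = ∫⁻ A, sg {s | zipf (X := fun _ => Fin d) (Y := fun _ => Bool) (A, s) ∈ E} ∂(ax d) := by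
  rw [dirs_zip, Measure.map_apply measurable_zipf hE, Measure.prod_apply (measurable_zipf hE)]
  rfl

theorem sqrt_bound (d n N : ℕ) (hd : 1 ≤ d) (h : ¬ (N * (4 * d) ≤ n)) :
    1 / Real.sqrt (N + 1) ≤ Real.sqrt (4 * d / (n + 1)) := by
  have hd' : (1:ℝ) ≤ d := by exact_mod_cast hd
  have h1 : (n:ℝ) + 1 ≤ N * (4 * d) := by
    have : n + 1 ≤ N * (4 * d) := by omega
    exact_mod_cast this
  have h2 : 1 / Real.sqrt ((N:ℝ) + 1) = Real.sqrt (1 / (N + 1)) := by
    rw [Real.sqrt_div zero_le_one, Real.sqrt_one]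
  rw [h2]
  apply Real.sqrt_le_sqrt
  rw [div_le_div_iff₀ (by positivity) (by positivity)]
  nlinarith

/-- the main estimate -/
theorem prob_Ev (L : ℕ → ℕ) (hL : ∀ k, 1 ≤ L k) (R k : ℕ) (a b₁ b₂ : Fin d) (h1 : a ≠ b₁) (h2 : a ≠ b₂)
    (h3 : b₁ ≠ b₂) :
    dirs d (Ev L R k a b₁ b₂) ≤ ENNReal.ofReal (2 * Real.exp (-(k / (4 * d))) +
      2 * ((2 * R + 1) * (2 * R + 1) * (2 * R + 3) * (4 * d)) / (k + 1) *
        Real.sqrt (4 * d / ((big L k).card + 1))) := by
  have hd : 1 ≤ d := Nat.pos_of_ne_zero (NeZero.ne d)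
  have hd' : (1:ℝ) ≤ d := by exact_mod_cast hd
  set m := (big L k).card with hm
  set c : ℝ := (2 * R + 1) * (2 * R + 1) * (2 * R + 3) with hc
  have hc0 : 0 ≤ c := by positivity
  rw [dirs_apply (meas_Ev L R k a b₁ b₂)]
  let B₁ : Set (ℕ → Fin d) := {A | cnt (range k) b₁ A * (4 * d) ≤ (range k).card}
  let B₂ : Set (ℕ → Fin d) := {A | cnt (range k) b₂ A * (4 * d) ≤ (range k).card}
  let B₃ : Set (ℕ → Fin d) := {A | cnt (big L k) a A * (4 * d) ≤ (big L k).card}
  have hB₁ : MeasurableSet B₁ := (meas_cnt d (range k) b₁) (Set.to_countable {n | n * (4 * d) ≤ (range k).card}).measurableSet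
  have hB₂ : MeasurableSet B₂ := (meas_cnt d (range k) b₂) (Set.to_countable {n | n * (4 * d) ≤ (range k).card}).measurableSet
  have hB₃ : MeasurableSet B₃ := (meas_cnt d (big L k) a) (Set.to_countable {n | n * (4 * d) ≤ (big L k).card}).measurableSet
  set C : ℝ := c * (4 * d) / (k + 1) with hC
  have hC0 : 0 ≤ C := by positivity
  set q : ℝ := Real.sqrt (4 * d / (m + 1)) with hq
  have hpt : ∀ A : ℕ → Fin d, sg {s | zipf (X := fun _ => Fin d) (Y := fun _ => Bool) (A, s) ∈ Ev L R k a b₁ b₂} ≤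
      B₁.indicator 1 A + (B₂.indicator 1 A + (ENNReal.ofReal C * B₃.indicator 1 A + ENNReal.ofReal (C * q))) := by
    intro A
    by_cases hA1 : A ∈ B₁
    · rw [Set.indicator_of_mem hA1]
      exact le_trans prob_le_one (le_add_right (le_refl _))
    by_cases hA2 : A ∈ B₂
    · rw [Set.indicator_of_mem hA2]
      exact le_trans prob_le_one (le_add_left (le_add_right (le_refl _)))
    have e1 : 1 / Real.sqrt (cnt (range k) b₁ A + 1) ≤ Real.sqrt (4 * d / (k + 1)) := by
      apply sqrt_bound d k _ hd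
      intro h; apply hA1
      show cnt (range k) b₁ A * (4 * d) ≤ (range k).card
      rw [Finset.card_range]; exact h
    have e2 : 1 / Real.sqrt (cnt (range k) b₂ A + 1) ≤ Real.sqrt (4 * d / (k + 1)) := by
      apply sqrt_bound d k _ hd
      intro h; apply hA2
      show cnt (range k) b₂ A * (4 * d) ≤ (range k).card
      rw [Finset.card_range]; exact h
    have e12 : (2 * (R:ℝ) + 1) * (1 / Real.sqrt (cnt (range k) b₁ A + 1)) *
        ((2 * R + 1) * (1 / Real.sqrt (cnt (range k) b₂ A + 1))) ≤ (2 * R + 1) * (2 * R + 1) * (4 * d / (k + 1)) := by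
      calc (2 * (R:ℝ) + 1) * (1 / Real.sqrt (cnt (range k) b₁ A + 1)) *
          ((2 * R + 1) * (1 / Real.sqrt (cnt (range k) b₂ A + 1)))
          ≤ (2 * (R:ℝ) + 1) * Real.sqrt (4 * d / (k + 1)) * ((2 * R + 1) * Real.sqrt (4 * d / (k + 1))) := by
            gcongr
        _ = (2 * R + 1) * (2 * R + 1) * (Real.sqrt (4 * d / (k + 1)) * Real.sqrt (4 * d / (k + 1))) := by ring
        _ = _ := by rw [Real.mul_self_sqrt (by positivity)]
    have hbase := sg_Ev L hL R k a b₁ b₂ h1 h2 h3 A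
    refine le_trans hbase ?_
    refine le_trans ?_ (le_add_left (le_add_left (le_refl _)))
    by_cases hA3 : A ∈ B₃
    · rw [Set.indicator_of_mem hA3, Pi.one_apply, mul_one]
      refine le_trans ?_ (le_add_right (le_refl _))
      apply ENNReal.ofReal_le_ofReal
      have e3 : 1 / Real.sqrt (cnt (big L k) a A + 1) ≤ 1 := by
        rw [div_le_one (Real.sqrt_pos.2 (by positivity))]
        rw [Real.one_le_sqrt]
        have : (0:ℝ) ≤ cnt (big L k) a A := by positivity
        linarith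
      rw [← mul_assoc]
      calc (2 * (R:ℝ) + 1) * (1 / Real.sqrt (cnt (range k) b₁ A + 1)) *
          ((2 * R + 1) * (1 / Real.sqrt (cnt (range k) b₂ A + 1))) *
          ((2 * R + 3) * (1 / Real.sqrt (cnt (big L k) a A + 1)))
          ≤ ((2 * R + 1) * (2 * R + 1) * (4 * d / (k + 1))) * ((2 * R + 3) * 1) := by
            apply mul_le_mul e12 _ (by positivity) (by positivity)
            gcongr
        _ = C := by rw [hC, hc]; ring
    · have e3 : 1 / Real.sqrt (cnt (big L k) a A + 1) ≤ q := sqrt_bound d m _ hd hA3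
      refine le_trans ?_ (le_add_left (le_refl _))
      apply ENNReal.ofReal_le_ofReal
      rw [← mul_assoc]
      calc (2 * (R:ℝ) + 1) * (1 / Real.sqrt (cnt (range k) b₁ A + 1)) *
          ((2 * R + 1) * (1 / Real.sqrt (cnt (range k) b₂ A + 1))) *
          ((2 * R + 3) * (1 / Real.sqrt (cnt (big L k) a A + 1)))
          ≤ ((2 * R + 1) * (2 * R + 1) * (4 * d / (k + 1))) * ((2 * R + 3) * q) := by
            apply mul_le_mul e12 _ (by positivity) (by positivity)
            gcongr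
        _ = C * q := by rw [hC, hc]; ring
  have m1 : Measurable (B₁.indicator (1 : (ℕ → Fin d) → ENNReal)) := measurable_one.indicator hB₁
  have m2 : Measurable (B₂.indicator (1 : (ℕ → Fin d) → ENNReal)) := measurable_one.indicator hB₂
  have m3 : Measurable (B₃.indicator (1 : (ℕ → Fin d) → ENNReal)) := measurable_one.indicator hB₃
  refine le_trans (lintegral_mono hpt) ?_
  rw [lintegral_add_left m1, lintegral_add_left m2, lintegral_add_left (m3.const_mul _),
    lintegral_const_mul _ m3, lintegral_indicator_one hB₁, lintegral_indicator_one hB₂,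
    lintegral_indicator_one hB₃, lintegral_const, measure_univ, mul_one]
  have t1 := tail_cnt d (range k) b₁
  have t2 := tail_cnt d (range k) b₂
  have t3 := tail_cnt d (big L k) a
  rw [Finset.card_range] at t1 t2
  have hexp : Real.exp (-(m / (4 * d))) ≤ q := by
    rw [hq]
    apply Real.le_sqrt_of_sq_le
    rw [← Real.exp_nat_mul]
    have h5 : (2:ℕ) * (-((m:ℝ) / (4 * d))) = -(2 * m / (4 * d)) := by push_cast; ring
    rw [h5, Real.exp_neg]
    have h6 := Real.add_one_le_exp (2 * (m:ℝ) / (4 * d))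
    calc (Real.exp (2 * (m:ℝ) / (4 * d)))⁻¹ ≤ (2 * (m:ℝ) / (4 * d) + 1)⁻¹ :=
          inv_anti₀ (by positivity) h6
      _ ≤ 4 * d / (m + 1) := by
          rw [inv_eq_one_div, div_le_div_iff₀ (by positivity) (by positivity)]
          have : 4 * (d:ℝ) * (2 * m / (4 * d) + 1) = 2 * m + 4 * d := by field_simp
          rw [this]
          have hm0 : (0:ℝ) ≤ m := by positivity
          linarith
  have hfin : ENNReal.ofReal (Real.exp (-(k / (4 * d)))) + (ENNReal.ofReal (Real.exp (-(k / (4 * d)))) +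
      (ENNReal.ofReal C * ENNReal.ofReal q + ENNReal.ofReal (C * q))) =
      ENNReal.ofReal (2 * Real.exp (-(k / (4 * d))) + 2 * (c * (4 * d)) / (k + 1) * q) := by
    rw [← ENNReal.ofReal_mul hC0, ← ENNReal.ofReal_add (by positivity) (by positivity),
      ← ENNReal.ofReal_add (by positivity) (by positivity),
      ← ENNReal.ofReal_add (by positivity) (by positivity)]
    congr 1
    rw [hC]; ring
  rw [← hfin]
  have t3' : ax d B₃ ≤ ENNReal.ofReal q := le_trans t3 (ENNReal.ofReal_le_ofReal hexp)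
  have t1' : ax d B₁ ≤ ENNReal.ofReal (Real.exp (-(k / (4 * d)))) := by
    refine le_trans (le_of_eq ?_) t1
    simp only [B₁, Finset.card_range]
  have t2' : ax d B₂ ≤ ENNReal.ofReal (Real.exp (-(k / (4 * d)))) := by
    refine le_trans (le_of_eq ?_) t2
    simp only [B₂, Finset.card_range]
  gcongr

/-! ### lacunary lengths -/

/-- the doubled subset sums over `F` are separated -/
def Lac (L : ℕ → ℕ) (R : ℕ) (F : Finset ℕ) : Prop :=
  ∀ T T' : Finset ℕ, T ⊆ F → T' ⊆ F → T ≠ T' →
    2 * (R : ℤ) + 1 ≤ |2 * ∑ j ∈ T, (L j : ℤ) - 2 * ∑ j ∈ T', (L j : ℤ)|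

theorem prob_lac (L : ℕ → ℕ) (R k : ℕ) (F : Finset ℕ) (hF : F ⊆ range k) (hlac : Lac L R F) (b : Fin d) :
    dirs d {D | |XX L D k b| ≤ R} ≤ ENNReal.ofReal ((1 - 1 / (2 * d)) ^ F.card) := by
  rw [dirs_apply (pre_XX L k (fun x => |x b| ≤ R)).measurable, ← lint_cnt d F b]
  apply lintegral_mono
  intro A
  let U : Finset ℕ := (range k).filter fun j => A j = b
  let J : Finset ℕ := F.filter fun j => A j = b
  let w : ℕ → ℤ := fun j => (L j : ℤ)
  have hJ : J ⊆ U := by
    intro j hj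
    simp only [J, U, Finset.mem_filter] at hj ⊢
    exact ⟨hF hj.1, hj.2⟩
  have h1 := window_bound U J hJ w (2 * R + 1) 1 (by
    intro y
    rw [Finset.card_le_one]
    intro T hT T' hT'
    rw [Finset.mem_filter, Finset.mem_powerset] at hT hT'
    by_contra hne
    have h2 := hlac T T' (hT.1.trans (Finset.filter_subset _ _)) (hT'.1.trans (Finset.filter_subset _ _)) hne
    obtain ⟨_, h3, h4⟩ := hT
    obtain ⟨_, h5, h6⟩ := hT'
    simp only [w] at h3 h4 h5 h6
    rcases abs_cases (2 * ∑ j ∈ T, (L j : ℤ) - 2 * ∑ j ∈ T', (L j : ℤ)) with h | h <;> linarith) (-R)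
  simp only [Nat.cast_one, one_mul] at h1
  refine le_trans (measure_mono ?_) h1
  intro s hs
  have h2 : |XX L (zipf (X := fun _ => Fin d) (Y := fun _ => Bool) (A, s)) k b| ≤ R := hs
  rw [XX_coord, abs_le] at h2
  exact ⟨h2.1, by linarith [h2.2]⟩

/-- the dyadic class of a block -/
def cls (L : ℕ → ℕ) (j : ℕ) : ℕ := Nat.log 2 (L j)

theorem geo_le (n : ℕ) : ∑ h ∈ range n, 2 ^ (h + 2) ≤ 2 ^ (n + 2) := by
  induction n with
  | zero => simp
  | succ n ih =>
    rw [Finset.sum_range_succ]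
    calc _ ≤ 2 ^ (n + 2) + 2 ^ (n + 2) := by omega
      _ = 2 ^ (n + 1 + 2) := by ring

omit [NeZero d] in
theorem exists_lac (L : ℕ → ℕ) (hL : ∀ k, 1 ≤ L k) (R k : ℕ) :
    ∃ F : Finset ℕ, F ⊆ range k ∧ Lac L R F ∧
      ((range k).image (cls L)).card ≤ 3 * (F.card + (2 * R + 1)) := by
  classical
  set H := (range k).image (cls L) with hH
  -- a residue class
  obtain ⟨ρ, hρ⟩ : ∃ ρ, H.card ≤ 3 * (H.filter fun h => h % 3 = ρ).card := by
    by_contra hcon
    push Not at hcon
    have h0 := hcon 0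
    have h1 := hcon 1
    have h2 := hcon 2
    have h3 : H.card = (H.filter fun h => h % 3 = 0).card + (H.filter fun h => h % 3 = 1).card +
        (H.filter fun h => h % 3 = 2).card := by
      rw [← Finset.card_union_of_disjoint, ← Finset.card_union_of_disjoint]
      · congr 1
        ext h
        simp only [Finset.mem_union, Finset.mem_filter]
        have : h % 3 = 0 ∨ h % 3 = 1 ∨ h % 3 = 2 := by omega
        tauto
      · rw [Finset.disjoint_left]; intro h
        simp only [Finset.mem_union, Finset.mem_filter]; omega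
      · rw [Finset.disjoint_left]; intro h
        simp only [Finset.mem_filter]; omega
    omega
  set H₁ := (H.filter fun h => h % 3 = ρ) \ range (2 * R + 1) with hH₁
  have hcard : (H.filter fun h => h % 3 = ρ).card ≤ H₁.card + (2 * R + 1) := by
    have : (H.filter fun h => h % 3 = ρ).card - (range (2 * R + 1)).card ≤ H₁.card :=
      Finset.le_card_sdiff (range (2 * R + 1)) (H.filter fun h => h % 3 = ρ)
    rw [Finset.card_range] at this
    omega
  have hpick : ∀ h, ∃ j, h ∈ H → (j < k ∧ cls L j = h) := by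
    intro h
    by_cases hh : h ∈ H
    · rw [hH, Finset.mem_image] at hh
      obtain ⟨j, hj, hj'⟩ := hh
      exact ⟨j, fun _ => ⟨Finset.mem_range.1 hj, hj'⟩⟩
    · exact ⟨0, fun h' => absurd h' hh⟩
  choose g hg using hpick
  have hsub : H₁ ⊆ H := fun h hh => (Finset.mem_filter.1 (Finset.mem_sdiff.1 hh).1).1
  have hinj : Set.InjOn g H₁ := by
    intro x hx y hy he
    rw [← (hg x (hsub hx)).2, ← (hg y (hsub hy)).2, he]
  refine ⟨H₁.image g, ?_, ?_, ?_⟩
  · intro j hj
    rw [Finset.mem_image] at hj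
    obtain ⟨h, hh, rfl⟩ := hj
    exact Finset.mem_range.2 (hg h (hsub hh)).1
  · intro T T' hT hT' hne
    -- the elements of F
    have hF : ∀ j ∈ H₁.image g, cls L j ∈ H₁ ∧ g (cls L j) = j := by
      intro j hj
      rw [Finset.mem_image] at hj
      obtain ⟨h, hh, rfl⟩ := hj
      rw [(hg h (hsub hh)).2]
      exact ⟨hh, rfl⟩
    have hclsinj : ∀ i ∈ H₁.image g, ∀ j ∈ H₁.image g, cls L i = cls L j → i = j := by
      intro i hi j hj he
      rw [← (hF i hi).2, ← (hF j hj).2, he]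
    set Δ := (T \ T') ∪ (T' \ T) with hΔ
    have hΔF : Δ ⊆ H₁.image g := by
      intro j hj
      rw [hΔ, Finset.mem_union, Finset.mem_sdiff, Finset.mem_sdiff] at hj
      rcases hj with hj | hj
      · exact hT hj.1
      · exact hT' hj.1
    have hne' : Δ.Nonempty := by
      rw [Finset.nonempty_iff_ne_empty]
      intro h0
      apply hne
      rw [hΔ, Finset.union_eq_empty, Finset.sdiff_eq_empty_iff_subset, Finset.sdiff_eq_empty_iff_subset] at h0
      exact Finset.Subset.antisymm h0.1 h0.2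
    obtain ⟨j₀, hj₀, hmax⟩ := Finset.exists_max_image Δ (cls L) hne'
    have hL1 : ∀ j, 2 ^ cls L j ≤ L j := fun j => Nat.pow_log_le_self 2 (by have := hL j; omega)
    have hL2 : ∀ j, L j < 2 ^ (cls L j + 1) := fun j => Nat.lt_pow_succ_log_self (by norm_num) _
    have hrest : ∑ j ∈ Δ.erase j₀, 2 * L j ≤ 2 ^ cls L j₀ := by
      rcases (Δ.erase j₀).eq_empty_or_nonempty with he | hne2
      · rw [he]; simp
      · have hcl : ∀ j ∈ Δ.erase j₀, cls L j + 3 ≤ cls L j₀ := by
          intro j hj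
          rw [Finset.mem_erase] at hj
          have h1 := hmax j hj.2
          have h2 : cls L j ≠ cls L j₀ := fun he => hj.1 (hclsinj j (hΔF hj.2) j₀ (hΔF hj₀) he)
          have h3 := (hF j (hΔF hj.2)).1
          have h4 := (hF j₀ (hΔF hj₀)).1
          rw [hH₁, Finset.mem_sdiff, Finset.mem_filter] at h3 h4
          have h5 := h3.1.2
          have h6 := h4.1.2
          omega
        obtain ⟨j₁, hj₁⟩ := hne2
        have h3 := hcl j₁ hj₁
        calc ∑ j ∈ Δ.erase j₀, 2 * L j ≤ ∑ j ∈ Δ.erase j₀, 2 ^ (cls L j + 2) := by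
              apply Finset.sum_le_sum
              intro j _
              have := hL2 j
              rw [pow_succ] at this ⊢
              rw [pow_succ]
              omega
          _ = ∑ h ∈ (Δ.erase j₀).image (cls L), 2 ^ (h + 2) := by
              rw [Finset.sum_image]
              intro i hi j hj he
              exact hclsinj i (hΔF (Finset.mem_of_mem_erase hi)) j (hΔF (Finset.mem_of_mem_erase hj)) he
          _ ≤ ∑ h ∈ range (cls L j₀ - 2), 2 ^ (h + 2) := by
              apply Finset.sum_le_sum_of_subset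
              intro h hh
              rw [Finset.mem_image] at hh
              obtain ⟨j, hj, rfl⟩ := hh
              have := hcl j hj
              rw [Finset.mem_range]; omega
          _ ≤ 2 ^ (cls L j₀ - 2 + 2) := geo_le _
          _ = 2 ^ cls L j₀ := by congr 1; omega
    -- the difference of the sums
    have hdiff : ∑ j ∈ T, (L j : ℤ) - ∑ j ∈ T', (L j : ℤ) =
        ∑ j ∈ T \ T', (L j : ℤ) - ∑ j ∈ T' \ T, (L j : ℤ) := by
      rw [← Finset.sum_inter_add_sum_sdiff T T', ← Finset.sum_inter_add_sum_sdiff T' T, Finset.inter_comm T' T]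
      ring
    have hdisj : Disjoint (T \ T') (T' \ T) := by
      rw [Finset.disjoint_left]; intro j h1 h2
      exact (Finset.mem_sdiff.1 h1).2 (Finset.mem_sdiff.1 h2).1
    have htot : ∑ j ∈ T \ T', (L j : ℤ) + ∑ j ∈ T' \ T, (L j : ℤ) = L j₀ + ∑ j ∈ Δ.erase j₀, (L j : ℤ) := by
      rw [← Finset.sum_union hdisj, ← hΔ]
      exact (Finset.add_sum_erase Δ (fun j => (L j : ℤ)) hj₀).symm
    have hrest' : 2 * ∑ j ∈ Δ.erase j₀, (L j : ℤ) ≤ 2 ^ cls L j₀ := by
      rw [Finset.mul_sum]; exact_mod_cast hrest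
    have hnn1 : ∀ V : Finset ℕ, 0 ≤ ∑ j ∈ V, (L j : ℤ) := fun V => Finset.sum_nonneg fun j _ => by positivity
    have hbig : 2 * (R:ℤ) + 1 ≤ 2 ^ cls L j₀ := by
      have h4 := (hF j₀ (hΔF hj₀)).1
      rw [hH₁, Finset.mem_sdiff, Finset.mem_range] at h4
      have h5 : 2 * R + 1 ≤ cls L j₀ := by omega
      have h6 : cls L j₀ < 2 ^ cls L j₀ := Nat.lt_two_pow_self
      have h7 : 2 * R + 1 ≤ 2 ^ cls L j₀ := by omega
      exact_mod_cast h7
    have hj0L : (2:ℤ) ^ cls L j₀ ≤ L j₀ := by exact_mod_cast hL1 j₀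
    rw [hΔ, Finset.mem_union] at hj₀
    rcases hj₀ with h | h
    · -- j₀ in T \ T'
      have h8 : (L j₀ : ℤ) ≤ ∑ j ∈ T \ T', (L j : ℤ) :=
        Finset.single_le_sum (f := fun j => (L j : ℤ)) (fun j _ => by positivity) h
      refine le_trans ?_ (le_abs_self _)
      linarith
    · have h8 : (L j₀ : ℤ) ≤ ∑ j ∈ T' \ T, (L j : ℤ) :=
        Finset.single_le_sum (f := fun j => (L j : ℤ)) (fun j _ => by positivity) h
      refine le_trans ?_ (neg_le_abs _)
      linarith
  · rw [Finset.card_image_of_injOn hinj]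
    omega

end R975.CW
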