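import Pool.Agent.R975.CW.Blocks

set_option autoImplicit false

/-!
The conservative walk on the line.
-/

namespace R975.CW

open MeasureTheory ProbabilityTheory Filter Finset

/-- position after `k` blocks, on the line -/
def pos (L : ℕ → ℕ) (D : ℕ → Dir 1) (k : ℕ) : ℤ := XX L D k 0

theorem pos_eq (L : ℕ → ℕ) (D : ℕ → Dir 1) (k : ℕ) :
    pos L D k = ∑ j ∈ range k, (L j : ℤ) * eps (D j).2 := by
  unfold pos XX
  rw [Finset.sum_apply]
  apply Finset.sum_congr rfl
  intro j _
  simp only [Pi.smul_apply, smul_eq_mul, stepVec]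
  have : (D j).1 = 0 := Subsingleton.elim _ _
  rw [this, Pi.single_eq_same]
  rfl

def Aplus (L : ℕ → ℕ) : Set (ℕ → Dir 1) := {D | Tendsto (pos L D) atTop atTop}

def Aminus (L : ℕ → ℕ) : Set (ℕ → Dir 1) := {D | Tendsto (pos L D) atTop atBot}

/-- the tail `σ`-algebras -/
@[reducible] def sig (n : ℕ) : MeasurableSpace (ℕ → Dir 1) :=
  MeasurableSpace.comap (fun D : ℕ → Dir 1 => D n) inferInstance

theorem sig_le (n : ℕ) : sig n ≤ (inferInstance : MeasurableSpace (ℕ → Dir 1)) :=
  (measurable_pi_apply n).comap_le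

theorem meas_partial (L : ℕ → ℕ) (m n : ℕ) (K : ℤ) :
    MeasurableSet[⨆ i ≥ m, sig i] {D : ℕ → Dir 1 | K ≤ ∑ j ∈ Ico m n, (L j : ℤ) * eps (D j).2} := by
  have h1 : Measurable[⨆ i ≥ m, sig i] fun D : ℕ → Dir 1 => ∑ j ∈ Ico m n, (L j : ℤ) * eps (D j).2 := by
    refine Finset.measurable_sum (Ico m n) (fun j hj => ?_)
    have hj' : m ≤ j := (Finset.mem_Ico.1 hj).1
    have h2 : sig j ≤ ⨆ i ≥ m, sig i := le_iSup₂_of_le j hj' (le_refl _)
    have h3 : Measurable[sig j] fun D : ℕ → Dir 1 => (L j : ℤ) * eps (D j).2 :=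
      (measurable_of_finite (fun v : Dir 1 => (L j : ℤ) * eps v.2)).comp (comap_measurable _)
    exact h3.mono h2 (le_refl _)
  exact h1 measurableSet_Ici

theorem Aplus_eq (L : ℕ → ℕ) (m : ℕ) : Aplus L = ⋂ K : ℕ, ⋃ N : ℕ, ⋂ n : ℕ,
    {D | N ≤ n → ((K : ℤ) ≤ ∑ j ∈ Ico m n, (L j : ℤ) * eps (D j).2)} := by
  ext D
  have hsplit : ∀ n, m ≤ n → pos L D n = pos L D m + ∑ j ∈ Ico m n, (L j : ℤ) * eps (D j).2 := by
    intro n hn
    rw [pos_eq, pos_eq, Finset.range_eq_Ico, Finset.range_eq_Ico,
      Finset.sum_Ico_consecutive _ (Nat.zero_le m) hn]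
  simp only [Aplus, Set.mem_ofPred_eq, Set.mem_iInter, Set.mem_iUnion]
  constructor
  · intro h K
    obtain ⟨N, hN⟩ := eventually_atTop.1 (tendsto_atTop.1 h ((K : ℤ) + pos L D m))
    refine ⟨max N m, fun n hn => ?_⟩
    have h1 := hN n (le_trans (le_max_left _ _) hn)
    rw [hsplit n (le_trans (le_max_right _ _) hn)] at h1
    linarith
  · intro h
    apply tendsto_atTop.2
    intro C
    obtain ⟨N, hN⟩ := h (C - pos L D m).toNat
    refine eventually_atTop.2 ⟨max N m, fun n hn => ?_⟩
    have h1 := hN n (le_trans (le_max_left _ _) hn)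
    rw [hsplit n (le_trans (le_max_right _ _) hn)]
    have h2 : C - pos L D m ≤ ((C - pos L D m).toNat : ℤ) := Int.self_le_toNat _
    linarith

theorem Aplus_tail (L : ℕ → ℕ) : MeasurableSet[limsup sig atTop] (Aplus L) := by
  rw [limsup_eq_iInf_iSup_of_nat, MeasurableSpace.measurableSet_iInf]
  intro m
  rw [Aplus_eq L m]
  refine @MeasurableSet.iInter _ _ (_) _ _ fun K => ?_
  refine @MeasurableSet.iUnion _ _ (_) _ _ fun N => ?_
  refine @MeasurableSet.iInter _ _ (_) _ _ fun n => ?_
  by_cases hn : N ≤ n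
  · have h1 := meas_partial L m n K
    have h2 : {D : ℕ → Dir 1 | N ≤ n → ((K : ℤ) ≤ ∑ j ∈ Ico m n, (L j : ℤ) * eps (D j).2)} =
        {D : ℕ → Dir 1 | (K : ℤ) ≤ ∑ j ∈ Ico m n, (L j : ℤ) * eps (D j).2} := by
      ext D; simp [hn]
    rw [h2]; exact h1
  · have h2 : {D : ℕ → Dir 1 | N ≤ n → ((K : ℤ) ≤ ∑ j ∈ Ico m n, (L j : ℤ) * eps (D j).2)} = Set.univ := by
      ext D; simp [hn]
    rw [h2]; exact @MeasurableSet.univ _ (_)

theorem Aplus_meas (L : ℕ → ℕ) : MeasurableSet (Aplus L) := by
  have h := Aplus_tail L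
  have h2 : limsup sig atTop ≤ (inferInstance : MeasurableSpace (ℕ → Dir 1)) := by
    rw [limsup_eq_iInf_iSup_of_nat]
    exact iInf_le_of_le 0 (iSup₂_le fun i _ => sig_le i)
  exact h2 _ h

theorem Aplus_zero_one (L : ℕ → ℕ) : dirs 1 (Aplus L) = 0 ∨ dirs 1 (Aplus L) = 1 := by
  have hi : iIndepFun (fun (i : ℕ) (D : ℕ → Dir 1) => D i) (dirs 1) :=
    iIndepFun_infinitePi (P := fun _ : ℕ => unif 1) (X := fun _ x => x) (fun i => measurable_id)
  have hi2 : iIndep sig (dirs 1) := hi
  exact measure_zero_or_one_of_measurableSet_limsup_atTop sig_le hi2 (Aplus_tail L)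

def flip (u : Dir 1) : Dir 1 := (u.1, !u.2)

theorem unif1_singleton (u : Dir 1) : unif 1 {u} = 1 / 2 := by
  unfold unif
  rw [PMF.toMeasure_uniformOfFintype_apply _ (Set.toFinite _).measurableSet]
  simp

theorem flip_map : (unif 1).map flip = unif 1 := by
  apply Measure.ext_of_singleton
  intro u
  rw [Measure.map_apply (measurable_of_finite flip) (measurableSet_singleton u), unif1_singleton]
  have h : flip ⁻¹' {u} = {flip u} := by
    ext v
    simp only [Set.mem_preimage, Set.mem_singleton_iff, flip]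
    rcases u with ⟨i, b⟩
    rcases v with ⟨i', b'⟩
    simp only [Prod.mk.injEq]
    cases b <;> cases b' <;> simp
  rw [h, unif1_singleton]

theorem dirs_flip : (dirs 1).map (fun D j => flip (D j)) = dirs 1 := by
  have h := Measure.infinitePi_map_pi (μ := fun _ : ℕ => unif 1) (f := fun _ => flip)
    (fun _ => measurable_of_finite flip)
  unfold dirs
  rw [h]
  simp only [flip_map]

theorem pos_flip (L : ℕ → ℕ) (D : ℕ → Dir 1) (k : ℕ) : pos L (fun j => flip (D j)) k = - pos L D k := by
  rw [pos_eq, pos_eq, ← Finset.sum_neg_distrib]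
  apply Finset.sum_congr rfl
  intro j _
  unfold flip eps
  cases (D j).2 <;> simp

theorem Aminus_eq (L : ℕ → ℕ) : Aminus L = (fun D j => flip (D j)) ⁻¹' Aplus L := by
  ext D
  simp only [Aminus, Aplus, Set.mem_ofPred_eq, Set.mem_preimage]
  have : (pos L fun j => flip (D j)) = fun k => - pos L D k := funext fun k => pos_flip L D k
  rw [this, tendsto_neg_atTop_iff]

theorem dirs_Aminus (L : ℕ → ℕ) : dirs 1 (Aminus L) = dirs 1 (Aplus L) := by
  rw [Aminus_eq]
  have h : Measurable fun (D : ℕ → Dir 1) (j : ℕ) => flip (D j) :=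
    measurable_pi_lambda _ fun j => (measurable_of_finite flip).comp (measurable_pi_apply j)
  rw [← Measure.map_apply h (Aplus_meas L), dirs_flip]

/-- with deterministic block lengths the walk on the line does not diverge almost surely -/
theorem not_ae_div (L : ℕ → ℕ) : ¬ ∀ᵐ D ∂(dirs 1), D ∈ Aplus L ∨ D ∈ Aminus L := by
  intro h
  have hm := dirs_Aminus L
  have hdisj : Disjoint (Aplus L) (Aminus L) := by
    rw [Set.disjoint_left]
    intro D h1 h2
    have h3 := (tendsto_atTop.1 h1 1)
    have h4 := (tendsto_atBot.1 h2 0)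
    obtain ⟨k, h5, h6⟩ := (h3.and h4).exists
    linarith
  have hAm : MeasurableSet (Aminus L) := by
    rw [Aminus_eq]
    exact (measurable_pi_lambda _ fun j => (measurable_of_finite flip).comp (measurable_pi_apply j))
      (Aplus_meas L)
  have h1 : dirs 1 (Aplus L ∪ Aminus L) = 1 := by
    rw [← prob_compl_eq_zero_iff ((Aplus_meas L).union hAm)]
    exact h
  rw [measure_union hdisj hAm, hm] at h1
  rcases Aplus_zero_one L with h0 | h0
  · rw [h0] at h1; simp at h1
  · rw [h0] at h1
    have : (1:ENNReal) + 1 = 2 := by norm_num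
    rw [this] at h1
    exact absurd h1 (by norm_num)

/-- a path with steps `±1` whose absolute value tends to infinity diverges to `+∞` or to `-∞` -/
theorem sign_dichotomy (x : ℕ → ℤ) (hstep : ∀ n, |x (n + 1) - x n| ≤ 1)
    (h : Tendsto (fun n => |x n|) atTop atTop) : Tendsto x atTop atTop ∨ Tendsto x atTop atBot := by
  obtain ⟨N, hN⟩ := eventually_atTop.1 (tendsto_atTop.1 h 1)
  rcases lt_or_ge 0 (x N) with hpos | hneg
  · left
    have h1 : ∀ n, N ≤ n → 0 < x n := by
      intro n hn
      induction n, hn using Nat.le_induction with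
      | base => exact hpos
      | succ n hn ih =>
        have h2 := hstep n
        have h3 := hN (n + 1) (by omega)
        rw [abs_le] at h2
        rcases abs_cases (x (n + 1)) with h4 | h4 <;> omega
    apply h.congr' 
    filter_upwards [eventually_ge_atTop N] with n hn
    exact abs_of_pos (h1 n hn)
  · right
    have h1 : ∀ n, N ≤ n → x n < 0 := by
      intro n hn
      induction n, hn using Nat.le_induction with
      | base =>
        have h3 := hN N le_rfl
        rcases abs_cases (x N) with h4 | h4 <;> omega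
      | succ n hn ih =>
        have h2 := hstep n
        have h3 := hN (n + 1) (by omega)
        rw [abs_le] at h2
        rcases abs_cases (x (n + 1)) with h4 | h4 <;> omega
    have h2 : Tendsto (fun n => -|x n|) atTop atBot := tendsto_neg_atBot_iff.2 h
    apply h2.congr'
    filter_upwards [eventually_ge_atTop N] with n hn
    rw [abs_of_neg (h1 n hn), neg_neg]

theorem esc_abs (ω : ℕ → Bool × Dir 1) (h : Esc ω) : Tendsto (fun n => |S ω n 0|) atTop atTop := by
  apply tendsto_atTop.2
  intro C
  filter_upwards [tendsto_atTop.1 h (C : ℝ)] with n hn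
  rw [Fin.sum_univ_one, Real.sqrt_sq_eq_abs] at hn
  exact_mod_cast hn

theorem infinite_not_esc (c : ℕ → Bool) (hI : ∀ N, ∃ n, N < n ∧ c n = true) :
    ¬ ∀ᵐ u ∂(dirs 1), Esc (zz c u) := by
  intro h
  apply not_ae_div (LL c hI)
  have hm : Measurable fun (u : ℕ → Dir 1) (j : ℕ) => u (tt c hI j) :=
    measurable_pi_lambda _ fun j => measurable_pi_apply _
  have hAm : MeasurableSet (Aminus (LL c hI)) := by
    rw [Aminus_eq]
    exact (measurable_pi_lambda _ fun j => (measurable_of_finite flip).comp (measurable_pi_apply j))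
      (Aplus_meas _)
  rw [← dirs_reindex (d := 1) c hI]
  refine (ae_map_iff (p := fun D => D ∈ Aplus (LL c hI) ∨ D ∈ Aminus (LL c hI)) hm.aemeasurable
    ((Aplus_meas _).union hAm)).2 ?_
  filter_upwards [h] with u hu
  have h1 := sign_dichotomy (fun n => S (zz c u) n 0) (by
    intro n
    rw [S_succ]
    simp only [Pi.add_apply, add_sub_cancel_left]
    exact stepVec_abs _ _) (esc_abs _ hu)
  have h2 : Tendsto (tt c hI) atTop atTop := (tt_strict c hI).tendsto_atTop
  have h3 : ∀ k, pos (LL c hI) (fun j => u (tt c hI j)) k = S (zz c u) (tt c hI k) 0 := by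
    intro k; unfold pos; rw [S_tt c hI u k]
  rcases h1 with h1 | h1
  · left
    exact (h1.comp h2).congr fun k => (h3 k).symm
  · right
    exact (h1.comp h2).congr fun k => (h3 k).symm

/-! ### the coins -/

theorem coins_true (p : ℕ → unitInterval) (n : ℕ) :
    coins p {c | c n = true} = ENNReal.ofReal (p n : ℝ) := by
  have h := measurePreserving_eval_infinitePi (fun n => coin (p n)) n
  have h2 := h.measure_preimage (measurableSet_singleton true).nullMeasurableSet
  have h3 : coin (p n) {true} = ENNReal.ofReal (p n : ℝ) := by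
    simp [coin]
  rw [h3] at h2
  exact h2

theorem meas_true (n : ℕ) : MeasurableSet {c : ℕ → Bool | c n = true} :=
  (measurable_pi_apply (X := fun _ : ℕ => Bool) n) (measurableSet_singleton true)

theorem coins_indep (p : ℕ → unitInterval) : iIndepSet (fun n => {c : ℕ → Bool | c n = true}) (coins p) := by
  rw [iIndepSet_iff_meas_biInter meas_true]
  intro s
  have h : (⋂ i ∈ s, {c : ℕ → Bool | c i = true}) = Set.pi s (fun _ => {true}) := by
    ext c; simp [Set.mem_pi]
  have h2 := Measure.infinitePi_pi (μ := fun n => coin (p n)) (s := s)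
    (t := fun _ => ({true} : Set Bool)) (fun i _ => measurableSet_singleton _)
  rw [h]
  unfold coins
  rw [h2]
  apply Finset.prod_congr rfl
  intro n _
  have h3 := coins_true p n
  unfold coins at h3
  rw [h3]
  simp [coin]

theorem strong_one_tsum (p : ℕ → unitInterval) :
    StronglyTransient 1 p ↔ ∑' n, coins p {c | c n = true} ≠ ⊤ := by
  rw [strong_iff]
  constructor
  · intro hp htop
    have h1 := measure_limsup_eq_one meas_true (coins_indep p) htop
    have hml : MeasurableSet (limsup (fun n => {c : ℕ → Bool | c n = true}) atTop) :=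
      MeasurableSet.measurableSet_limsup meas_true
    have h2 : ∀ᵐ c ∂(coins p), c ∈ limsup (fun n => {c : ℕ → Bool | c n = true}) atTop := by
      rw [← prob_compl_eq_zero_iff hml] at h1
      exact h1
    obtain ⟨c, h3, h4⟩ := (hp.and h2).exists
    rw [mem_limsup_iff_frequently_mem] at h4
    refine infinite_not_esc c (fun N => ?_) h3
    obtain ⟨n, hn, hn'⟩ := (frequently_atTop.1 h4) (N + 1)
    exact ⟨n, by omega, hn'⟩
  · intro hsum
    filter_upwards [ae_eventually_notMem hsum] with c hc
    obtain ⟨N, hN⟩ := eventually_atTop.1 hc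
    refine Eventually.of_forall fun u => esc_of_finite c u N fun n hn => ?_
    have := hN n hn.le
    simpa using this

/-- on the line the walk is strongly transient exactly when the parameters are summable -/
theorem strong_one (p : ℕ → unitInterval) :
    StronglyTransient 1 p ↔ Summable fun n => (p n : ℝ) := by
  rw [strong_one_tsum]
  simp only [coins_true]
  constructor
  · intro h
    have h1 := ENNReal.summable_toReal h
    refine h1.congr fun n => ?_
    exact ENNReal.toReal_ofReal (p n).2.1
  · intro h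
    exact h.tsum_ofReal_ne_top

theorem mono_one : Mono 1 := by
  intro p p' hle hp
  rw [strong_one] at hp ⊢
  exact Summable.of_nonneg_of_le (fun n => (p' n).2.1) (fun n => hle n) hp

/-- the answer in every dimension -/
theorem mono_ne_two (d : ℕ) [hd : NeZero d] (hd2 : d ≠ 2) : Mono d := by
  have h0 : d ≠ 0 := NeZero.ne d
  rcases Nat.lt_or_ge d 3 with h | h
  · have h1 : d = 1 := by omega
    subst h1
    exact mono_one
  · exact mono_three h

end R975.CW
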