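import Pool.Agent.R975.CW.Walk

set_option autoImplicit false

/-!
Recurrence of the simple random walk on `ℤ²`, in terms of the hitting probabilities `hn`.
-/

namespace R975.CW

open Filter Finset

abbrev P2 := Fin 2 → ℤ

/-- the transition operator of the simple random walk -/
noncomputable def opT (f : P2 → ℝ) (x : P2) : ℝ := (∑ u : Dir 2, f (x + stepVec u)) / 4

/-- the probability that the simple random walk from `x` is at `0` at one of the times `1, …, n` -/
noncomputable def hn : ℕ → P2 → ℝ
  | 0, _ => 0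
  | n + 1, x => (∑ u : Dir 2, if x + stepVec u = 0 then (1:ℝ) else hn n (x + stepVec u)) / 4

theorem sum_dir2 (F : Dir 2 → ℝ) :
    ∑ u : Dir 2, F u = F (0, true) + F (0, false) + (F (1, true) + F (1, false)) := by
  rw [Fintype.sum_prod_type, Fin.sum_univ_two, Fintype.sum_bool, Fintype.sum_bool]

theorem hn_nonneg (n : ℕ) (x : P2) : 0 ≤ hn n x := by
  induction n generalizing x with
  | zero => simp [hn]
  | succ n ih =>
    rw [hn]
    apply div_nonneg _ (by norm_num)
    apply Finset.sum_nonneg
    intro u _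
    split_ifs
    · norm_num
    · exact ih _

theorem sum_le_four (F : Dir 2 → ℝ) (h : ∀ u, F u ≤ 1) : (∑ u : Dir 2, F u) / 4 ≤ 1 := by
  rw [sum_dir2]
  have := h (0, true)
  have := h (0, false)
  have := h (1, true)
  have := h (1, false)
  linarith

theorem hn_le_one (n : ℕ) (x : P2) : hn n x ≤ 1 := by
  induction n generalizing x with
  | zero => simp [hn]
  | succ n ih =>
    rw [hn]
    apply sum_le_four
    intro u
    split_ifs
    · norm_num
    · exact ih _

theorem hn_mono_succ (n : ℕ) (x : P2) : hn n x ≤ hn (n + 1) x := by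
  induction n generalizing x with
  | zero => rw [hn]; exact hn_nonneg _ _
  | succ n ih =>
    rw [hn, hn]
    apply div_le_div_of_nonneg_right _ (by norm_num)
    apply Finset.sum_le_sum
    intro u _
    split_ifs
    · exact le_refl _
    · exact ih _

theorem hn_mono (x : P2) : Monotone fun n => hn n x := monotone_nat_of_le_succ fun n => hn_mono_succ n x

/-- the probability of ever hitting `0` at a positive time -/
noncomputable def hinf (x : P2) : ℝ := ⨆ n, hn n x

theorem hn_tendsto (x : P2) : Tendsto (fun n => hn n x) atTop (nhds (hinf x)) :=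
  tendsto_atTop_ciSup (hn_mono x) ⟨1, by rintro _ ⟨n, rfl⟩; exact hn_le_one n x⟩

theorem hinf_le_one (x : P2) : hinf x ≤ 1 := ciSup_le fun n => hn_le_one n x

theorem hinf_eq (x : P2) :
    hinf x = (∑ u : Dir 2, if x + stepVec u = 0 then (1:ℝ) else hinf (x + stepVec u)) / 4 := by
  have h1 : Tendsto (fun n => hn (n + 1) x) atTop (nhds (hinf x)) :=
    (hn_tendsto x).comp (tendsto_add_atTop_nat 1)
  have h2 : Tendsto (fun n => hn (n + 1) x) atTop
      (nhds ((∑ u : Dir 2, if x + stepVec u = 0 then (1:ℝ) else hinf (x + stepVec u)) / 4)) := by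
    simp only [hn]
    apply Tendsto.div_const
    apply tendsto_finset_sum
    intro u _
    split_ifs
    · exact tendsto_const_nhds
    · exact hn_tendsto _
  exact tendsto_nhds_unique h1 h2

/-- the escape function -/
noncomputable def esc (x : P2) : ℝ := if x = 0 then 0 else 1 - hinf x

noncomputable def del (x : P2) : ℝ := if x = 0 then 1 else 0

theorem esc_nonneg (x : P2) : 0 ≤ esc x := by
  unfold esc; split_ifs
  · exact le_refl _
  · linarith [hinf_le_one x]

theorem hinf_nonneg (x : P2) : 0 ≤ hinf x :=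
  ge_of_tendsto' (hn_tendsto x) fun n => hn_nonneg n x

theorem esc_le_one (x : P2) : esc x ≤ 1 := by
  unfold esc; split_ifs
  · norm_num
  · linarith [hinf_nonneg x]

theorem opT_esc (x : P2) : opT esc x = esc x + (1 - hinf 0) * del x := by
  have h1 : opT esc x = 1 - hinf x := by
    rw [hinf_eq x, opT, sum_dir2, sum_dir2]
    have h : ∀ y : P2, esc y = 1 - (if y = 0 then (1:ℝ) else hinf y) := by
      intro y; unfold esc; split_ifs <;> ring
    rw [h, h, h, h]; ring
  rw [h1]
  unfold esc del
  by_cases hx : x = 0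
  · simp [hx]
  · simp [hx]

theorem opT_add (f g : P2 → ℝ) (x : P2) : opT (fun y => f y + g y) x = opT f x + opT g x := by
  simp only [opT, sum_dir2]; ring

theorem opT_mul (c : ℝ) (f : P2 → ℝ) (x : P2) : opT (fun y => c * f y) x = c * opT f x := by
  simp only [opT, sum_dir2]; ring

theorem opT_iter_lin (n : ℕ) (c : ℝ) (f g : P2 → ℝ) :
    opT^[n] (fun y => f y + c * g y) = fun x => opT^[n] f x + c * opT^[n] g x := by
  induction n with
  | zero => rfl
  | succ n ih =>
    rw [Function.iterate_succ_apply', ih]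
    funext x
    rw [Function.iterate_succ_apply', Function.iterate_succ_apply']
    rw [← opT_mul c, ← opT_add]

theorem opT_iter_le_one (n : ℕ) (f : P2 → ℝ) (hf : ∀ x, f x ≤ 1) (x : P2) : opT^[n] f x ≤ 1 := by
  induction n generalizing x with
  | zero => exact hf x
  | succ n ih =>
    rw [Function.iterate_succ_apply', opT]
    exact sum_le_four _ fun u => ih _

theorem esc_iter (n : ℕ) :
    opT^[n] esc 0 = esc 0 + (1 - hinf 0) * ∑ m ∈ range n, opT^[m] del 0 := by
  induction n with
  | zero => simp
  | succ n ih =>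
    have h : opT esc = fun x => esc x + (1 - hinf 0) * del x := funext opT_esc
    rw [Function.iterate_succ_apply, h, opT_iter_lin, sum_range_succ, mul_add, ← add_assoc, ← ih]

/-- the one dimensional operator -/
noncomputable def opB (g : ℤ → ℝ) (s : ℤ) : ℝ := (g (s + 1) + g (s - 1)) / 2

noncomputable def del1 (s : ℤ) : ℝ := if s = 0 then 1 else 0

theorem opT_prod (g k : ℤ → ℝ) (x : P2) :
    opT (fun y => g (y 0 + y 1) * k (y 0 - y 1)) x = opB g (x 0 + x 1) * opB k (x 0 - x 1) := by
  rw [opT, sum_dir2, opB, opB]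
  simp only [stepVec, Pi.add_apply, Pi.single_eq_same, Bool.false_eq_true, if_false, if_true, ne_eq,
    one_ne_zero, not_false_eq_true, Pi.single_eq_of_ne, zero_ne_one, add_zero]
  have e1 : x 0 + 1 + x 1 = x 0 + x 1 + 1 := by ring
  have e2 : x 0 + 1 - x 1 = x 0 - x 1 + 1 := by ring
  have e3 : x 0 + -1 + x 1 = x 0 + x 1 - 1 := by ring
  have e4 : x 0 + -1 - x 1 = x 0 - x 1 - 1 := by ring
  have e5 : x 0 + (x 1 + 1) = x 0 + x 1 + 1 := by ring
  have e6 : x 0 - (x 1 + 1) = x 0 - x 1 - 1 := by ring
  have e7 : x 0 + (x 1 + -1) = x 0 + x 1 - 1 := by ring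
  have e8 : x 0 - (x 1 + -1) = x 0 - x 1 + 1 := by ring
  rw [e1, e2, e3, e4, e5, e6, e7, e8]
  ring

theorem del_prod (x : P2) : del x = del1 (x 0 + x 1) * del1 (x 0 - x 1) := by
  unfold del del1
  by_cases h : x = 0
  · simp [h]
  · rw [if_neg h]
    by_cases h1 : x 0 + x 1 = 0
    · by_cases h2 : x 0 - x 1 = 0
      · exfalso; apply h
        funext i
        fin_cases i
        · show x 0 = 0; omega
        · show x 1 = 0; omega
      · simp [h2]
    · simp [h1]

theorem opT_iter_del (n : ℕ) (x : P2) :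
    opT^[n] del x = opB^[n] del1 (x 0 + x 1) * opB^[n] del1 (x 0 - x 1) := by
  induction n generalizing x with
  | zero => exact del_prod x
  | succ n ih =>
    rw [Function.iterate_succ_apply', Function.iterate_succ_apply']
    rw [← opT_prod]
    congr 1
    funext y
    exact ih y

noncomputable def binZ (n : ℕ) (k : ℤ) : ℝ := if k < 0 then 0 else (n.choose k.toNat : ℝ)

theorem binZ_succ (n : ℕ) (k : ℤ) : binZ (n + 1) k = binZ n k + binZ n (k - 1) := by
  unfold binZ
  rcases lt_trichotomy k 0 with h | h | h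
  · rw [if_pos h, if_pos h, if_pos (by omega)]; norm_num
  · subst h; simp
  · rw [if_neg (by omega), if_neg (by omega), if_neg (by omega)]
    obtain ⟨m, hm⟩ : ∃ m : ℕ, k = m + 1 := ⟨(k - 1).toNat, by omega⟩
    have h1 : k.toNat = m + 1 := by omega
    have h2 : (k - 1).toNat = m := by omega
    rw [h1, h2, Nat.choose_succ_succ]; push_cast; ring

theorem opB_iter_del (n : ℕ) (k : ℤ) : opB^[n] del1 (2 * k - n) = binZ n k / 2 ^ n := by
  induction n generalizing k with
  | zero =>
    simp only [Function.iterate_zero, id, Nat.cast_zero, sub_zero, pow_zero, div_one]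
    unfold del1 binZ
    rcases lt_trichotomy k 0 with h | h | h
    · rw [if_neg (by omega), if_pos h]
    · subst h; simp
    · rw [if_neg (by omega), if_neg (by omega)]
      obtain ⟨m, hm⟩ : ∃ m : ℕ, k.toNat = m + 1 := ⟨(k - 1).toNat, by omega⟩
      rw [hm]; simp
  | succ n ih =>
    rw [Function.iterate_succ_apply', opB, binZ_succ]
    have e1 : 2 * k - ((n + 1 : ℕ) : ℤ) + 1 = 2 * k - n := by push_cast; ring
    have e2 : 2 * k - ((n + 1 : ℕ) : ℤ) - 1 = 2 * (k - 1) - n := by push_cast; ring
    rw [e1, e2, ih, ih, pow_succ]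
    field_simp

theorem opB_center (m : ℕ) : opB^[2 * m] del1 0 = (m.centralBinom : ℝ) / 4 ^ m := by
  have h := opB_iter_del (2 * m) m
  have e : 2 * (m : ℤ) - ((2 * m : ℕ) : ℤ) = 0 := by push_cast; ring
  rw [e] at h
  rw [h]
  unfold binZ
  rw [if_neg (by omega), Int.toNat_natCast, pow_mul, Nat.centralBinom]
  norm_num

theorem centralBinom_sq (m : ℕ) (hm : 1 ≤ m) :
    (16:ℝ) ^ m ≤ 4 * m * (m.centralBinom : ℝ) ^ 2 := by
  induction m, hm using Nat.le_induction with
  | base => simp [Nat.centralBinom]; norm_num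
  | succ m hm ih =>
    have h : ((m + 1 : ℕ) : ℝ) * ((m + 1).centralBinom : ℝ) = 2 * (2 * m + 1) * (m.centralBinom : ℝ) := by
      have := Nat.succ_mul_centralBinom_succ m
      exact_mod_cast this
    have hm0 : (0:ℝ) < m := by exact_mod_cast hm
    push_cast at h ⊢
    set a : ℝ := (m.centralBinom : ℝ)
    set b : ℝ := ((m + 1).centralBinom : ℝ)
    have h2 : b ^ 2 * ((m:ℝ) + 1) ^ 2 = 4 * (2 * m + 1) ^ 2 * a ^ 2 := by
      have : ((m:ℝ) + 1) * b = 2 * (2 * m + 1) * a := h
      calc b ^ 2 * ((m:ℝ) + 1) ^ 2 = (((m:ℝ) + 1) * b) ^ 2 := by ring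
        _ = _ := by rw [this]; ring
    have h3 : (16:ℝ) ^ (m + 1) * (m * ((m:ℝ) + 1) ^ 2) ≤ 4 * (m + 1) * b ^ 2 * (m * ((m:ℝ) + 1) ^ 2) := by
      calc (16:ℝ) ^ (m + 1) * (m * ((m:ℝ) + 1) ^ 2) = 16 ^ m * (16 * m * ((m:ℝ) + 1) ^ 2) := by
            rw [pow_succ]; ring
        _ ≤ (4 * m * a ^ 2) * (16 * m * ((m:ℝ) + 1) ^ 2) :=
            mul_le_mul_of_nonneg_right ih (by positivity)
        _ = (a ^ 2 * (16 * m * (m + 1))) * (4 * m * (m + 1)) := by ring
        _ ≤ (a ^ 2 * (16 * m * (m + 1))) * (2 * m + 1) ^ 2 := by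
            apply mul_le_mul_of_nonneg_left _ (by positivity)
            nlinarith
        _ = 4 * (m + 1) * (4 * (2 * m + 1) ^ 2 * a ^ 2) * m := by ring
        _ = 4 * (m + 1) * b ^ 2 * (m * ((m:ℝ) + 1) ^ 2) := by rw [← h2]; ring
    exact le_of_mul_le_mul_right h3 (by positivity)

theorem opT_center (m : ℕ) (hm : 1 ≤ m) : 1 / (4 * (m : ℝ)) ≤ opT^[2 * m] del 0 := by
  rw [opT_iter_del]
  simp only [Pi.zero_apply, add_zero, sub_zero]
  rw [opB_center]
  have h := centralBinom_sq m hm
  have hm0 : (0:ℝ) < m := by exact_mod_cast hm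
  rw [div_mul_div_comm, div_le_div_iff₀ (by positivity) (by positivity)]
  have : (4:ℝ) ^ m * 4 ^ m = 16 ^ m := by rw [← mul_pow]; norm_num
  rw [this]
  nlinarith

theorem opT_iter_nonneg (n : ℕ) (x : P2) : 0 ≤ opT^[n] del x := by
  induction n generalizing x with
  | zero => simp only [Function.iterate_zero, id]; unfold del; split_ifs <;> norm_num
  | succ n ih =>
    rw [Function.iterate_succ_apply', opT]
    exact div_nonneg (Finset.sum_nonneg fun u _ => ih _) (by norm_num)

theorem green_unbounded (C : ℝ) : ∃ n : ℕ, C < ∑ m ∈ range n, opT^[m] del 0 := by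
  have h := Real.tendsto_sum_range_one_div_nat_succ_atTop
  obtain ⟨N, hN⟩ := (h.eventually_gt_atTop (4 * C)).exists
  refine ⟨2 * N + 1, ?_⟩
  have key : ∀ N : ℕ, (∑ i ∈ range N, 1 / ((i:ℝ) + 1)) / 4 ≤ ∑ m ∈ range (2 * N + 1), opT^[m] del 0 := by
    intro N
    induction N with
    | zero => simp only [range_zero, sum_empty, zero_div]; exact Finset.sum_nonneg fun m _ => opT_iter_nonneg m 0
    | succ N ih =>
      rw [sum_range_succ, show 2 * (N + 1) + 1 = (2 * N + 1) + 1 + 1 by ring, sum_range_succ, sum_range_succ]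
      have h1 := opT_center (N + 1) (by omega)
      have h2 := opT_iter_nonneg (2 * N + 1) 0
      rw [show 2 * (N + 1) = 2 * N + 1 + 1 by ring] at h1
      have h3 : 1 / ((N:ℝ) + 1) / 4 = 1 / (4 * ((N + 1 : ℕ) : ℝ)) := by push_cast; rw [div_div, mul_comm]
      rw [add_div, h3]
      linarith
  have := key N
  linarith

theorem hinf_zero : hinf 0 = 1 := by
  apply le_antisymm (hinf_le_one 0)
  by_contra hcon
  push Not at hcon
  have he : 0 < 1 - hinf 0 := by linarith
  obtain ⟨n, hn'⟩ := green_unbounded (1 / (1 - hinf 0))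
  have h1 := esc_iter n
  have h2 := opT_iter_le_one n esc esc_le_one 0
  have h3 : 1 < (1 - hinf 0) * ∑ m ∈ range n, opT^[m] del 0 := by
    calc 1 = (1 - hinf 0) * (1 / (1 - hinf 0)) := by field_simp
      _ < _ := mul_lt_mul_of_pos_left hn' he
  have h4 : esc 0 = 0 := by simp [esc]
  rw [h4] at h1
  linarith

theorem esc_step (x : P2) (hx : esc x = 0) (u : Dir 2) : esc (x + stepVec u) = 0 := by
  have h := opT_esc x
  rw [hinf_zero, hx] at h
  simp only [sub_self, zero_mul, add_zero, opT] at h
  have h2 : ∑ u : Dir 2, esc (x + stepVec u) = 0 := by linarith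
  exact (Finset.sum_eq_zero_iff_of_nonneg fun u _ => esc_nonneg _).1 h2 u (Finset.mem_univ u)

theorem esc_zero (x : P2) : esc x = 0 := by
  have key : ∀ a b : ℤ, esc ![a, b] = 0 := by
    intro a b
    have ha : ∀ a : ℤ, esc ![a, 0] = 0 := by
      intro a
      induction a using Int.induction_on with
      | zero => unfold esc; rw [if_pos]; funext i; fin_cases i <;> rfl
      | succ i hi =>
        have := esc_step _ hi (0, true)
        convert this using 2
        funext j; fin_cases j <;> simp [stepVec]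
      | pred i hi =>
        have := esc_step _ hi (0, false)
        convert this using 2
        funext j; fin_cases j <;> simp [stepVec]; ring
    induction b using Int.induction_on with
    | zero => exact ha a
    | succ i hi =>
      have := esc_step _ hi (1, true)
      convert this using 2
      funext j; fin_cases j <;> simp [stepVec]
    | pred i hi =>
      have := esc_step _ hi (1, false)
      convert this using 2
      funext j; fin_cases j <;> simp [stepVec]; ring
  have : x = ![x 0, x 1] := by funext i; fin_cases i <;> rfl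
  rw [this]; exact key _ _

theorem hinf_one (x : P2) : hinf x = 1 := by
  by_cases h : x = 0
  · rw [h]; exact hinf_zero
  · have := esc_zero x
    unfold esc at this
    rw [if_neg h] at this
    linarith

/-- the simple random walk on `ℤ²` hits `0` with probability at least `1/2` within a time which is
uniform over the starting points in a box -/
theorem srw_hits (D : ℕ) : ∃ n : ℕ, ∀ x : P2, (∀ i, |x i| ≤ D) → 1 / 2 ≤ hn n x := by
  classical
  have h1 : ∀ x : P2, ∃ n, 1 / 2 ≤ hn n x := by
    intro x
    have h := hn_tendsto x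
    rw [hinf_one x] at h
    obtain ⟨n, hn'⟩ := (h.eventually (lt_mem_nhds (show (1/2:ℝ) < 1 by norm_num))).exists
    exact ⟨n, hn'.le⟩
  choose N hN using h1
  let B : Finset P2 := Fintype.piFinset fun _ => Finset.Icc (-(D:ℤ)) D
  refine ⟨B.sup N, fun x hx => le_trans (hN x) (hn_mono x (Finset.le_sup ?_))⟩
  rw [Fintype.mem_piFinset]
  intro i
  rw [Finset.mem_Icc]
  exact abs_le.1 (hx i)

end R975.CW
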