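import Pool.Agent.R975.CW.Zip

set_option autoImplicit false

/-!
Anticoncentration for sums of independent signs (Erdős) and for lacunary weights.
-/

namespace R975.CW

open MeasureTheory ProbabilityTheory Filter Finset

/-- fair bits -/
noncomputable def uB : Measure Bool := (PMF.uniformOfFintype Bool).toMeasure

instance : IsProbabilityMeasure uB := by unfold uB; infer_instance

theorem uB_singleton (b : Bool) : uB {b} = 1 / 2 := by
  unfold uB
  rw [PMF.toMeasure_uniformOfFintype_apply _ (Set.toFinite _).measurableSet]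
  simp

/-- the law of the signs -/
noncomputable def sg : Measure (ℕ → Bool) := Measure.infinitePi (fun _ => uB)

instance : IsProbabilityMeasure sg := by unfold sg; infer_instance

def eps (b : Bool) : ℤ := if b then 1 else -1

/-- the set of indices in `U` with sign `+` -/
def plus (U : Finset ℕ) (s : ℕ → Bool) : Finset ℕ := U.filter fun j => s j = true

theorem sg_plus (U T : Finset ℕ) (hT : T ⊆ U) : sg {s | plus U s = T} = (1 / 2) ^ U.card := by
  have h : {s : ℕ → Bool | plus U s = T} = Set.pi U (fun j => {decide (j ∈ T)}) := by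
    ext s
    simp only [Set.mem_ofPred_eq, Set.mem_pi, Finset.mem_coe, Set.mem_singleton_iff, plus]
    constructor
    · intro h j hj
      subst h
      simp [hj]
    · intro h
      ext j
      simp only [Finset.mem_filter]
      constructor
      · rintro ⟨h1, h2⟩
        have := h j h1
        rw [h2] at this
        simpa using this.symm
      · intro hj
        exact ⟨hT hj, by rw [h j (hT hj)]; simpa using hj⟩
  have h2 := Measure.infinitePi_pi (μ := fun _ : ℕ => uB) (s := U)
    (t := fun j => ({decide (j ∈ T)} : Set Bool)) (fun i _ => (Set.toFinite _).measurableSet)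
  rw [h, sg, h2]
  simp only [uB_singleton]
  rw [Finset.prod_const]

theorem meas_plus (U T : Finset ℕ) : MeasurableSet {s : ℕ → Bool | plus U s = T} := by
  have h : {s : ℕ → Bool | plus U s = T} = (fun s : ℕ → Bool => fun i : U => s i) ⁻¹'
      {g | (U.attach.filter fun i => g i = true).map (Function.Embedding.subtype _) = T} := by
    ext s
    simp only [Set.mem_ofPred_eq, Set.mem_preimage, plus]
    constructor
    · intro h
      rw [← h]
      ext j
      simp
      tauto
    · intro h
      rw [← h]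
      ext j
      simp
      tauto
  rw [h]
  exact MeasurableSet.preimage (Set.toFinite _).measurableSet
    (measurable_pi_lambda _ fun i => measurable_pi_apply _)

theorem sg_family (U : Finset ℕ) (𝒜 : Finset (Finset ℕ)) (h𝒜 : ∀ T ∈ 𝒜, T ⊆ U) :
    sg {s | plus U s ∈ 𝒜} = 𝒜.card * (1 / 2) ^ U.card := by
  have h : {s : ℕ → Bool | plus U s ∈ 𝒜} = ⋃ T ∈ 𝒜, {s | plus U s = T} := by
    ext s; simp
  rw [h, measure_biUnion_finset]
  · rw [Finset.sum_congr rfl fun T hT => sg_plus U T (h𝒜 T hT), Finset.sum_const, nsmul_eq_mul]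
  · intro T _ T' _ hne
    rw [Function.onFun, Set.disjoint_left]
    intro s h1 h2
    exact hne (by rw [← (show plus U s = T from h1), ← (show plus U s = T' from h2)])
  · intro T _; exact meas_plus U T

/-- the signed sum -/
def ssum (U : Finset ℕ) (w : ℕ → ℤ) (s : ℕ → Bool) : ℤ := ∑ j ∈ U, eps (s j) * w j

theorem ssum_eq (U : Finset ℕ) (w : ℕ → ℤ) (s : ℕ → Bool) :
    ssum U w s = 2 * ∑ j ∈ plus U s, w j - ∑ j ∈ U, w j := by
  unfold ssum plus
  rw [Finset.sum_filter, Finset.mul_sum, ← Finset.sum_sub_distrib]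
  apply Finset.sum_congr rfl
  intro j _
  unfold eps
  split_ifs <;> ring

/-- if every window of length `W` contains at most `K` of the doubled subset sums over `J`, the
signed sum falls into a window of length `W` with probability at most `K / 2 ^ |J|` -/
theorem window_bound (U J : Finset ℕ) (hJ : J ⊆ U) (w : ℕ → ℤ) (W : ℤ) (K : ℕ)
    (hK : ∀ y : ℤ, (J.powerset.filter fun T => y ≤ 2 * ∑ j ∈ T, w j ∧ 2 * ∑ j ∈ T, w j < y + W).card ≤ K)
    (x : ℤ) : sg {s | x ≤ ssum U w s ∧ ssum U w s < x + W} ≤ K * (1 / 2) ^ J.card := by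
  classical
  set B : ℤ := ∑ j ∈ U, w j with hB
  let 𝒜 : Finset (Finset ℕ) := U.powerset.filter fun T =>
    x + B ≤ 2 * ∑ j ∈ T, w j ∧ 2 * ∑ j ∈ T, w j < x + B + W
  have h1 : {s : ℕ → Bool | x ≤ ssum U w s ∧ ssum U w s < x + W} = {s | plus U s ∈ 𝒜} := by
    ext s
    simp only [Set.mem_ofPred_eq, 𝒜, Finset.mem_filter, Finset.mem_powerset, ssum_eq, ← hB]
    constructor
    · rintro ⟨h1, h2⟩
      exact ⟨Finset.filter_subset _ _, by linarith, by linarith⟩
    · rintro ⟨_, h1, h2⟩
      exact ⟨by linarith, by linarith⟩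
  rw [h1, sg_family U 𝒜 (fun T hT => by
    simp only [𝒜, Finset.mem_filter, Finset.mem_powerset] at hT; exact hT.1)]
  have h2 : 𝒜.card ≤ K * 2 ^ (U \ J).card := by
    have h3 := Finset.card_le_mul_card_image (f := fun T => T \ J) 𝒜 K (by
      intro T₀ _
      refine le_trans ?_ (hK (x + B - 2 * ∑ j ∈ T₀, w j))
      apply Finset.card_le_card_of_injOn (fun T => T ∩ J)
      · intro T hT
        simp only [𝒜, Finset.coe_filter, Set.mem_ofPred_eq, Finset.mem_filter,
          Finset.mem_powerset] at hT ⊢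
        obtain ⟨⟨h4, h5, h6⟩, h7⟩ := hT
        have h8 : ∑ j ∈ T, w j = ∑ j ∈ T ∩ J, w j + ∑ j ∈ T₀, w j := by
          rw [← h7, ← Finset.sum_inter_add_sum_sdiff T J]
        exact ⟨Finset.inter_subset_right, by linarith, by linarith⟩
      · intro T hT T' hT' he
        simp only [Finset.coe_filter, Set.mem_ofPred_eq] at hT hT'
        simp only at he
        rw [← Finset.sdiff_union_inter T J, ← Finset.sdiff_union_inter T' J, he, hT.2, hT'.2])
    refine le_trans h3 (Nat.mul_le_mul_left _ ?_)
    rw [← Finset.card_powerset]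
    apply Finset.card_le_card
    intro T hT
    rw [Finset.mem_image] at hT
    obtain ⟨T', hT', rfl⟩ := hT
    simp only [𝒜, Finset.mem_filter, Finset.mem_powerset] at hT' ⊢
    exact Finset.sdiff_subset_sdiff hT'.1 (le_refl _)
  have h4 : (𝒜.card : ENNReal) ≤ K * 2 ^ (U \ J).card := by exact_mod_cast h2
  have h5 : U.card = (U \ J).card + J.card := (Finset.card_sdiff_add_card_eq_card hJ).symm
  calc (𝒜.card : ENNReal) * (1 / 2) ^ U.card ≤ (K * 2 ^ (U \ J).card) * (1 / 2) ^ U.card := by gcongr
    _ = K * ((2 * (1 / 2)) ^ (U \ J).card) * (1 / 2) ^ J.card := by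
        rw [h5, pow_add, mul_pow]; ring
    _ = K * (1 / 2) ^ J.card := by
        have : (2:ENNReal) * (1 / 2) = 1 := by
          rw [one_div]; exact ENNReal.mul_inv_cancel (by norm_num) (by norm_num)
        rw [this, one_pow, mul_one]

/-- Erdős: the subset sums in a window form an antichain -/
theorem erdos_count (J : Finset ℕ) (w : ℕ → ℤ) (W : ℤ) (hW : 0 < W) (hw : ∀ j ∈ J, W ≤ 2 * w j) (y : ℤ) :
    (J.powerset.filter fun T => y ≤ 2 * ∑ j ∈ T, w j ∧ 2 * ∑ j ∈ T, w j < y + W).card ≤
      J.card.choose (J.card / 2) := by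
  classical
  set ℱ := J.powerset.filter fun T => y ≤ 2 * ∑ j ∈ T, w j ∧ 2 * ∑ j ∈ T, w j < y + W with hℱ
  let f : Finset ℕ → Finset J := fun T => T.subtype (· ∈ J)
  have hinj : Set.InjOn f ℱ := by
    intro T hT T' hT' he
    have h1 : T ⊆ J := by
      have := Finset.mem_coe.1 hT; rw [hℱ, Finset.mem_filter, Finset.mem_powerset] at this; exact this.1
    have h2 : T' ⊆ J := by
      have := Finset.mem_coe.1 hT'; rw [hℱ, Finset.mem_filter, Finset.mem_powerset] at this; exact this.1
    ext j
    constructor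
    · intro hj
      have : (⟨j, h1 hj⟩ : J) ∈ f T := by simp [f, hj]
      rw [he] at this
      simpa [f] using this
    · intro hj
      have : (⟨j, h2 hj⟩ : J) ∈ f T' := by simp [f, hj]
      rw [← he] at this
      simpa [f] using this
  have hanti : IsAntichain (· ⊆ ·) (ℱ.image f : Set (Finset J)) := by
    intro a ha b hb hne hab
    rw [Finset.coe_image] at ha hb
    obtain ⟨T, hT, rfl⟩ := ha
    obtain ⟨T', hT', rfl⟩ := hb
    have hT1 := Finset.mem_coe.1 hT
    have hT1' := Finset.mem_coe.1 hT'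
    rw [hℱ, Finset.mem_filter, Finset.mem_powerset] at hT1 hT1'
    have hsub : T ⊆ T' := by
      intro j hj
      have h3 : (⟨j, hT1.1 hj⟩ : J) ∈ f T := by simp [f, hj]
      have h4 := hab h3
      simpa [f] using h4
    have hne' : T ≠ T' := fun h => hne (by rw [h])
    obtain ⟨j, hj', hj⟩ : ∃ j ∈ T', j ∉ T := by
      by_contra hcon
      push Not at hcon
      exact hne' (Finset.Subset.antisymm hsub hcon)
    have h5 : ∑ i ∈ T, w i + w j ≤ ∑ i ∈ T', w i := by
      rw [← Finset.sum_sdiff hsub, add_comm]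
      have h6 : w j ≤ ∑ i ∈ T' \ T, w i := by
        apply Finset.single_le_sum (f := w) _ (Finset.mem_sdiff.2 ⟨hj', hj⟩)
        intro i hi
        have := hw i (hT1'.1 (Finset.mem_sdiff.1 hi).1)
        linarith
      linarith
    have h7 := hw j (hT1'.1 hj')
    linarith [hT1.2.1, hT1'.2.2]
  have h := hanti.sperner
  rw [Finset.card_image_of_injOn hinj, Fintype.card_coe] at h
  exact h

/-- `4 ^ m` against the central binomial coefficient -/
theorem centralBinom_upper (m : ℕ) : (2 * m + 1) * m.centralBinom ^ 2 ≤ 16 ^ m := by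
  induction m with
  | zero => simp
  | succ m ih =>
    have h := Nat.succ_mul_centralBinom_succ m
    have h2 : (m + 1) ^ 2 * ((2 * (m + 1) + 1) * (m + 1).centralBinom ^ 2) ≤ (m + 1) ^ 2 * 16 ^ (m + 1) := by
      calc (m + 1) ^ 2 * ((2 * (m + 1) + 1) * (m + 1).centralBinom ^ 2)
          = (2 * m + 3) * ((m + 1) * (m + 1).centralBinom) ^ 2 := by ring
        _ = (2 * m + 3) * (2 * (2 * m + 1) * m.centralBinom) ^ 2 := by rw [h]
        _ = (4 * (2 * m + 3) * (2 * m + 1)) * ((2 * m + 1) * m.centralBinom ^ 2) := by ring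
        _ ≤ (16 * (m + 1) ^ 2) * 16 ^ m := by
            apply Nat.mul_le_mul _ ih
            nlinarith
        _ = (m + 1) ^ 2 * 16 ^ (m + 1) := by ring
    exact Nat.le_of_mul_le_mul_left h2 (by positivity)

/-- the concentration bound of Erdős, in a convenient form -/
theorem choose_half_sq (n : ℕ) : (n + 1) * (n.choose (n / 2)) ^ 2 ≤ 4 ^ n := by
  rcases Nat.even_or_odd' n with ⟨m, rfl | rfl⟩
  · have h := centralBinom_upper m
    have e : 2 * m / 2 = m := by omega
    rw [e]
    unfold Nat.centralBinom at h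
    calc (2 * m + 1) * ((2 * m).choose m) ^ 2 ≤ 16 ^ m := h
      _ = 4 ^ (2 * m) := by rw [pow_mul]; norm_num
  · have h := centralBinom_upper (m + 1)
    have e : (2 * m + 1) / 2 = m := by omega
    rw [e]
    have h2 : (m + 1).centralBinom = 2 * (2 * m + 1).choose m := by
      unfold Nat.centralBinom
      have : 2 * (m + 1) = (2 * m + 1) + 1 := by ring
      rw [this, Nat.choose_succ_succ]
      have h3 : (2 * m + 1).choose (m + 1) = (2 * m + 1).choose m := by
        rw [← Nat.choose_symm_of_eq_add (show 2 * m + 1 = m + (m + 1) by ring)]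
      show (2 * m + 1).choose m + (2 * m + 1).choose (m + 1) = _
      rw [h3]; ring
    rw [h2] at h
    have h3 : 16 ^ (m + 1) = 4 * 4 ^ (2 * m + 1) := by
      rw [show (16:ℕ) = 4 ^ 2 by norm_num, ← pow_mul, ← pow_succ']; congr 1
    rw [h3] at h
    nlinarith [h]

/-- Erdős: probability bound `1 / √(|J| + 1)` -/
theorem erdos_prob (U J : Finset ℕ) (hJ : J ⊆ U) (w : ℕ → ℤ) (W : ℤ) (hW : 0 < W)
    (hw : ∀ j ∈ J, W ≤ 2 * w j) (x : ℤ) :
    sg {s | x ≤ ssum U w s ∧ ssum U w s < x + W} ≤ ENNReal.ofReal (1 / Real.sqrt (J.card + 1)) := by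
  refine le_trans (window_bound U J hJ w W _ (erdos_count J w W hW hw) x) ?_
  have h1 : ((J.card.choose (J.card / 2) : ℕ) : ENNReal) * (1 / 2) ^ J.card =
      ENNReal.ofReal ((J.card.choose (J.card / 2) : ℝ) * (1 / 2) ^ J.card) := by
    rw [ENNReal.ofReal_mul (by positivity), ENNReal.ofReal_natCast, ENNReal.ofReal_pow (by norm_num)]
    congr 2
    rw [ENNReal.ofReal_div_of_pos (by norm_num)]
    simp
  rw [h1]
  apply ENNReal.ofReal_le_ofReal
  set n := J.card
  have h2 : ((n:ℝ) + 1) * (n.choose (n / 2) : ℝ) ^ 2 ≤ 4 ^ n := by exact_mod_cast choose_half_sq n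
  rw [le_div_iff₀ (Real.sqrt_pos.2 (by positivity))]
  have h3 : ((n.choose (n / 2) : ℝ) * (1 / 2) ^ n * Real.sqrt (n + 1)) ^ 2 ≤ 1 := by
    rw [mul_pow, mul_pow, Real.sq_sqrt (by positivity), ← pow_mul, mul_comm n 2, pow_mul]
    norm_num
    have h4 : (0:ℝ) < 4 ^ n := by positivity
    have h5 : ((1:ℝ) / 4) ^ n = 1 / 4 ^ n := by rw [div_pow, one_pow]
    rw [h5]
    rw [mul_one_div, div_mul_eq_mul_div, div_le_one h4]
    linarith
  exact abs_le_one_iff_mul_self_le_one.2 (by nlinarith [h3]) |> fun h => le_trans (le_abs_self _) h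

end R975.CW
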