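import Pool.Agent.R975.CW.Est

set_option autoImplicit false

/-!
Summability of the probabilities of a visit: `d ≥ 3`, deterministic block lengths.
-/

namespace R975.CW

open MeasureTheory ProbabilityTheory Filter Finset

/-- block `k` visits the ball of radius `R` -/
def Vis {d : ℕ} (L : ℕ → ℕ) (R k : ℕ) : Set (ℕ → Dir d) :=
  {D | ∃ t ≤ L k, ∀ i, |XX L D k i + (t : ℤ) * stepVec (D k) i| ≤ R}

/-- number of dyadic classes among the first `k` blocks -/
def hc (L : ℕ → ℕ) (k : ℕ) : ℕ := ((range k).image (cls L)).card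

def bad (L : ℕ → ℕ) (k : ℕ) : Prop := (big L k).card ^ 4 < k

instance (L : ℕ → ℕ) (k : ℕ) : Decidable (bad L k) := by unfold bad; infer_instance

/-- the rank of `k` among the bad indices -/
def rk (L : ℕ → ℕ) (k : ℕ) : ℕ := ((range (k + 1)).filter fun j => bad L j).card

theorem hc_succ (L : ℕ → ℕ) (k : ℕ) : hc L (k + 1) ≤ hc L k + 1 := by
  unfold hc
  rw [Finset.range_add_one, Finset.image_insert]
  exact Finset.card_insert_le _ _

theorem rk_inj (L : ℕ → ℕ) {j k : ℕ} (hk : bad L k) (h : j < k) : rk L j < rk L k := by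
  unfold rk
  apply Finset.card_lt_card
  rw [Finset.ssubset_iff_of_subset]
  · exact ⟨k, by simp [hk], by simp; omega⟩
  · intro i hi
    simp only [Finset.mem_filter, Finset.mem_range] at hi ⊢
    exact ⟨by omega, hi.2⟩

/-- few bad indices in each dyadic class -/
theorem rk_le (L : ℕ → ℕ) (hL : ∀ k, 1 ≤ L k) (k : ℕ) (hk : bad L k) :
    ∃ n : ℕ, n ^ 4 < k ∧ rk L k ≤ hc L (k + 1) * (n + 1) := by
  classical
  set Bd := (range (k + 1)).filter fun j => bad L j with hBd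
  set H := (range (k + 1)).image (cls L) with hH
  have hmap : ∀ j ∈ Bd, cls L j ∈ H := fun j hj =>
    Finset.mem_image_of_mem _ (Finset.mem_filter.1 hj).1
  -- a class with many bad indices
  have hkB : k ∈ Bd := by simp [hBd, hk]
  obtain ⟨c, hc1, hc2⟩ := Finset.exists_max_image H (fun c => (Bd.filter fun j => cls L j = c).card)
    ⟨_, hmap k hkB⟩
  have h1 : Bd.card = ∑ c ∈ H, (Bd.filter fun j => cls L j = c).card :=
    Finset.card_eq_sum_card_fiberwise hmap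
  have h2 : Bd.card ≤ H.card * (Bd.filter fun j => cls L j = c).card := by
    rw [h1, ← smul_eq_mul]
    exact Finset.sum_le_card_nsmul _ _ _ hc2
  set V := Bd.filter fun j => cls L j = c with hV
  rcases V.eq_empty_or_nonempty with he | hne
  · exfalso
    rw [he, Finset.card_empty, mul_zero] at h2
    have : 0 < Bd.card := Finset.card_pos.2 ⟨k, hkB⟩
    omega
  · set j₀ := V.max' hne with hj₀
    have hj₀V : j₀ ∈ V := Finset.max'_mem _ _
    have h3 : V.erase j₀ ⊆ big L j₀ := by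
      intro j hj
      rw [Finset.mem_erase] at hj
      have h4 : j < j₀ := lt_of_le_of_ne (Finset.le_max' V j hj.2) hj.1
      have h5 := (Finset.mem_filter.1 hj.2).2
      have h6 := (Finset.mem_filter.1 hj₀V).2
      rw [big, Finset.mem_filter, Finset.mem_range]
      refine ⟨h4, ?_⟩
      have h7 : L j₀ < 2 ^ (cls L j₀ + 1) := Nat.lt_pow_succ_log_self (by norm_num) _
      have h8 : 2 ^ cls L j ≤ L j := Nat.pow_log_le_self 2 (by have := hL j; omega)
      rw [h6, pow_succ] at h7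
      rw [h5] at h8
      omega
    refine ⟨(big L j₀).card, ?_, ?_⟩
    · have h4 := (Finset.mem_filter.1 (Finset.mem_filter.1 hj₀V).1)
      have h5 : bad L j₀ := h4.2
      have h6 := Finset.mem_range.1 h4.1
      unfold bad at h5
      omega
    · have h4 := Finset.card_le_card h3
      rw [Finset.card_erase_of_mem hj₀V] at h4
      have h5 : V.card ≤ (big L j₀).card + 1 := by omega
      calc rk L k = Bd.card := rfl
        _ ≤ H.card * V.card := h2
        _ ≤ hc L (k + 1) * ((big L j₀).card + 1) := Nat.mul_le_mul (le_refl _) h5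

section bounds

variable {d : ℕ} [NeZero d]

theorem exp_le_sq (d k : ℕ) (hd : 1 ≤ d) :
    Real.exp (-((k:ℝ) / (4 * d))) ≤ 32 * d ^ 2 / ((k:ℝ) + 1) ^ 2 := by
  have hd' : (1:ℝ) ≤ d := by exact_mod_cast hd
  have hk : (0:ℝ) ≤ k := by positivity
  set y : ℝ := (k:ℝ) / (4 * d) with hy
  have hy0 : 0 ≤ y := by positivity
  have h1 := Real.quadratic_le_exp_of_nonneg hy0
  have h2 : (k:ℝ) = 4 * d * y := by rw [hy]; field_simp
  rw [Real.exp_neg, inv_eq_one_div, div_le_div_iff₀ (Real.exp_pos _) (by positivity)]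
  have h3 : ((k:ℝ) + 1) ^ 2 ≤ 32 * d ^ 2 * (1 + y + y ^ 2 / 2) := by
    rw [h2]
    have h4 : 4 * (d:ℝ) * y + 1 ≤ 4 * d * (1 + y) := by nlinarith
    calc (4 * (d:ℝ) * y + 1) ^ 2 ≤ (4 * d * (1 + y)) ^ 2 := by
          apply pow_le_pow_left₀ (by positivity) h4
      _ = 16 * d ^ 2 * (1 + y) ^ 2 := by ring
      _ ≤ 16 * d ^ 2 * (2 * (1 + y + y ^ 2 / 2)) := by
          apply mul_le_mul_of_nonneg_left _ (by positivity)
          nlinarith
      _ = _ := by ring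
  calc 1 * ((k:ℝ) + 1) ^ 2 ≤ 32 * d ^ 2 * (1 + y + y ^ 2 / 2) := by rw [one_mul]; exact h3
    _ ≤ 32 * d ^ 2 * Real.exp y := by gcongr

/-- constants -/
noncomputable def cA (d R : ℕ) : ℝ :=
  2 * ((2 * R + 1) * (2 * R + 1) * (2 * R + 3) * (4 * d)) * Real.sqrt (4 * d)

theorem cA_nonneg (d R : ℕ) : 0 ≤ cA d R := by unfold cA; positivity

theorem prob_Ev' (L : ℕ → ℕ) (hL : ∀ k, 1 ≤ L k) (R k : ℕ) (a b₁ b₂ : Fin d) (h1 : a ≠ b₁) (h2 : a ≠ b₂)
    (h3 : b₁ ≠ b₂) :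
    dirs d (Ev L R k a b₁ b₂) ≤ ENNReal.ofReal (64 * d ^ 2 / ((k:ℝ) + 1) ^ 2 +
      cA d R / ((k:ℝ) + 1) * (1 / Real.sqrt ((big L k).card + 1))) := by
  have hd : 1 ≤ d := Nat.pos_of_ne_zero (NeZero.ne d)
  refine le_trans (prob_Ev L hL R k a b₁ b₂ h1 h2 h3) (ENNReal.ofReal_le_ofReal ?_)
  have h4 := exp_le_sq d k hd
  have h5 : Real.sqrt (4 * d / ((big L k).card + 1)) =
      Real.sqrt (4 * d) * (1 / Real.sqrt ((big L k).card + 1)) := by
    rw [Real.sqrt_div (by positivity)]; ring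
  rw [h5]
  have h6 : 2 * Real.exp (-((k:ℝ) / (4 * d))) ≤ 64 * d ^ 2 / ((k:ℝ) + 1) ^ 2 := by
    calc 2 * Real.exp (-((k:ℝ) / (4 * d))) ≤ 2 * (32 * d ^ 2 / ((k:ℝ) + 1) ^ 2) := by gcongr
      _ = _ := by ring
  apply add_le_add h6
  apply le_of_eq
  unfold cA
  ring

omit [NeZero d] in
theorem good_bound (L : ℕ → ℕ) (R k : ℕ) (h : ¬ bad L k) :
    64 * (d:ℝ) ^ 2 / ((k:ℝ) + 1) ^ 2 + cA d R / ((k:ℝ) + 1) * (1 / Real.sqrt ((big L k).card + 1)) ≤
      (64 * d ^ 2 + cA d R) * (1 / ((k:ℝ) + 1) ^ (9 / 8 : ℝ)) := by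
  set m := (big L k).card with hm
  have hk1 : (1:ℝ) ≤ (k:ℝ) + 1 := by have : (0:ℝ) ≤ k := by positivity
                                     linarith
  have hk0 : (0:ℝ) < (k:ℝ) + 1 := by linarith
  have h1 : (k:ℝ) + 1 ≤ ((m:ℝ) + 1) ^ 4 := by
    unfold bad at h
    rw [← hm] at h
    have h2 : k ≤ m ^ 4 := by omega
    have h3 : k + 1 ≤ (m + 1) ^ 4 := by
      have : m ^ 4 + 1 ≤ (m + 1) ^ 4 := by
        have e : (m + 1) ^ 4 = m ^ 4 + 4 * m ^ 3 + 6 * m ^ 2 + 4 * m + 1 := by ring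
        rw [e]; omega
      omega
    exact_mod_cast h3
  have h2 : ((k:ℝ) + 1) ^ (1 / 8 : ℝ) ≤ Real.sqrt (m + 1) := by
    rw [Real.sqrt_eq_rpow]
    calc ((k:ℝ) + 1) ^ (1 / 8 : ℝ) ≤ (((m:ℝ) + 1) ^ 4) ^ (1 / 8 : ℝ) :=
          Real.rpow_le_rpow hk0.le h1 (by norm_num)
      _ = ((m:ℝ) + 1) ^ (1 / 2 : ℝ) := by
          rw [← Real.rpow_natCast, ← Real.rpow_mul (by positivity)]; norm_num
  have h3 : ((k:ℝ) + 1) ^ (9 / 8 : ℝ) = ((k:ℝ) + 1) * ((k:ℝ) + 1) ^ (1 / 8 : ℝ) := by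
    rw [show (9 / 8 : ℝ) = 1 + 1 / 8 by norm_num, Real.rpow_add hk0, Real.rpow_one]
  have h4 : ((k:ℝ) + 1) ^ (9 / 8 : ℝ) ≤ ((k:ℝ) + 1) ^ 2 := by
    rw [← Real.rpow_natCast]
    exact Real.rpow_le_rpow_of_exponent_le hk1 (by norm_num)
  have h5 : 0 < ((k:ℝ) + 1) ^ (9 / 8 : ℝ) := Real.rpow_pos_of_pos hk0 _
  have h6 : 0 < ((k:ℝ) + 1) ^ (1 / 8 : ℝ) := Real.rpow_pos_of_pos hk0 _
  rw [add_mul]
  apply add_le_add
  · rw [mul_one_div]
    exact div_le_div_of_nonneg_left (by positivity) h5 h4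
  · rw [h3, div_mul_div_comm, mul_one, mul_one_div]
    apply div_le_div_of_nonneg_left (cA_nonneg d R) (by positivity)
    exact mul_le_mul_of_nonneg_left h2 hk0.le

/-- the two bounds at a bad index -/
theorem bad_bound (L : ℕ → ℕ) (hL : ∀ k, 1 ≤ L k) (R k f : ℕ) (hk : bad L k)
    (hf : hc L k ≤ 3 * (f + (2 * R + 1))) :
    min (64 * (d:ℝ) ^ 2 / ((k:ℝ) + 1) ^ 2 + cA d R / ((k:ℝ) + 1) * (1 / Real.sqrt ((big L k).card + 1)))
      ((1 - 1 / (2 * (d:ℝ))) ^ f) ≤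
    (8 * (64 * (d:ℝ) ^ 2 + cA d R) + Real.exp ((2 * R + 2) / (2 * d)) * (24 * (6 * d) ^ 4)) * (1 / (rk L k : ℝ) ^ 2) := by
  have hd : 1 ≤ d := Nat.pos_of_ne_zero (NeZero.ne d)
  have hd' : (1:ℝ) ≤ d := by exact_mod_cast hd
  obtain ⟨n, hn, hr⟩ := rk_le L hL k hk
  have hrpos : 0 < rk L k := by
    unfold rk
    exact Finset.card_pos.2 ⟨k, by simp [hk]⟩
  set r := rk L k with hrdef
  have hr0 : (0:ℝ) < r := by exact_mod_cast hrpos
  set x : ℝ := Real.sqrt r with hx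
  have hx2 : x ^ 2 = r := Real.sq_sqrt hr0.le
  have hx1 : 1 ≤ x := by
    rw [hx, Real.one_le_sqrt]; exact_mod_cast hrpos
  have hk0 : (0:ℝ) < (k:ℝ) + 1 := by positivity
  have hcA := cA_nonneg d R
  rcases le_or_gt x (hc L (k + 1)) with hcase | hcase
  · -- many classes
    refine le_trans (min_le_right _ _) ?_
    have h1 : (x - 1) / 3 - (2 * R + 1) ≤ f := by
      have h2 := hc_succ L k
      have h3 : (hc L (k + 1) : ℝ) ≤ 3 * (f + (2 * R + 1)) + 1 := by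
        have : hc L (k + 1) ≤ 3 * (f + (2 * R + 1)) + 1 := by omega
        exact_mod_cast this
      linarith
    have h2 : (1 - 1 / (2 * (d:ℝ))) ^ f ≤ Real.exp (-(f / (2 * d))) := by
      have h8 : 1 - 1 / (2 * (d:ℝ)) ≤ Real.exp (-(1 / (2 * d))) := by
        have := Real.add_one_le_exp (-(1 / (2 * (d:ℝ))))
        linarith
      have h9 : 0 ≤ 1 - 1 / (2 * (d:ℝ)) := by
        rw [sub_nonneg, div_le_one (by positivity)]; linarith
      calc (1 - 1 / (2 * (d:ℝ))) ^ f ≤ (Real.exp (-(1 / (2 * d)))) ^ f := pow_le_pow_left₀ h9 h8 f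
        _ = Real.exp (-(f / (2 * d))) := by
            rw [← Real.exp_nat_mul]; congr 1; field_simp
    have h3 : Real.exp (-((f:ℝ) / (2 * d))) ≤ Real.exp ((2 * R + 2) / (2 * d)) * Real.exp (-(x / (6 * d))) := by
      rw [← Real.exp_add]
      apply Real.exp_le_exp.2
      have h4 : -((f:ℝ) / (2 * d)) ≤ -(((x - 1) / 3 - (2 * R + 1)) / (2 * d)) := by
        apply neg_le_neg
        gcongr
      refine le_trans h4 ?_
      have h5 : -(((x - 1) / 3 - (2 * R + 1)) / (2 * (d:ℝ))) = (2 * R + 1 + 1 / 3) / (2 * d) + -(x / (6 * d)) := by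
        field_simp; ring
      rw [h5]
      have h6 : (2 * (R:ℝ) + 1 + 1 / 3) / (2 * d) ≤ (2 * R + 2) / (2 * d) := by
        apply div_le_div_of_nonneg_right _ (by positivity)
        linarith
      linarith
    have h4 : Real.exp (-(x / (6 * d))) ≤ (24 * (6 * d) ^ 4) * (1 / (r:ℝ) ^ 2) := by
      have h5 := Real.pow_div_factorial_le_exp (x / (6 * d)) (by positivity) 4
      rw [Real.exp_neg, inv_eq_one_div, mul_one_div, div_le_div_iff₀ (Real.exp_pos _) (by positivity)]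
      have h6 : (x / (6 * (d:ℝ))) ^ 4 = (r:ℝ) ^ 2 / (6 * d) ^ 4 := by
        rw [div_pow, show x ^ 4 = (x ^ 2) ^ 2 by ring, hx2]
      rw [h6] at h5
      have h7 : ((Nat.factorial 4 : ℕ) : ℝ) = 24 := by norm_num [Nat.factorial]
      rw [h7, div_div, div_le_iff₀ (by positivity)] at h5
      rw [one_mul]
      calc (r:ℝ) ^ 2 ≤ Real.exp (x / (6 * d)) * ((6 * d) ^ 4 * 24) := h5
        _ = _ := by ring
    calc (1 - 1 / (2 * (d:ℝ))) ^ f ≤ Real.exp ((2 * R + 2) / (2 * d)) * Real.exp (-(x / (6 * d))) :=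
          le_trans h2 h3
      _ ≤ Real.exp ((2 * R + 2) / (2 * d)) * ((24 * (6 * d) ^ 4) * (1 / (r:ℝ) ^ 2)) := by gcongr
      _ ≤ _ := by
        rw [add_mul, ← mul_assoc]
        have : 0 ≤ 8 * (64 * (d:ℝ) ^ 2 + cA d R) * (1 / (r:ℝ) ^ 2) := by positivity
        linarith
  · -- few classes
    refine le_trans (min_le_left _ _) ?_
    have h1 : x < n + 1 := by
      by_contra hcon
      push Not at hcon
      have h2 : (r:ℝ) ≤ hc L (k + 1) * (n + 1) := by exact_mod_cast hr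
      have h3 : (hc L (k + 1) : ℝ) * (n + 1) < x * x := by
        have h4 : (0:ℝ) < (n:ℝ) + 1 := by positivity
        calc (hc L (k + 1) : ℝ) * (n + 1) < x * (n + 1) := mul_lt_mul_of_pos_right hcase h4
          _ ≤ x * x := mul_le_mul_of_nonneg_left hcon (by positivity)
      nlinarith
    have h2 : ((n:ℝ)) ^ 4 + 1 ≤ (k:ℝ) + 1 := by
      have : n ^ 4 + 1 ≤ k + 1 := by omega
      exact_mod_cast this
    have h3 : (x - 1) ^ 4 ≤ (n:ℝ) ^ 4 := pow_le_pow_left₀ (by linarith) (by linarith) 4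
    have h4 : (r:ℝ) ^ 2 ≤ 8 * ((k:ℝ) + 1) := by
      have h5 : (r:ℝ) ^ 2 = x ^ 4 := by rw [← hx2]; ring
      rw [h5]
      have h6 : x ^ 4 ≤ 8 * ((x - 1) ^ 4 + 1) := by
        nlinarith [sq_nonneg (x - 2), sq_nonneg (x * (x - 2)), sq_nonneg ((x - 2) * (x - 1)), sq_nonneg x]
      linarith
    have h5 : 1 / Real.sqrt ((big L k).card + 1) ≤ 1 := by
      rw [div_le_one (Real.sqrt_pos.2 (by positivity)), Real.one_le_sqrt]
      have : (0:ℝ) ≤ (big L k).card := by positivity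
      linarith
    have h6 : 64 * (d:ℝ) ^ 2 / ((k:ℝ) + 1) ^ 2 ≤ 64 * d ^ 2 / ((k:ℝ) + 1) := by
      apply div_le_div_of_nonneg_left (by positivity) hk0
      nlinarith
    have h7 : cA d R / ((k:ℝ) + 1) * (1 / Real.sqrt ((big L k).card + 1)) ≤ cA d R / ((k:ℝ) + 1) := by
      have : 0 ≤ cA d R / ((k:ℝ) + 1) := by positivity
      calc _ ≤ cA d R / ((k:ℝ) + 1) * 1 := mul_le_mul_of_nonneg_left h5 this
        _ = _ := mul_one _
    have h8 : 1 / ((k:ℝ) + 1) ≤ 8 * (1 / (r:ℝ) ^ 2) := by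
      rw [mul_one_div, div_le_div_iff₀ hk0 (by positivity)]
      linarith
    calc _ ≤ 64 * (d:ℝ) ^ 2 / ((k:ℝ) + 1) + cA d R / ((k:ℝ) + 1) := add_le_add h6 h7
      _ = (64 * (d:ℝ) ^ 2 + cA d R) * (1 / ((k:ℝ) + 1)) := by ring
      _ ≤ (64 * (d:ℝ) ^ 2 + cA d R) * (8 * (1 / (r:ℝ) ^ 2)) := by gcongr
      _ ≤ _ := by
        have h9 : 0 ≤ Real.exp ((2 * R + 2) / (2 * d)) * (24 * (6 * (d:ℝ)) ^ 4) * (1 / (r:ℝ) ^ 2) := by positivity
        have e : (64 * (d:ℝ) ^ 2 + cA d R) * (8 * (1 / (r:ℝ) ^ 2)) = 8 * (64 * d ^ 2 + cA d R) * (1 / (r:ℝ) ^ 2) := by ring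
        rw [e, add_mul (8 * (64 * (d:ℝ) ^ 2 + cA d R)) _ _]; linarith

end bounds

/-- for every axis there are two other ones -/
theorem two_others (d : ℕ) (hd : 3 ≤ d) (a : Fin d) : ∃ b₁ b₂ : Fin d, a ≠ b₁ ∧ a ≠ b₂ ∧ b₁ ≠ b₂ := by
  by_cases h0 : a.1 = 0
  · exact ⟨⟨1, by omega⟩, ⟨2, by omega⟩, by rw [Ne, Fin.ext_iff]; simp; omega,
      by rw [Ne, Fin.ext_iff]; simp; omega, by rw [Ne, Fin.ext_iff]; simp⟩
  · by_cases h1 : a.1 = 1
    · exact ⟨⟨0, by omega⟩, ⟨2, by omega⟩, by rw [Ne, Fin.ext_iff]; simp; omega,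
        by rw [Ne, Fin.ext_iff]; simp; omega, by rw [Ne, Fin.ext_iff]; simp⟩
    · exact ⟨⟨0, by omega⟩, ⟨1, by omega⟩, by rw [Ne, Fin.ext_iff]; simp; omega,
        by rw [Ne, Fin.ext_iff]; simp; omega, by rw [Ne, Fin.ext_iff]; simp⟩

theorem prob_Vis {d : ℕ} [NeZero d] (hd : 3 ≤ d) (L : ℕ → ℕ) (hL : ∀ k, 1 ≤ L k) (R k : ℕ) :
    dirs d (Vis L R k) ≤ d * ENNReal.ofReal (if bad L k then
      (8 * (64 * d ^ 2 + cA d R) + Real.exp ((2 * R + 2) / (2 * d)) * (24 * (6 * d) ^ 4)) * (1 / (rk L k : ℝ) ^ 2)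
      else (64 * d ^ 2 + cA d R) * (1 / ((k:ℝ) + 1) ^ (9 / 8 : ℝ))) := by
  choose b₁ b₂ hb₁ hb₂ hb₃ using two_others d hd
  have hsub : (Vis L R k : Set (ℕ → Dir d)) ⊆ ⋃ a, Ev L R k a (b₁ a) (b₂ a) := by
    rintro D ⟨t, ht, h⟩
    rw [Set.mem_iUnion]
    refine ⟨(D k).1, ?_, ?_, ?_⟩
    · have := h (b₁ (D k).1)
      have h2 : stepVec (D k) (b₁ (D k).1) = 0 := by
        unfold stepVec; rw [Pi.single_eq_of_ne (Ne.symm (hb₁ _))]
      rw [h2, mul_zero, add_zero] at this; exact this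
    · have := h (b₂ (D k).1)
      have h2 : stepVec (D k) (b₂ (D k).1) = 0 := by
        unfold stepVec; rw [Pi.single_eq_of_ne (Ne.symm (hb₂ _))]
      rw [h2, mul_zero, add_zero] at this; exact this
    · have h1 := h (D k).1
      have h2 := stepVec_abs (D k) (D k).1
      have h3 : (t:ℤ) ≤ L k := by exact_mod_cast ht
      have h4 : |(t:ℤ) * stepVec (D k) (D k).1| ≤ t := by
        rw [abs_mul, Nat.abs_cast]
        calc (t:ℤ) * |stepVec (D k) (D k).1| ≤ t * 1 := mul_le_mul_of_nonneg_left h2 (by positivity)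
          _ = t := mul_one _
      have h5 : XX L D k (D k).1 = (XX L D k (D k).1 + (t:ℤ) * stepVec (D k) (D k).1) - (t:ℤ) * stepVec (D k) (D k).1 := by ring
      show |XX L D k (D k).1| ≤ L k + R
      rw [h5]
      refine le_trans (abs_sub _ _) ?_
      linarith
  refine le_trans (measure_mono hsub) (le_trans (measure_iUnion_fintype_le _ _) ?_)
  have key : ∀ a : Fin d, dirs d (Ev L R k a (b₁ a) (b₂ a)) ≤ ENNReal.ofReal (if bad L k then
      (8 * (64 * d ^ 2 + cA d R) + Real.exp ((2 * R + 2) / (2 * d)) * (24 * (6 * d) ^ 4)) * (1 / (rk L k : ℝ) ^ 2)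
      else (64 * d ^ 2 + cA d R) * (1 / ((k:ℝ) + 1) ^ (9 / 8 : ℝ))) := by
    intro a
    have h1 := prob_Ev' L hL R k a (b₁ a) (b₂ a) (hb₁ a) (hb₂ a) (hb₃ a)
    split_ifs with hbad
    · obtain ⟨F, hF, hlac, hcard⟩ := exists_lac L hL R k
      have h2 : dirs d (Ev L R k a (b₁ a) (b₂ a)) ≤ ENNReal.ofReal ((1 - 1 / (2 * d)) ^ F.card) :=
        le_trans (measure_mono fun D hD => hD.1) (prob_lac L R k F hF hlac (b₁ a))
      have h3 := le_min h1 h2
      rw [← ENNReal.ofReal_min] at h3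
      exact le_trans h3 (ENNReal.ofReal_le_ofReal (bad_bound L hL R k F.card hbad hcard))
    · exact le_trans h1 (ENNReal.ofReal_le_ofReal (good_bound L R k hbad))
  refine le_trans (Finset.sum_le_sum fun a _ => key a) ?_
  rw [Finset.sum_const, Finset.card_univ, Fintype.card_fin, nsmul_eq_mul]

theorem summable_bound (L : ℕ → ℕ) (C₁ C₂ : ℝ) :
    Summable fun k : ℕ => if bad L k then C₁ * (1 / (rk L k : ℝ) ^ 2) else C₂ * (1 / ((k:ℝ) + 1) ^ (9 / 8 : ℝ)) := by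
  have h1 : Summable fun k : ℕ => C₂ * (1 / ((k:ℝ) + 1) ^ (9 / 8 : ℝ)) := by
    apply Summable.mul_left
    have h2 : Summable fun n : ℕ => 1 / (n : ℝ) ^ (9 / 8 : ℝ) :=
      Real.summable_one_div_nat_rpow.2 (by norm_num)
    have h3 := (summable_nat_add_iff 1).2 h2
    refine h3.congr fun k => ?_
    push_cast; rfl
  have h2 : Summable fun n : ℕ => C₁ * (1 / (n : ℝ) ^ 2) :=
    (Real.summable_one_div_nat_pow.2 (by norm_num)).mul_left _
  have h3 : Summable ({k | bad L k}.indicator fun k : ℕ => C₁ * (1 / (rk L k : ℝ) ^ 2)) := by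
    rw [← summable_subtype_iff_indicator]
    have hinj : Function.Injective fun k : {k | bad L k} => rk L k.1 := by
      rintro ⟨j, hj⟩ ⟨k, hk⟩ he
      have he' : rk L j = rk L k := he
      rw [Subtype.mk.injEq]
      rcases lt_trichotomy j k with h | h | h
      · exact absurd he' (ne_of_lt (rk_inj L hk h))
      · exact h
      · exact absurd he'.symm (ne_of_lt (rk_inj L hj h))
    exact h2.comp_injective hinj
  have h4 : Summable ({k | bad L k}ᶜ.indicator fun k : ℕ => C₂ * (1 / ((k:ℝ) + 1) ^ (9 / 8 : ℝ))) :=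
    h1.indicator _
  refine (h3.add h4).congr fun k => ?_
  by_cases hb : bad L k
  · rw [if_pos hb, Set.indicator_of_mem (show k ∈ {k | bad L k} from hb),
      Set.indicator_of_notMem (by intro h; exact h hb), add_zero]
  · rw [if_neg hb, Set.indicator_of_notMem (show k ∉ {k | bad L k} from hb),
      Set.indicator_of_mem (show k ∈ {k | bad L k}ᶜ from hb), zero_add]

/-- deterministic block lengths, `d ≥ 3`: almost surely only finitely many blocks visit a ball -/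
theorem ae_no_vis {d : ℕ} [NeZero d] (hd : 3 ≤ d) (L : ℕ → ℕ) (hL : ∀ k, 1 ≤ L k) (R : ℕ) :
    ∀ᵐ D ∂(dirs d), ∀ᶠ k in atTop, D ∉ Vis L R k := by
  apply ae_eventually_notMem
  refine ne_top_of_le_ne_top ?_ (ENNReal.tsum_le_tsum fun k => prob_Vis hd L hL R k)
  rw [ENNReal.tsum_mul_left]
  apply ENNReal.mul_ne_top (by simp)
  have h := summable_bound L (8 * (64 * d ^ 2 + cA d R) + Real.exp ((2 * R + 2) / (2 * d)) * (24 * (6 * d) ^ 4))
    (64 * d ^ 2 + cA d R)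
  exact h.tsum_ofReal_ne_top

end R975.CW
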