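import Pool.Agent.R975.CW.Rec

set_option autoImplicit false

/-!
Independence tools for the conservative walk, and the lower bound for the probability of a visit of
`0` during a period of simple random walk.
-/

namespace R975.CW

open MeasureTheory ProbabilityTheory Filter

variable {d : ℕ}

theorem Y_congr {ω ω' : ℕ → Bool × Dir d} (n : ℕ) (h : ∀ i ≤ n, ω i = ω' i) : Y ω n = Y ω' n := by
  induction n with
  | zero => simp [Y, h 0 le_rfl]
  | succ n ih =>
    simp only [Y]
    rw [h (n + 1) le_rfl, ih (fun i hi => h i (by omega))]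

theorem S_congr {ω ω' : ℕ → Bool × Dir d} (n : ℕ) (h : ∀ i < n, ω i = ω' i) : S ω n = S ω' n := by
  unfold S
  apply Finset.sum_congr rfl
  intro i hi
  rw [Y_congr i (fun j hj => h j (by have := Finset.mem_range.1 hi; omega))]

theorem Y_fresh {ω : ℕ → Bool × Dir d} {n : ℕ} (h : (ω n).1 = true) : Y ω n = (ω n).2 := by
  cases n with
  | zero => rfl
  | succ n => simp [Y, h]

theorem Y_keep {ω : ℕ → Bool × Dir d} {n : ℕ} (h : (ω (n + 1)).1 = false) : Y ω (n + 1) = Y ω n := by
  simp [Y, h]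

/-- a straight run -/
theorem S_run {ω : ℕ → Bool × Dir d} {s ℓ : ℕ} (hs : (ω s).1 = true)
    (h : ∀ t, s < t → t < s + ℓ → (ω t).1 = false) (t : ℕ) (ht : t ≤ ℓ) :
    S ω (s + t) = S ω s + (t : ℤ) • stepVec (ω s).2 := by
  have hY : ∀ t, t < ℓ → Y ω (s + t) = (ω s).2 := by
    intro t ht
    induction t with
    | zero => exact Y_fresh hs
    | succ t ih =>
      rw [← add_assoc, Y_keep (h (s + t + 1) (by omega) (by omega))]
      exact ih (by omega)
  induction t with
  | zero => simp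
  | succ t ih =>
    rw [← add_assoc, S_succ, ih (by omega), hY t (by omega)]
    push_cast
    rw [add_smul, one_smul, add_assoc]

theorem stepVec_abs (u : Dir d) (i : Fin d) : |stepVec u i| ≤ 1 := by
  unfold stepVec
  by_cases h : i = u.1
  · subst h; simp only [Pi.single_eq_same]; split_ifs <;> simp
  · rw [Pi.single_eq_of_ne h]; simp

theorem S_lip (ω : ℕ → Bool × Dir d) (m t : ℕ) (i : Fin d) : |S ω (m + t) i - S ω m i| ≤ t := by
  induction t with
  | zero => simp
  | succ t ih =>
    rw [← add_assoc, S_succ]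
    have h1 := stepVec_abs (Y ω (m + t)) i
    have h2 : S ω (m + t) i + stepVec (Y ω (m + t)) i - S ω m i =
      (S ω (m + t) i - S ω m i) + stepVec (Y ω (m + t)) i := by ring
    rw [Pi.add_apply, h2]
    refine le_trans (abs_add_le _ _) ?_
    push_cast
    linarith

theorem S_abs (ω : ℕ → Bool × Dir d) (m : ℕ) (i : Fin d) : |S ω m i| ≤ m := by
  have := S_lip ω 0 m i
  simpa [S_zero] using this

theorem pre_S (n : ℕ) (B : Set (Fin d → ℤ)) : Pre n {ω : ℕ → Bool × Dir d | S ω n ∈ B} := by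
  intro ω ω' h hω
  simp only [Set.mem_ofPred_eq] at hω ⊢
  rwa [← S_congr n h]

theorem pre_coord {X : Type*} (n : ℕ) (C : Set X) : Pre (n + 1) {ω : ℕ → X | ω n ∈ C} := by
  intro ω ω' h hω
  simp only [Set.mem_ofPred_eq] at hω ⊢
  rwa [← h n (Nat.lt_succ_self n)]

section measure

variable [NeZero d] (p : ℕ → unitInterval)

theorem crw_indep {m n : ℕ} (hmn : m ≤ n) {G : Set (ℕ → Bool × Dir d)} (h : Pre m G)
    (C : Set (Bool × Dir d)) :
    crw d p (G ∩ {ω | ω n ∈ C}) = crw d p G * ((coin (p n)).prod (unif d)) C :=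
  h.indep _ hmn C

theorem crw_dir {m n : ℕ} (hmn : m ≤ n) {G : Set (ℕ → Bool × Dir d)} (h : Pre m G)
    (C : Set (Dir d)) :
    crw d p (G ∩ {ω | (ω n).2 ∈ C}) = crw d p G * unif d C := by
  have h1 := crw_indep p hmn h {x | x.2 ∈ C}
  have h2 : ({x | x.2 ∈ C} : Set (Bool × Dir d)) = Set.univ ×ˢ C := by ext x; simp
  rw [h2, Measure.prod_prod, measure_univ, one_mul] at h1
  rw [← h1]
  congr 1
  ext ω; simp

theorem coin_one_true : coin 1 {true} = 1 := by
  simp [coin]

theorem coin_one_false : coin 1 {false} = 0 := by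
  simp [coin]

theorem coin_zero_true : coin 0 {true} = 0 := by
  simp [coin]

open Classical in
/-- the parameters with values in `{0, 1}` -/
noncomputable def ind01 (R : ℕ → Prop) (n : ℕ) : unitInterval := if R n then 1 else 0

theorem coin_ae (R : ℕ → Prop) :
    ∀ᵐ ω ∂(crw d (ind01 R)), ∀ n, ((ω n).1 = true ↔ R n) := by
  rw [ae_all_iff]
  intro n
  rw [ae_iff]
  have h1 := crw_indep (d := d) (ind01 R) (m := 0) (n := n) (Nat.zero_le n) (G := Set.univ)
    (fun _ _ _ _ => trivial) {x | ¬ (x.1 = true ↔ R n)}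
  rw [Set.univ_inter, measure_univ, one_mul] at h1
  have h3 : {ω : ℕ → Bool × Dir d | ¬ ((ω n).1 = true ↔ R n)} =
    {ω | ω n ∈ {x : Bool × Dir d | ¬ (x.1 = true ↔ R n)}} := rfl
  rw [h3, h1]
  by_cases hR : R n
  · have h2 : ({x | ¬ (x.1 = true ↔ R n)} : Set (Bool × Dir d)) = {false} ×ˢ Set.univ := by
      ext x; simp [hR]
    rw [h2, Measure.prod_prod]
    have : ind01 R n = 1 := by simp [ind01, hR]
    rw [this, coin_one_false, zero_mul]
  · have h2 : ({x | ¬ (x.1 = true ↔ R n)} : Set (Bool × Dir d)) = {true} ×ˢ Set.univ := by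
      ext x; simp [hR]
    rw [h2, Measure.prod_prod]
    have : ind01 R n = 0 := by simp [ind01, hR]
    rw [this, coin_zero_true, zero_mul]

end measure

theorem unif2_singleton (u : Dir 2) : unif 2 {u} = 1 / 4 := by
  unfold unif
  rw [PMF.toMeasure_uniformOfFintype_apply _ (Set.toFinite _).measurableSet]
  simp

theorem unif2_axis (i : Fin 2) : unif 2 {u | u.1 = i} = 1 / 2 := by
  have h : ({u | u.1 = i} : Set (Dir 2)) = {(i, true)} ∪ {(i, false)} := by
    ext u; rcases u with ⟨j, b⟩; cases b <;> simp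
  rw [h, measure_union (by simp) (MeasurableSet.singleton _), unif2_singleton, unif2_singleton]
  rw [← ENNReal.toReal_eq_toReal_iff' (by finiteness) (by finiteness),
    ENNReal.toReal_add (by finiteness) (by finiteness)]
  norm_num

/-- the event of a visit of `0` at one of the times `m + 1, …, m + n` -/
def Hit (m n : ℕ) : Set (ℕ → Bool × Dir 2) := {ω | ∃ t, 1 ≤ t ∧ t ≤ n ∧ S ω (m + t) = 0}

theorem pre_Hit (m n : ℕ) : Pre (m + n) (Hit m n) := by
  rintro ω ω' h ⟨t, h1, h2, h3⟩
  refine ⟨t, h1, h2, ?_⟩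
  rw [← S_congr (m + t) (fun i hi => h i (by omega))]
  exact h3

theorem hit_lower_pt (p : ℕ → unitInterval) (n : ℕ) : ∀ (m : ℕ) (G : Set (ℕ → Bool × Dir 2)) (x : P2),
    Pre m G → (∀ ω ∈ G, S ω m = x) → (∀ i, m ≤ i → i < m + n → p i = 1) →
    ENNReal.ofReal (hn n x) * crw 2 p G ≤ crw 2 p (G ∩ Hit m n) := by
  induction n with
  | zero => intro m G x _ _ _; simp [hn]
  | succ n ih =>
    intro m G x hG hx hp
    let A : Dir 2 → ℝ := fun u => if x + stepVec u = 0 then (1:ℝ) else hn n (x + stepVec u)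
    let Gu : Dir 2 → Set (ℕ → Bool × Dir 2) := fun u => G ∩ {ω | ω m ∈ ({(true, u)} : Set (Bool × Dir 2))}
    have hGu : ∀ u, Pre (m + 1) (Gu u) := fun u =>
      (hG.mono (Nat.le_succ m)).inter (pre_coord m _)
    have hmu : ∀ u, crw 2 p (Gu u) = crw 2 p G * (1 / 4) := by
      intro u
      have := crw_indep p (le_refl m) hG {(true, u)}
      rw [this]
      congr 1
      have h2 : ({(true, u)} : Set (Bool × Dir 2)) = {true} ×ˢ {u} := by simp
      rw [h2, Measure.prod_prod, hp m le_rfl (by omega), coin_one_true, one_mul, unif2_singleton]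
    have hS : ∀ u, ∀ ω ∈ Gu u, S ω (m + 1) = x + stepVec u := by
      rintro u ω ⟨h1, h2⟩
      have h3 : ω m = (true, u) := h2
      rw [S_succ, hx ω h1, Y_fresh (by rw [h3]), h3]
    have hA0 : ∀ u, 0 ≤ A u := by
      intro u; simp only [A]; split_ifs
      · norm_num
      · exact hn_nonneg _ _
    have key : ∀ u, ENNReal.ofReal (A u) * crw 2 p (Gu u) ≤ crw 2 p (Gu u ∩ Hit m (n + 1)) := by
      intro u
      by_cases h0 : x + stepVec u = 0
      · have : Gu u ∩ Hit m (n + 1) = Gu u := by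
          apply Set.inter_eq_left.2
          intro ω hω
          exact ⟨1, le_refl _, by omega, by rw [hS u ω hω, h0]⟩
        rw [this]
        simp only [A, if_pos h0]
        simp
      · simp only [A, if_neg h0]
        refine le_trans (ih (m + 1) (Gu u) (x + stepVec u) (hGu u) (hS u)
          (fun i h1 h2 => hp i (by omega) (by omega))) ?_
        apply measure_mono
        rintro ω ⟨h1, t, h2, h3, h4⟩
        exact ⟨h1, t + 1, by omega, by omega, by rw [← h4]; congr 1; ring⟩
    have hsum : ∑ u : Dir 2, crw 2 p (Gu u ∩ Hit m (n + 1)) ≤ crw 2 p (G ∩ Hit m (n + 1)) := by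
      rw [← measure_biUnion_finset]
      · apply measure_mono
        intro ω hω
        simp only [Finset.mem_univ, Set.iUnion_true, Set.mem_iUnion] at hω
        obtain ⟨u, h1, h2⟩ := hω
        exact ⟨h1.1, h2⟩
      · intro u _ v _ huv
        rw [Function.onFun, Set.disjoint_left]
        rintro ω ⟨⟨_, h1⟩, _⟩ ⟨⟨_, h2⟩, _⟩
        apply huv
        have h3 : ω m = (true, u) := h1
        have h4 : ω m = (true, v) := h2
        rw [h3] at h4
        exact (Prod.mk.inj h4).2
      · intro u _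
        exact (((hGu u).mono (show m + 1 ≤ m + (n + 1) by omega)).inter (pre_Hit m (n + 1))).measurable
    refine le_trans (le_of_eq ?_) (le_trans (Finset.sum_le_sum fun u _ => key u) hsum)
    simp only [hmu]
    rw [← Finset.sum_mul, ← ENNReal.ofReal_sum_of_nonneg (fun u _ => hA0 u)]
    have h5 : hn (n + 1) x = (∑ u : Dir 2, A u) / 4 := rfl
    rw [h5, ENNReal.ofReal_div_of_pos (by norm_num), mul_comm (crw 2 p G) (1 / 4), ← mul_assoc]
    congr 1
    rw [ENNReal.div_eq_inv_mul, mul_comm, one_div]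
    norm_num

theorem hit_lower (p : ℕ → unitInterval) (n m : ℕ) (G : Set (ℕ → Bool × Dir 2)) (c : ℝ)
    (hG : Pre m G) (hc : ∀ ω ∈ G, c ≤ hn n (S ω m)) (hp : ∀ i, m ≤ i → i < m + n → p i = 1) :
    ENNReal.ofReal c * crw 2 p G ≤ crw 2 p (G ∩ Hit m n) := by
  let B : Finset P2 := Fintype.piFinset fun _ => Finset.Icc (-(m:ℤ)) m
  have hB : ∀ ω : ℕ → Bool × Dir 2, S ω m ∈ B := by
    intro ω
    rw [Fintype.mem_piFinset]
    intro i
    rw [Finset.mem_Icc]
    exact abs_le.1 (S_abs ω m i)
  let Gx : P2 → Set (ℕ → Bool × Dir 2) := fun x => G ∩ {ω | S ω m ∈ ({x} : Set P2)}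
  have hGx : ∀ x, Pre m (Gx x) := fun x => hG.inter (pre_S m _)
  have h1 : crw 2 p G = ∑ x ∈ B, crw 2 p (Gx x) := by
    rw [← measure_biUnion_finset]
    · congr 1
      ext ω
      simp only [Set.mem_iUnion]
      constructor
      · intro h; exact ⟨S ω m, hB ω, h, rfl⟩
      · rintro ⟨x, _, h, _⟩; exact h
    · intro x _ y _ hxy
      rw [Function.onFun, Set.disjoint_left]
      rintro ω ⟨_, h1⟩ ⟨_, h2⟩
      apply hxy
      rw [← (show S ω m = x from h1), ← (show S ω m = y from h2)]
    · intro x _; exact (hGx x).measurable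
  have h2 : ∑ x ∈ B, crw 2 p (Gx x ∩ Hit m n) ≤ crw 2 p (G ∩ Hit m n) := by
    rw [← measure_biUnion_finset]
    · apply measure_mono
      intro ω hω
      simp only [Set.mem_iUnion] at hω
      obtain ⟨x, _, h, h'⟩ := hω
      exact ⟨h.1, h'⟩
    · intro x _ y _ hxy
      rw [Function.onFun, Set.disjoint_left]
      rintro ω ⟨⟨_, h1⟩, _⟩ ⟨⟨_, h2⟩, _⟩
      apply hxy
      rw [← (show S ω m = x from h1), ← (show S ω m = y from h2)]
    · intro x _
      exact (((hGx x).mono (show m ≤ m + n by omega)).inter (pre_Hit m n)).measurable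
  rw [h1, Finset.mul_sum]
  refine le_trans (Finset.sum_le_sum fun x _ => ?_) h2
  by_cases hne : (Gx x).Nonempty
  · obtain ⟨ω, hω, hx⟩ := hne
    have hx' : S ω m = x := hx
    have h3 : c ≤ hn n x := by rw [← hx']; exact hc ω hω
    refine le_trans (mul_le_mul_left (ENNReal.ofReal_le_ofReal h3) _) ?_
    exact hit_lower_pt p n m (Gx x) x (hGx x) (fun ω hω => hω.2) hp
  · rw [Set.not_nonempty_iff_eq_empty.1 hne]; simp

end R975.CW
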