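import Pool.Agent.R975.CW.Tools

set_option autoImplicit false

/-!
The plane: strong transience is not monotone in the parameters.
-/

namespace R975.CW

open MeasureTheory ProbabilityTheory Filter Finset

/-- the duration of the period of simple random walk -/
noncomputable def nn (a : ℕ) : ℕ := Classical.choose (srw_hits a)

theorem nn_spec (a : ℕ) : ∀ x : P2, (∀ i, |x i| ≤ a) → 1 / 2 ≤ hn (nn a) x :=
  Classical.choose_spec (srw_hits a)

def gs (j : ℕ) : ℕ := ∑ i ∈ range j, 3 ^ i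

theorem gs_succ (j : ℕ) : gs (j + 1) = gs j + 3 ^ j := by rw [gs, sum_range_succ]; rfl

theorem gs_zero : gs 0 = 0 := rfl

theorem gs_two (j : ℕ) : 2 * gs j + 1 = 3 ^ j := by
  induction j with
  | zero => rfl
  | succ j ih => rw [gs_succ, pow_succ]; omega

theorem gs_strict : StrictMono gs := strictMono_nat_of_lt_succ fun j => by
  rw [gs_succ]; have : 0 < 3 ^ j := by positivity
  omega

/-- starting times of the stages -/
noncomputable def aa : ℕ → ℕ
  | 0 => 0
  | j + 1 => aa j + 2 * ((aa j + nn (aa j) + j + 1) * gs (j + 1)) + nn (aa j)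

noncomputable def QQ (j : ℕ) : ℕ := aa j + nn (aa j) + j + 1

noncomputable def GG (j : ℕ) : ℕ := QQ j * gs (j + 1)

/-- starting times of the pieces -/
noncomputable def ss (j i : ℕ) : ℕ := aa j + GG j + QQ j * gs i

theorem aa_succ (j : ℕ) : aa (j + 1) = aa j + 2 * GG j + nn (aa j) := rfl

theorem QQ_pos (j : ℕ) : 1 ≤ QQ j := by unfold QQ; omega

theorem GG_pos (j : ℕ) : 1 ≤ GG j := by
  unfold GG
  have h1 := QQ_pos j
  have h2 : 1 ≤ gs (j + 1) := by rw [gs_succ]; have : 0 < 3 ^ j := by positivity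
                                 omega
  exact Nat.mul_pos h1 h2

theorem aa_strict : StrictMono aa := strictMono_nat_of_lt_succ fun j => by
  rw [aa_succ]; have := GG_pos j; omega

theorem ss_zero (j : ℕ) : ss j 0 = aa j + GG j := by simp [ss, gs_zero]

theorem ss_last (j : ℕ) : ss j (j + 1) = aa j + 2 * GG j := by unfold ss GG; ring

theorem ss_succ (j i : ℕ) : ss j (i + 1) = ss j i + QQ j * 3 ^ i := by
  unfold ss; rw [gs_succ]; ring

theorem ss_strict (j : ℕ) : StrictMono (ss j) := strictMono_nat_of_lt_succ fun i => by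
  rw [ss_succ]; have h1 := QQ_pos j
  have : 0 < QQ j * 3 ^ i := by positivity
  omega

/-- refresh times of the finer walk -/
def Rp (n : ℕ) : Prop := ∃ j, n = aa j ∨ (∃ i ≤ j, n = ss j i) ∨ (aa j + 2 * GG j ≤ n ∧ n < aa (j + 1))

/-- refresh times of the coarser walk -/
def Rq (n : ℕ) : Prop := ∃ j, n = aa j ∨ n = ss j 0 ∨ (aa j + 2 * GG j ≤ n ∧ n < aa (j + 1))

theorem Rq_Rp {n : ℕ} (h : Rq n) : Rp n := by
  obtain ⟨j, h | h | h⟩ := h
  · exact ⟨j, Or.inl h⟩
  · exact ⟨j, Or.inr (Or.inl ⟨0, Nat.zero_le _, h⟩)⟩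
  · exact ⟨j, Or.inr (Or.inr h)⟩

theorem stage_unique {j k n : ℕ} (h1 : aa j ≤ n) (h2 : n < aa (j + 1)) (h3 : aa k ≤ n)
    (h4 : n < aa (k + 1)) : j = k := by
  have h5 : j < k + 1 := aa_strict.lt_iff_lt.1 (lt_of_le_of_lt h1 h4)
  have h6 : k < j + 1 := aa_strict.lt_iff_lt.1 (lt_of_le_of_lt h3 h2)
  omega

theorem ss_lt {j i : ℕ} (h : i ≤ j) : aa j + GG j ≤ ss j i ∧ ss j i < aa j + 2 * GG j := by
  constructor
  · unfold ss; omega
  · rw [← ss_last]; exact ss_strict j (by omega)

theorem Rp_local {j n : ℕ} (h1 : aa j ≤ n) (h2 : n < aa (j + 1)) (h : Rp n) :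
    n = aa j ∨ (∃ i ≤ j, n = ss j i) ∨ aa j + 2 * GG j ≤ n := by
  obtain ⟨k, h | ⟨i, hi, h⟩ | h⟩ := h
  · have hk : j = k := stage_unique h1 h2 (le_of_eq h.symm) (by rw [h]; exact aa_strict (Nat.lt_succ_self k))
    subst hk; exact Or.inl h
  · have h5 := ss_lt hi
    have h6 := aa_succ k
    have hk : j = k := stage_unique h1 h2 (by omega) (by omega)
    subst hk; exact Or.inr (Or.inl ⟨i, hi, h⟩)
  · have hk : j = k := stage_unique h1 h2 (by omega) h.2
    subst hk; exact Or.inr (Or.inr h.1)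

theorem Rq_local {j n : ℕ} (h1 : aa j ≤ n) (h2 : n < aa (j + 1)) (h : Rq n) :
    n = aa j ∨ n = ss j 0 ∨ aa j + 2 * GG j ≤ n := by
  obtain ⟨k, h | h | h⟩ := h
  · have hk : j = k := stage_unique h1 h2 (le_of_eq h.symm) (by rw [h]; exact aa_strict (Nat.lt_succ_self k))
    subst hk; exact Or.inl h
  · have h5 := ss_lt (Nat.zero_le k)
    have h6 := aa_succ k
    have hk : j = k := stage_unique h1 h2 (by omega) (by omega)
    subst hk; exact Or.inr (Or.inl h)
  · have hk : j = k := stage_unique h1 h2 (by omega) h.2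
    subst hk; exact Or.inr (Or.inr h.1)

/-! ### the path of the finer walk -/

section path

variable {ω : ℕ → Bool × Dir 2} (hω : ∀ n, ((ω n).1 = true ↔ Rp n))

include hω

theorem coin_false {n : ℕ} (h : ¬ Rp n) : (ω n).1 = false := by
  rcases hb : (ω n).1 with _ | _
  · rfl
  · exact absurd ((hω n).1 hb) h

theorem path_first (j t : ℕ) (ht : t ≤ GG j) :
    S ω (aa j + t) = S ω (aa j) + (t : ℤ) • stepVec (ω (aa j)).2 := by
  apply S_run ((hω _).2 ⟨j, Or.inl rfl⟩) _ t ht
  intro n h1 h2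
  apply coin_false hω
  intro h
  have h0 := aa_succ j
  have hg := GG_pos j
  rcases Rp_local (j := j) (by omega) (by omega) h with h | ⟨i, hi, h⟩ | h
  · omega
  · have := ss_lt hi; omega
  · omega

theorem path_piece (j i t : ℕ) (hi : i ≤ j) (ht : t ≤ QQ j * 3 ^ i) :
    S ω (ss j i + t) = S ω (ss j i) + (t : ℤ) • stepVec (ω (ss j i)).2 := by
  apply S_run ((hω _).2 ⟨j, Or.inr (Or.inl ⟨i, hi, rfl⟩)⟩) _ t ht
  intro n h1 h2
  apply coin_false hω
  intro h
  have h0 := aa_succ j
  have h3 := ss_lt hi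
  have h4 := ss_succ j i
  have h5 : ss j (i + 1) ≤ ss j (j + 1) := (ss_strict j).monotone (by omega)
  have h6 := ss_last j
  rcases Rp_local (j := j) (by omega) (by omega) h with h | ⟨k, hk, h⟩ | h
  · omega
  · have h7 : i < k := (ss_strict j).lt_iff_lt.1 (by omega)
    have h8 : k < i + 1 := (ss_strict j).lt_iff_lt.1 (by omega)
    omega
  · omega

theorem path_ends (j i : ℕ) (hi : i ≤ j + 1) :
    S ω (ss j i) = S ω (aa j) + (GG j : ℤ) • stepVec (ω (aa j)).2 +
      (QQ j : ℤ) • ∑ l ∈ range i, (3:ℤ) ^ l • stepVec (ω (ss j l)).2 := by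
  induction i with
  | zero => rw [ss_zero, path_first hω j _ le_rfl]; simp
  | succ i ih =>
    rw [ss_succ, path_piece hω j i _ (by omega) le_rfl, ih (by omega), sum_range_succ, smul_add,
      smul_smul]
    push_cast
    rw [add_assoc]

omit hω in
theorem step_vals (u : Dir 2) (i : Fin 2) : stepVec u i = -1 ∨ stepVec u i = 0 ∨ stepVec u i = 1 := by
  have := stepVec_abs u i
  rw [abs_le] at this
  omega

omit hω in
theorem stepVec_axis (u : Dir 2) : stepVec u u.1 = if u.2 then 1 else -1 := by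
  simp [stepVec]

omit hω in
theorem stepVec_off (u : Dir 2) {i : Fin 2} (h : i ≠ u.1) : stepVec u i = 0 := by
  unfold stepVec; rw [Pi.single_eq_of_ne h]

omit hω in
/-- balanced ternary expansions do not vanish -/
theorem ternary (η : ℕ → ℤ) (hη : ∀ l, η l = -1 ∨ η l = 0 ∨ η l = 1) (m : ℕ) :
    |∑ l ∈ range m, (3:ℤ) ^ l * η l| ≤ gs m ∧
      ((∃ l < m, η l ≠ 0) → ∑ l ∈ range m, (3:ℤ) ^ l * η l ≠ 0) := by
  induction m with
  | zero => simp [gs_zero]
  | succ m ih =>
    obtain ⟨ih1, ih2⟩ := ih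
    rw [sum_range_succ, gs_succ]
    have h2 : 2 * (gs m : ℤ) + 1 = 3 ^ m := by exact_mod_cast gs_two m
    have h3 := abs_le.1 ih1
    push_cast
    rcases hη m with h | h | h
    · rw [h]
      constructor
      · rw [abs_le]; constructor <;> linarith
      · intro _ h0; linarith
    · rw [h, mul_zero, add_zero]
      constructor
      · have : (0:ℤ) < 3 ^ m := by positivity
        linarith
      · rintro ⟨l, hl, hl'⟩
        apply ih2
        refine ⟨l, ?_, hl'⟩
        rcases Nat.lt_succ_iff_lt_or_eq.1 hl with h' | h'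
        · exact h'
        · subst h'; exact absurd h hl'
    · rw [h]
      constructor
      · rw [abs_le]; constructor <;> linarith
      · intro _ h0; linarith

/-- the good event of stage `j`: not all pieces are on the axis of the first run -/
def good (j : ℕ) (ω : ℕ → Bool × Dir 2) : Prop := ∃ i ≤ j, (ω (ss j i)).2.1 ≠ (ω (aa j)).2.1

/-- during the pieces the coordinate of the first run is large -/
theorem pieces_large (j i t : ℕ) (hi : i ≤ j) (ht : t ≤ QQ j * 3 ^ i) (hg : good j ω) :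
    (QQ j : ℤ) ≤ |S ω (ss j i + t) (ω (aa j)).2.1 - S ω (aa j) (ω (aa j)).2.1| := by
  set α := (ω (aa j)).2.1 with hα
  set σ : ℤ := stepVec (ω (aa j)).2 α with hσ
  have hσ1 : σ = 1 ∨ σ = -1 := by
    rw [hσ, hα, stepVec_axis]; split_ifs <;> simp
  have hσσ : σ * σ = 1 := by rcases hσ1 with h | h <;> rw [h] <;> norm_num
  let η : ℕ → ℤ := fun l => σ * stepVec (ω (ss j l)).2 α
  have hη : ∀ l, η l = -1 ∨ η l = 0 ∨ η l = 1 := by
    intro l
    simp only [η]
    rcases hσ1 with h | h <;> rcases step_vals (ω (ss j l)).2 α with h' | h' | h' <;> rw [h, h'] <;> simp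
  let c : ℕ → ℤ := fun i => gs (j + 1) + ∑ l ∈ range i, (3:ℤ) ^ l * η l
  have hval : ∀ i ≤ j + 1, σ * (S ω (ss j i) α - S ω (aa j) α) = QQ j * c i := by
    intro i hi
    rw [path_ends hω j i hi]
    simp only [Pi.add_apply, Pi.smul_apply, Finset.sum_apply, smul_eq_mul, c, η]
    have h1 : σ * (S ω (aa j) α + (GG j : ℤ) * stepVec (ω (aa j)).2 α +
        (QQ j : ℤ) * ∑ l ∈ range i, (3:ℤ) ^ l * stepVec (ω (ss j l)).2 α - S ω (aa j) α) =
        (GG j : ℤ) * (σ * σ) + (QQ j : ℤ) * (σ * ∑ l ∈ range i, (3:ℤ) ^ l * stepVec (ω (ss j l)).2 α) := by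
      rw [← hσ]; ring
    rw [h1, hσσ, Finset.mul_sum]
    have h2 : ∑ l ∈ range i, σ * ((3:ℤ) ^ l * stepVec (ω (ss j l)).2 α) =
        ∑ l ∈ range i, (3:ℤ) ^ l * (σ * stepVec (ω (ss j l)).2 α) :=
      Finset.sum_congr rfl fun l _ => by ring
    rw [h2]
    unfold GG
    push_cast
    ring
  have hc : ∀ i ≤ j + 1, 1 ≤ c i := by
    intro i hi
    rcases Nat.lt_or_ge i (j + 1) with h | h
    · have h1 := (ternary η hη i).1
      have h2 := abs_le.1 h1
      have h3 : gs i < gs (j + 1) := gs_strict h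
      simp only [c]
      have h4 : (gs i : ℤ) < gs (j + 1) := by exact_mod_cast h3
      linarith
    · have hij : i = j + 1 := by omega
      subst hij
      simp only [c]
      have h1 : (gs (j + 1) : ℤ) + ∑ l ∈ range (j + 1), (3:ℤ) ^ l * η l =
          ∑ l ∈ range (j + 1), (3:ℤ) ^ l * (1 + η l) := by
        unfold gs; push_cast; rw [← Finset.sum_add_distrib]
        exact Finset.sum_congr rfl fun l _ => by ring
      rw [h1]
      obtain ⟨l, hl, hl'⟩ := hg
      have h2 : η l = 0 := by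
        simp only [η]; rw [stepVec_off _ (Ne.symm hl'), mul_zero]
      calc (1:ℤ) ≤ 3 ^ l * (1 + η l) := by
            rw [h2]; simp only [add_zero, mul_one]; exact one_le_pow₀ (by norm_num)
        _ ≤ ∑ l ∈ range (j + 1), (3:ℤ) ^ l * (1 + η l) :=
            Finset.single_le_sum (f := fun l => (3:ℤ) ^ l * (1 + η l))
              (fun i _ => by
                have : 0 ≤ 1 + η i := by rcases hη i with h | h | h <;> rw [h] <;> norm_num
                positivity) (Finset.mem_range.2 (by omega))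
  have hv : σ * (S ω (ss j i + t) α - S ω (aa j) α) = QQ j * c i + t * η i := by
    rw [path_piece hω j i t hi ht]
    simp only [Pi.add_apply, Pi.smul_apply, smul_eq_mul]
    have h1 : σ * (S ω (ss j i) α + (t : ℤ) * stepVec (ω (ss j i)).2 α - S ω (aa j) α) =
      σ * (S ω (ss j i) α - S ω (aa j) α) + t * (σ * stepVec (ω (ss j i)).2 α) := by ring
    rw [h1, hval i (by omega)]
  have hlow : (QQ j : ℤ) ≤ σ * (S ω (ss j i + t) α - S ω (aa j) α) := by
    rw [hv]
    have hQ : (0:ℤ) ≤ QQ j := by positivity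
    have ht0 : (0:ℤ) ≤ t := by positivity
    rcases hη i with h | h | h
    · have h1 : c (i + 1) = c i + 3 ^ i * η i := by
        simp only [c]; rw [sum_range_succ]; ring
      have h2 := hc (i + 1) (by omega)
      have h3 : (t : ℤ) ≤ QQ j * 3 ^ i := by exact_mod_cast ht
      rw [h] at h1 ⊢
      have h4 : (QQ j : ℤ) * 1 ≤ QQ j * c (i + 1) := mul_le_mul_of_nonneg_left h2 hQ
      rw [h1] at h4
      have h5 : (QQ j : ℤ) * (c i + 3 ^ i * -1) = QQ j * c i - QQ j * 3 ^ i := by ring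
      rw [h5] at h4
      linarith
    · have h2 := hc i (by omega)
      have h4 : (QQ j : ℤ) * 1 ≤ QQ j * c i := mul_le_mul_of_nonneg_left h2 hQ
      rw [h]; linarith
    · have h2 := hc i (by omega)
      have h4 : (QQ j : ℤ) * 1 ≤ QQ j * c i := mul_le_mul_of_nonneg_left h2 hQ
      rw [h]; linarith
  refine le_trans hlow (le_trans (le_abs_self _) ?_)
  rw [abs_mul]
  have : |σ| = 1 := by rcases hσ1 with h | h <;> rw [h] <;> norm_num
  rw [this, one_mul]

/-- at the end of the pieces the other coordinate is large, too -/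
theorem end_large (j : ℕ) (hg : good j ω) (i : Fin 2) :
    (QQ j : ℤ) ≤ |S ω (ss j (j + 1)) i - S ω (aa j) i| := by
  by_cases hi : i = (ω (aa j)).2.1
  · have := pieces_large hω j j (QQ j * 3 ^ j) le_rfl le_rfl hg
    rw [ss_succ, hi]; exact this
  · rw [path_ends hω j (j + 1) le_rfl]
    simp only [Pi.add_apply, Pi.smul_apply, Finset.sum_apply, smul_eq_mul]
    rw [stepVec_off _ hi]
    have h1 : S ω (aa j) i + (GG j : ℤ) * 0 + (QQ j : ℤ) * ∑ l ∈ range (j + 1), (3:ℤ) ^ l * stepVec (ω (ss j l)).2 i -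
        S ω (aa j) i = (QQ j : ℤ) * ∑ l ∈ range (j + 1), (3:ℤ) ^ l * stepVec (ω (ss j l)).2 i := by ring
    rw [h1, abs_mul, Nat.abs_cast]
    have h2 := (ternary (fun l => stepVec (ω (ss j l)).2 i) (fun l => step_vals _ i) (j + 1)).2 (by
      obtain ⟨l, hl, hl'⟩ := hg
      refine ⟨l, by omega, ?_⟩
      have h3 : i = (ω (ss j l)).2.1 := by
        have h4 : ∀ a b c : Fin 2, a ≠ b → c ≠ b → a = c := by decide
        exact h4 _ _ _ hi hl'
      show stepVec (ω (ss j l)).2 i ≠ 0
      rw [h3, stepVec_axis]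
      split_ifs <;> norm_num)
    have h3 : (1:ℤ) ≤ |∑ l ∈ range (j + 1), (3:ℤ) ^ l * stepVec (ω (ss j l)).2 i| :=
      Int.one_le_abs h2
    calc (QQ j : ℤ) = QQ j * 1 := by ring
      _ ≤ _ := mul_le_mul_of_nonneg_left h3 (by positivity)

/-- in the period of simple random walk both coordinates are large -/
theorem unit_large (j t : ℕ) (ht : t ≤ nn (aa j)) (hg : good j ω) (i : Fin 2) :
    (j : ℤ) + 1 ≤ |S ω (ss j (j + 1) + t) i| := by
  have h1 := end_large hω j hg i
  have h2 := S_lip ω (ss j (j + 1)) t i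
  have h3 := S_abs ω (aa j) i
  have h4 : (QQ j : ℤ) = aa j + nn (aa j) + j + 1 := by unfold QQ; push_cast; ring
  have h5 : (t : ℤ) ≤ nn (aa j) := by exact_mod_cast ht
  rw [abs_le] at h2 h3
  rcases abs_cases (S ω (ss j (j + 1)) i - S ω (aa j) i) with h | h <;>
    rcases abs_cases (S ω (ss j (j + 1) + t) i) with h' | h' <;> rw [h'.1] <;> rw [h.1] at h1 <;> linarith

theorem stage_large (j n : ℕ) (h1 : aa (j + 1) ≤ n) (h2 : n ≤ aa (j + 2)) (hg : good j ω)
    (hg' : good (j + 1) ω) : ∃ i, (j : ℤ) + 1 ≤ |S ω n i| := by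
  rcases Nat.lt_or_ge n (aa (j + 1) + GG (j + 1)) with h | h
  · -- the first run
    obtain ⟨t, rfl⟩ := Nat.exists_eq_add_of_le h1
    rw [path_first hω (j + 1) t (by omega)]
    obtain ⟨i, hi⟩ : ∃ i : Fin 2, i ≠ (ω (aa (j + 1))).2.1 := by
      generalize (ω (aa (j + 1))).2.1 = α
      revert α; decide
    refine ⟨i, ?_⟩
    simp only [Pi.add_apply, Pi.smul_apply, stepVec_off _ hi, smul_zero, add_zero]
    have h3 := unit_large hω j (nn (aa j)) le_rfl hg i
    have h4 : ss j (j + 1) + nn (aa j) = aa (j + 1) := by rw [ss_last, aa_succ]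
    rw [h4] at h3; exact h3
  · rcases Nat.lt_or_ge n (ss (j + 1) (j + 2)) with h' | h'
    · -- the pieces
      have h0 : ∃ i ≤ j + 1, ss (j + 1) i ≤ n ∧ n ≤ ss (j + 1) (i + 1) := by
        classical
        have hex : ∃ k, n < ss (j + 1) k := ⟨_, h'⟩
        have hk := Nat.find_spec hex
        have hk0 : Nat.find hex ≠ 0 := by
          intro h0
          rw [h0, ss_zero] at hk; omega
        obtain ⟨i, hi⟩ := Nat.exists_eq_succ_of_ne_zero hk0
        have hle : Nat.find hex ≤ j + 2 := Nat.find_le h'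
        refine ⟨i, by omega, ?_, ?_⟩
        · by_contra hcon
          push Not at hcon
          have := Nat.find_min' hex hcon
          omega
        · rw [hi] at hk; exact hk.le
      obtain ⟨i, hi, h3, h4⟩ := h0
      obtain ⟨t, rfl⟩ := Nat.exists_eq_add_of_le h3
      rw [ss_succ] at h4
      have h5 := pieces_large hω (j + 1) i t hi (by omega) hg'
      refine ⟨(ω (aa (j + 1))).2.1, ?_⟩
      have h6 := S_abs ω (aa (j + 1)) (ω (aa (j + 1))).2.1
      have h7 : (QQ (j + 1) : ℤ) = aa (j + 1) + nn (aa (j + 1)) + (j + 1) + 1 := by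
        unfold QQ; push_cast; ring
      rw [abs_le] at h6
      have h8 : (0:ℤ) ≤ nn (aa (j + 1)) := by positivity
      rcases abs_cases (S ω (ss (j + 1) i + t) (ω (aa (j + 1))).2.1 - S ω (aa (j + 1)) (ω (aa (j + 1))).2.1) with h | h <;>
        rcases abs_cases (S ω (ss (j + 1) i + t) (ω (aa (j + 1))).2.1) with h' | h' <;> rw [h'.1] <;>
          rw [h.1] at h5 <;> linarith
    · -- the simple random walk
      obtain ⟨t, rfl⟩ := Nat.exists_eq_add_of_le h'
      have h3 := aa_succ (j + 1)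
      have h4 := ss_last (j + 1)
      have h5 := unit_large hω (j + 1) t (by
        have : j + 1 + 1 = j + 2 := rfl
        rw [this] at h4 h3
        omega) hg' 0
      refine ⟨0, ?_⟩
      push_cast at h5
      have h6 : j + 1 + 1 = j + 2 := rfl
      rw [h6] at h5
      linarith

end path

theorem stage_exists (n : ℕ) : ∃ j, aa j ≤ n ∧ n < aa (j + 1) := by
  classical
  have hex : ∃ k, n < aa k := ⟨n + 1, lt_of_lt_of_le (Nat.lt_succ_self n) (aa_strict.id_le (n + 1))⟩
  have hk := Nat.find_spec hex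
  have hk0 : Nat.find hex ≠ 0 := by
    intro h0
    rw [h0] at hk
    exact absurd hk (by simp [aa])
  obtain ⟨i, hi⟩ := Nat.exists_eq_succ_of_ne_zero hk0
  refine ⟨i, ?_, by rw [hi] at hk; exact hk⟩
  by_contra hcon
  push Not at hcon
  have := Nat.find_min' hex hcon
  omega

theorem path_transient {ω : ℕ → Bool × Dir 2} (hω : ∀ n, ((ω n).1 = true ↔ Rp n))
    (hg : ∀ᶠ j in atTop, good j ω) :
    Tendsto (fun n => Real.sqrt (∑ i, (S ω n i : ℝ) ^ 2)) atTop atTop := by
  obtain ⟨J, hJ⟩ := eventually_atTop.1 hg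
  rw [tendsto_atTop]
  intro C
  obtain ⟨K, hK⟩ := exists_nat_ge C
  rw [eventually_atTop]
  refine ⟨aa (max J K + 1), fun n hn => ?_⟩
  obtain ⟨j, h1, h2⟩ := stage_exists n
  have h3 : max J K + 1 < j + 1 := aa_strict.lt_iff_lt.1 (lt_of_le_of_lt hn h2)
  obtain ⟨k, rfl⟩ : ∃ k, j = k + 1 := ⟨j - 1, by omega⟩
  have hJk : J ≤ k := by have := le_max_left J K; omega
  have hKk : K ≤ k := by have := le_max_right J K; omega
  obtain ⟨i, hi⟩ := stage_large hω k n h1 h2.le (hJ k hJk) (hJ (k + 1) (by omega))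
  have h4 : (k : ℝ) + 1 ≤ |(S ω n i : ℝ)| := by exact_mod_cast hi
  have h5 : |(S ω n i : ℝ)| ≤ Real.sqrt (∑ i, (S ω n i : ℝ) ^ 2) := by
    rw [← Real.sqrt_sq_eq_abs]
    apply Real.sqrt_le_sqrt
    exact Finset.single_le_sum (f := fun i => (S ω n i : ℝ) ^ 2) (fun i _ => sq_nonneg _) (Finset.mem_univ i)
  have h6 : (K : ℝ) ≤ k := by exact_mod_cast hKk
  linarith

end R975.CW
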