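import Pool.Agent.R975.CW.Two

set_option autoImplicit false

/-!
The plane: strong transience is not monotone in the parameters, the probabilistic part.
-/

namespace R975.CW

open MeasureTheory ProbabilityTheory Filter Finset

/-- independent trials at increasing times after a prefix event -/
theorem crw_trials (p : ℕ → unitInterval) (t : ℕ → ℕ) (ht : StrictMono t) (m₀ : ℕ) (h0 : m₀ ≤ t 0)
    (G : Set (ℕ → Bool × Dir 2)) (hG : Pre m₀ G) (C : Set (Dir 2)) (m : ℕ) :
    Pre (if m = 0 then m₀ else t (m - 1) + 1) (G ∩ {ω | ∀ i < m, (ω (t i)).2 ∈ C}) ∧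
    crw 2 p (G ∩ {ω | ∀ i < m, (ω (t i)).2 ∈ C}) = crw 2 p G * (unif 2 C) ^ m := by
  induction m with
  | zero => simp [hG]
  | succ m ih =>
    obtain ⟨ih1, ih2⟩ := ih
    have hset : G ∩ {ω : ℕ → Bool × Dir 2 | ∀ i < m + 1, (ω (t i)).2 ∈ C} =
        (G ∩ {ω | ∀ i < m, (ω (t i)).2 ∈ C}) ∩ {ω | (ω (t m)).2 ∈ C} := by
      ext ω
      constructor
      · rintro ⟨h1, h2⟩
        exact ⟨⟨h1, fun i hi => h2 i (by omega)⟩, h2 m (by omega)⟩
      · rintro ⟨⟨h1, h2⟩, h3⟩
        refine ⟨h1, fun i hi => ?_⟩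
        rcases Nat.lt_succ_iff_lt_or_eq.1 hi with h | h
        · exact h2 i h
        · subst h; exact h3
    have hle : (if m = 0 then m₀ else t (m - 1) + 1) ≤ t m := by
      split_ifs with h
      · subst h; exact h0
      · have := ht (show m - 1 < m by omega); omega
    constructor
    · rw [hset, if_neg (by omega)]
      have e : m + 1 - 1 = m := rfl
      rw [e]
      apply Pre.inter (ih1.mono (by omega))
      exact pre_coord (t m) {x : Bool × Dir 2 | x.2 ∈ C}
    · rw [hset, crw_dir p hle ih1 C, ih2, pow_succ, mul_assoc]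

theorem bad_prob (p : ℕ → unitInterval) (j : ℕ) :
    crw 2 p {ω | ¬ good j ω} ≤ (1 / 2) ^ (j + 1) := by
  have hsub : {ω : ℕ → Bool × Dir 2 | ¬ good j ω} ⊆ ⋃ α : Fin 2, ({ω : ℕ → Bool × Dir 2 | (ω (aa j)).2.1 = α} ∩
      {ω | ∀ i < j + 1, (ω (ss j i)).2 ∈ {u : Dir 2 | u.1 = α}}) := by
    intro ω hω
    rw [Set.mem_iUnion]
    refine ⟨(ω (aa j)).2.1, rfl, fun i hi => ?_⟩
    by_contra hcon
    exact hω ⟨i, by omega, hcon⟩
  refine le_trans (measure_mono hsub) (le_trans (measure_iUnion_fintype_le _ _) ?_)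
  have hval : ∀ α : Fin 2, crw 2 p ({ω : ℕ → Bool × Dir 2 | (ω (aa j)).2.1 = α} ∩
      {ω | ∀ i < j + 1, (ω (ss j i)).2 ∈ {u : Dir 2 | u.1 = α}}) = 1 / 2 * (1 / 2) ^ (j + 1) := by
    intro α
    have hG : Pre (aa j + 1) {ω : ℕ → Bool × Dir 2 | (ω (aa j)).2.1 = α} :=
      pre_coord (aa j) {x : Bool × Dir 2 | x.2.1 = α}
    have h0 : aa j + 1 ≤ ss j 0 := by rw [ss_zero]; have := GG_pos j; omega
    rw [(crw_trials p (ss j) (ss_strict j) (aa j + 1) h0 _ hG {u | u.1 = α} (j + 1)).2, unif2_axis]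
    congr 1
    have h1 := crw_dir (d := 2) p (m := 0) (n := aa j) (Nat.zero_le _) (G := Set.univ)
      (fun _ _ _ _ => trivial) {u | u.1 = α}
    rw [Set.univ_inter, measure_univ, one_mul, unif2_axis] at h1
    exact h1
  rw [Fin.sum_univ_two, hval, hval, ← add_mul]
  have : (1:ENNReal) / 2 + 1 / 2 = 1 := ENNReal.add_halves 1
  rw [this, one_mul]

theorem strong_Rp : StronglyTransient 2 (ind01 Rp) := by
  have h1 := coin_ae (d := 2) Rp
  have h2 : ∀ᵐ ω ∂(crw 2 (ind01 Rp)), ∀ᶠ j in atTop, ω ∉ {ω | ¬ good j ω} := by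
    apply ae_eventually_notMem
    refine ne_top_of_le_ne_top ?_ (ENNReal.tsum_le_tsum fun j => bad_prob (ind01 Rp) j)
    have h3 : ∑' j : ℕ, (1 / 2 : ENNReal) ^ (j + 1) ≤ ∑' j : ℕ, (1 / 2 : ENNReal) ^ j := by
      apply ENNReal.tsum_le_tsum
      intro j
      apply pow_le_pow_of_le_one (by simp) _ (Nat.le_succ j)
      rw [one_div]; exact ENNReal.inv_le_one.2 (by norm_num)
    refine ne_top_of_le_ne_top ?_ h3
    rw [ENNReal.tsum_geometric]
    apply ENNReal.inv_ne_top.2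
    rw [one_div]
    rw [ENNReal.one_sub_inv_two]
    simp
  filter_upwards [h1, h2] with ω hω hg
  apply path_transient hω
  filter_upwards [hg] with j hj
  by_contra hcon
  exact hj hcon

/-! ### the coarser walk -/

section coarse

variable {ω : ℕ → Bool × Dir 2}

theorem q_first (j : ℕ) (hω : ∀ n < ss j (j + 1), ((ω n).1 = true ↔ Rq n)) :
    S ω (ss j 0) = S ω (aa j) + (GG j : ℤ) • stepVec (ω (aa j)).2 := by
  have hG := GG_pos j
  have h0 := aa_succ j
  have h5 := ss_zero j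
  have h6 := ss_last j
  rw [ss_zero]
  apply S_run ((hω (aa j) (by omega)).2 ⟨j, Or.inl rfl⟩) _ (GG j) le_rfl
  intro n h1 h2
  rcases hb : (ω n).1 with _ | _
  · rfl
  · exfalso
    have h := (hω n (by omega)).1 hb
    rcases Rq_local (j := j) (by omega) (by omega) h with h | h | h
    · omega
    · rw [ss_zero] at h; omega
    · omega

theorem q_second (j : ℕ) (hω : ∀ n < ss j (j + 1), ((ω n).1 = true ↔ Rq n)) :
    S ω (ss j (j + 1)) = S ω (ss j 0) + (GG j : ℤ) • stepVec (ω (ss j 0)).2 := by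
  have hG := GG_pos j
  have h0 := aa_succ j
  have h5 := ss_zero j
  have h6 := ss_last j
  have e : ss j (j + 1) = ss j 0 + GG j := by rw [ss_last, ss_zero]; ring
  rw [e]
  apply S_run ((hω (ss j 0) (by omega)).2 ⟨j, Or.inr (Or.inl rfl)⟩) _ (GG j) le_rfl
  intro n h1 h2
  rcases hb : (ω n).1 with _ | _
  · rfl
  · exfalso
    have h := (hω n (by omega)).1 hb
    rcases Rq_local (j := j) (by omega) (by omega) h with h | h | h
    · omega
    · omega
    · omega

/-- the opposite direction -/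
def opp (u : Dir 2) : Dir 2 := (u.1, !u.2)

theorem stepVec_opp (u : Dir 2) : stepVec (opp u) = - stepVec u := by
  rcases u with ⟨i, b⟩
  unfold stepVec opp
  cases b
  · simp [← Pi.single_neg]
  · simp [← Pi.single_neg]

theorem q_back (j : ℕ) (hω : ∀ n < ss j (j + 1), ((ω n).1 = true ↔ Rq n))
    (h : (ω (ss j 0)).2 = opp (ω (aa j)).2) : S ω (ss j (j + 1)) = S ω (aa j) := by
  rw [q_second j hω, q_first j hω, h, stepVec_opp]
  rw [smul_neg]; abel

end coarse

theorem stage_visit (j : ℕ) (G : Set (ℕ → Bool × Dir 2)) (hG : Pre (aa j) G) :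
    1 / 8 * crw 2 (ind01 Rq) G ≤ crw 2 (ind01 Rq) (G ∩ Hit (ss j (j + 1)) (nn (aa j))) := by
  set μ := crw 2 (ind01 Rq) with hμ
  have hGG := GG_pos j
  have h5 := ss_zero j
  have h6 := ss_last j
  let K : Set (ℕ → Bool × Dir 2) := {ω | ∀ n < ss j (j + 1), ((ω n).1 = true ↔ Rq n)}
  let W : Dir 2 → Set (ℕ → Bool × Dir 2) := fun u =>
    (G ∩ {ω | (ω (aa j)).2 ∈ ({u} : Set (Dir 2))}) ∩ {ω | (ω (ss j 0)).2 ∈ ({opp u} : Set (Dir 2))}
  have hKpre : Pre (ss j (j + 1)) K := by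
    intro ω ω' h hω n hn'
    rw [← h n hn']; exact hω n hn'
  have hW1 : ∀ u, Pre (aa j + 1) (G ∩ {ω | (ω (aa j)).2 ∈ ({u} : Set (Dir 2))}) := fun u =>
    (hG.mono (Nat.le_succ _)).inter (pre_coord (aa j) {x : Bool × Dir 2 | x.2 ∈ ({u} : Set (Dir 2))})
  have hWpre : ∀ u, Pre (ss j (j + 1)) (W u) := fun u =>
    ((hW1 u).mono (by omega)).inter ((pre_coord (ss j 0) {x : Bool × Dir 2 | x.2 ∈ ({opp u} : Set (Dir 2))}).mono (by omega))
  have hWm : ∀ u, μ (W u) = μ G * (1 / 4) * (1 / 4) := by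
    intro u
    have h1 := crw_dir (ind01 Rq) (show aa j + 1 ≤ ss j 0 by omega) (hW1 u) ({opp u} : Set (Dir 2))
    rw [crw_dir (ind01 Rq) (le_refl (aa j)) hG ({u} : Set (Dir 2)), unif2_singleton,
      unif2_singleton] at h1
    exact h1
  have hK : ∀ u, μ (W u ∩ K) = μ (W u) := by
    intro u
    apply measure_congr
    have h1 := coin_ae (d := 2) Rq
    filter_upwards [h1] with ω hω
    apply propext
    constructor
    · exact fun h => h.1
    · exact fun h => ⟨h, fun n _ => hω n⟩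
  let W' : Set (ℕ → Bool × Dir 2) := ⋃ u : Dir 2, (W u ∩ K)
  have hW'pre : Pre (ss j (j + 1)) W' := by
    intro ω ω' h hω
    rw [Set.mem_iUnion] at hω ⊢
    obtain ⟨u, hu⟩ := hω
    exact ⟨u, ((hWpre u).inter hKpre) ω ω' h hu⟩
  have hdisj : Pairwise (Function.onFun Disjoint fun u => W u ∩ K) := by
    intro u v huv
    rw [Function.onFun, Set.disjoint_left]
    rintro ω ⟨⟨⟨_, h1⟩, _⟩, _⟩ ⟨⟨⟨_, h2⟩, _⟩, _⟩
    apply huv
    have h3 : (ω (aa j)).2 = u := h1
    have h4 : (ω (aa j)).2 = v := h2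
    rw [← h3, ← h4]
  have hW'm : μ W' = 1 / 4 * μ G := by
    rw [measure_iUnion hdisj (fun u => ((hWpre u).inter hKpre).measurable)]
    rw [tsum_fintype]
    simp only [hK, hWm]
    rw [Finset.sum_const]
    have hcard : (Finset.univ : Finset (Dir 2)).card = 4 := by decide
    rw [hcard, nsmul_eq_mul]
    push_cast
    rw [mul_comm (μ G) (1/4), mul_assoc, mul_comm (μ G) (1/4), ← mul_assoc, ← mul_assoc]
    have : (4:ENNReal) * (1 / 4) = 1 := by
      rw [one_div]; exact ENNReal.mul_inv_cancel (by norm_num) (by finiteness)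
    rw [this, one_mul]
  have h1 := hit_lower (ind01 Rq) (nn (aa j)) (ss j (j + 1)) W' (1 / 2) hW'pre (by
      intro ω hω
      rw [Set.mem_iUnion] at hω
      obtain ⟨u, ⟨⟨⟨_, h1⟩, h2⟩, h3⟩⟩ := hω
      have h4 : (ω (aa j)).2 = u := h1
      have h5 : (ω (ss j 0)).2 = opp u := h2
      rw [q_back j h3 (by rw [h4, h5])]
      exact nn_spec (aa j) _ (fun i => S_abs ω (aa j) i)) (by
      intro i h1 h2
      have : Rq i := ⟨j, Or.inr (Or.inr ⟨by omega, by rw [aa_succ]; omega⟩)⟩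
      simp [ind01, this])
  rw [← hμ, hW'm] at h1
  have h2 : μ (W' ∩ Hit (ss j (j + 1)) (nn (aa j))) ≤ μ (G ∩ Hit (ss j (j + 1)) (nn (aa j))) := by
    apply measure_mono
    rintro ω ⟨h1, h2⟩
    rw [Set.mem_iUnion] at h1
    obtain ⟨u, hu⟩ := h1
    exact ⟨hu.1.1.1, h2⟩
  refine le_trans (le_of_eq ?_) (le_trans h1 h2)
  rw [← mul_assoc]
  congr 1
  rw [← ENNReal.toReal_eq_toReal_iff' (by finiteness) (by finiteness)]
  rw [ENNReal.toReal_mul, ENNReal.toReal_ofReal (by norm_num)]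
  norm_num

/-- no visit of `0` after time `aa J` and up to time `aa (J + m)` -/
def Miss (J m : ℕ) : Set (ℕ → Bool × Dir 2) := {ω | ∀ n, aa J < n → n ≤ aa (J + m) → S ω n ≠ 0}

theorem pre_Miss (J m : ℕ) : Pre (aa (J + m)) (Miss J m) := by
  intro ω ω' h hω n h1 h2
  rw [← S_congr n (fun i hi => h i (by omega))]
  exact hω n h1 h2

theorem miss_prob (J m : ℕ) : crw 2 (ind01 Rq) (Miss J m) ≤ (7 / 8) ^ m := by
  induction m with
  | zero => simp only [pow_zero]; exact prob_le_one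
  | succ m ih =>
    set μ := crw 2 (ind01 Rq) with hμ
    have hpre := pre_Miss J m
    have h1 := stage_visit (J + m) (Miss J m) hpre
    rw [← hμ] at h1
    set H := Hit (ss (J + m) (J + m + 1)) (nn (aa (J + m))) with hH
    have h2 : Miss J (m + 1) ⊆ Miss J m \ H := by
      intro ω hω
      refine ⟨fun n h3 h4 => hω n h3 (le_trans h4 (aa_strict.monotone (by omega))), ?_⟩
      rintro ⟨t, h3, h4, h5⟩
      have h6 := ss_last (J + m)
      have h7 := aa_succ (J + m)
      have h8 : aa J ≤ aa (J + m) := aa_strict.monotone (by omega)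
      exact hω _ (by omega) (by rw [show J + (m + 1) = J + m + 1 by ring]; omega) h5
    have hHm : MeasurableSet H := (pre_Hit _ _).measurable
    have h3 : μ (Miss J m ∩ H) + μ (Miss J m \ H) = μ (Miss J m) := measure_inter_add_sdiff _ hHm
    have h4 : μ (Miss J m \ H) ≤ 7 / 8 * μ (Miss J m) := by
      have hfin : μ (Miss J m) ≠ ⊤ := measure_ne_top _ _
      have hf1 : μ (Miss J m \ H) ≠ ⊤ := measure_ne_top _ _
      have hf2 : μ (Miss J m ∩ H) ≠ ⊤ := measure_ne_top _ _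
      rw [← ENNReal.toReal_le_toReal hf1 (by finiteness)]
      rw [← ENNReal.toReal_le_toReal (by finiteness) hf2] at h1
      have h3' := congrArg ENNReal.toReal h3
      rw [ENNReal.toReal_add hf2 hf1] at h3'
      rw [ENNReal.toReal_mul] at h1 ⊢
      norm_num at h1 ⊢
      linarith
    calc μ (Miss J (m + 1)) ≤ μ (Miss J m \ H) := measure_mono h2
      _ ≤ 7 / 8 * μ (Miss J m) := h4
      _ ≤ 7 / 8 * (7 / 8) ^ m := by gcongr
      _ = (7 / 8) ^ (m + 1) := by rw [pow_succ, mul_comm]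

theorem miss_all (J : ℕ) : crw 2 (ind01 Rq) {ω | ∀ n, aa J < n → S ω n ≠ 0} = 0 := by
  apply le_antisymm _ (zero_le)
  have h1 : ∀ m : ℕ, crw 2 (ind01 Rq) {ω | ∀ n, aa J < n → S ω n ≠ 0} ≤ (7 / 8) ^ m := by
    intro m
    refine le_trans (measure_mono ?_) (miss_prob J m)
    intro ω hω n h1 _
    exact hω n h1
  have h2 : Tendsto (fun m : ℕ => (7 / 8 : ENNReal) ^ m) atTop (nhds 0) := by
    apply ENNReal.tendsto_pow_atTop_nhds_zero_of_lt_one
    rw [← ENNReal.toReal_lt_toReal (by finiteness) (by finiteness)]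
    norm_num
  exact ge_of_tendsto' h2 h1

theorem not_strong_Rq : ¬ StronglyTransient 2 (ind01 Rq) := by
  intro h
  have h1 : ∀ J : ℕ, ∀ᵐ ω ∂(crw 2 (ind01 Rq)), ¬ (∀ n, aa J < n → S ω n ≠ 0) := by
    intro J
    rw [ae_iff]
    simpa using miss_all J
  have h2 : ∀ᵐ ω ∂(crw 2 (ind01 Rq)), False := by
    filter_upwards [h, ae_all_iff.2 h1] with ω hω hm
    obtain ⟨N, hN⟩ := eventually_atTop.1 (hω.eventually_gt_atTop 0)
    apply hm N
    intro n hn hS
    have h3 : N ≤ n := le_trans (aa_strict.id_le N) hn.le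
    have h4 := hN n h3
    rw [hS] at h4
    simp at h4
  rw [ae_iff] at h2
  simp at h2

/-- the coarser walk is at the origin infinitely often almost surely -/
theorem visits_Rq : ∀ᵐ ω ∂(crw 2 (ind01 Rq)), ∃ᶠ n in atTop, S ω n = 0 := by
  have h1 : ∀ J : ℕ, ∀ᵐ ω ∂(crw 2 (ind01 Rq)), ¬ (∀ n, aa J < n → S ω n ≠ 0) := by
    intro J
    rw [ae_iff]
    simpa using miss_all J
  filter_upwards [ae_all_iff.2 h1] with ω hm
  rw [frequently_atTop]
  intro N
  have h2 := hm N
  push Not at h2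
  obtain ⟨n, hn, h0⟩ := h2
  exact ⟨n, le_trans (aa_strict.id_le N) hn.le, h0⟩

theorem ind_le (n : ℕ) : ind01 Rq n ≤ ind01 Rp n := by
  unfold ind01
  by_cases h1 : Rq n
  · rw [if_pos h1, if_pos (Rq_Rp h1)]
  · rw [if_neg h1]; exact unitInterval.nonneg'

/-- in the plane strong transience is not monotone -/
theorem not_mono_two : ¬ Mono 2 := by
  intro h
  exact not_strong_Rq (h (ind01 Rp) (ind01 Rq) ind_le strong_Rp)

end R975.CW
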