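import Pool.Agent.R975.CW.Tools

set_option autoImplicit false

/-!
Product measures: zipping, reindexing; reduction of the conservative walk to deterministic block
lengths.
-/

namespace R975.CW

open MeasureTheory ProbabilityTheory Filter Finset

section zip

variable {X Y : ℕ → Type*} [∀ n, MeasurableSpace (X n)] [∀ n, MeasurableSpace (Y n)]

def zipf (z : (∀ n, X n) × (∀ n, Y n)) : ∀ n, X n × Y n := fun n => (z.1 n, z.2 n)

theorem measurable_zipf : Measurable (zipf (X := X) (Y := Y)) := by
  apply measurable_pi_lambda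
  intro n
  exact ((measurable_pi_apply n).comp measurable_fst).prodMk ((measurable_pi_apply n).comp measurable_snd)

theorem infinitePi_zip (μ : ∀ n, Measure (X n)) [∀ n, IsProbabilityMeasure (μ n)]
    (ν : ∀ n, Measure (Y n)) [∀ n, IsProbabilityMeasure (ν n)] :
    ((Measure.infinitePi μ).prod (Measure.infinitePi ν)).map zipf =
      Measure.infinitePi (fun n => (μ n).prod (ν n)) := by
  apply Measure.eq_infinitePi
  intro s t ht
  rw [Measure.map_apply measurable_zipf (MeasurableSet.pi s.countable_toSet fun i _ => ht i)]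
  rw [Measure.prod_apply (measurable_zipf (MeasurableSet.pi s.countable_toSet fun i _ => ht i))]
  have h1 : ∀ x : ∀ n, X n, Measure.infinitePi ν (Prod.mk x ⁻¹' (zipf ⁻¹' Set.pi s t)) =
      ∏ i ∈ s, ν i (Prod.mk (x i) ⁻¹' t i) := by
    intro x
    have : Prod.mk x ⁻¹' (zipf ⁻¹' Set.pi (s : Set ℕ) t) = Set.pi s (fun i => Prod.mk (x i) ⁻¹' t i) := by
      ext y; simp [zipf, Set.mem_pi]
    rw [this, Measure.infinitePi_pi]
    intro i _
    exact measurable_prodMk_left (ht i)
  simp only [h1]
  have h2 := lintegral_prod_eq_prod_lintegral_of_indepFun (μ := Measure.infinitePi μ) s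
    (fun i (x : ∀ n, X n) => ν i (Prod.mk (x i) ⁻¹' t i))
    (iIndepFun_infinitePi (P := μ) (X := fun i (z : X i) => ν i (Prod.mk z ⁻¹' t i))
      (fun i => measurable_measure_prodMk_left (ht i)))
    (fun i => (measurable_measure_prodMk_left (ht i)).comp (measurable_pi_apply i))
  have h3 : ∫⁻ x, ∏ i ∈ s, ν i (Prod.mk (x i) ⁻¹' t i) ∂(Measure.infinitePi μ) =
      ∏ i ∈ s, ∫⁻ x, ν i (Prod.mk (x i) ⁻¹' t i) ∂(Measure.infinitePi μ) := by
    simpa [Finset.prod_apply] using h2
  rw [h3]
  apply Finset.prod_congr rfl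
  intro i _
  rw [Measure.prod_apply (ht i)]
  have h4 := measurePreserving_eval_infinitePi μ i
  exact h4.lintegral_comp (measurable_measure_prodMk_left (ht i))

end zip

section reindex

variable {X : Type*} [MeasurableSpace X] (μ : Measure X) [IsProbabilityMeasure μ]

theorem infinitePi_reindex (t : ℕ → ℕ) (ht : Function.Injective t) :
    (Measure.infinitePi (fun _ : ℕ => μ)).map (fun x j => x (t j)) =
      Measure.infinitePi (fun _ : ℕ => μ) := by
  classical
  apply Measure.eq_infinitePi
  intro s T hT
  have hm : Measurable (fun (x : ℕ → X) (j : ℕ) => x (t j)) :=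
    measurable_pi_lambda _ fun j => measurable_pi_apply _
  rw [Measure.map_apply hm (MeasurableSet.pi s.countable_toSet fun i _ => hT i)]
  have h1 : (fun (x : ℕ → X) (j : ℕ) => x (t j)) ⁻¹' (Set.pi s T) =
      Set.pi (s.image t) (fun i => if h : ∃ j, t j = i then T h.choose else Set.univ) := by
    ext x
    simp only [Set.mem_preimage, Set.mem_pi, Finset.mem_coe, Finset.mem_image]
    constructor
    · rintro h _ ⟨j, hj, rfl⟩
      have hex : ∃ j', t j' = t j := ⟨j, rfl⟩
      rw [dif_pos hex]
      have := ht hex.choose_spec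
      rw [this]
      exact h j hj
    · intro h j hj
      have := h (t j) ⟨j, hj, rfl⟩
      have hex : ∃ j', t j' = t j := ⟨j, rfl⟩
      rw [dif_pos hex, ht hex.choose_spec] at this
      exact this
  rw [h1, Measure.infinitePi_pi]
  · rw [Finset.prod_image (fun a _ b _ h => ht h)]
    apply Finset.prod_congr rfl
    intro j _
    have hex : ∃ j', t j' = t j := ⟨j, rfl⟩
    rw [dif_pos hex, ht hex.choose_spec]
  · intro i _
    split_ifs
    · exact hT _
    · exact MeasurableSet.univ

end reindex

/-! ### block description -/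

variable {d : ℕ}

/-- position after `k` blocks -/
def XX (L : ℕ → ℕ) (D : ℕ → Dir d) (k : ℕ) : Fin d → ℤ :=
  ∑ j ∈ range k, (L j : ℤ) • stepVec (D j)

end R975.CW
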